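import Mathlib

/-!
# Definitions: ball-arrangement projections, Apollonian group and packing, curvature
-/

set_option autoImplicit false

namespace Pool.Agent.H30.Apollo24

open scoped RealInnerProductSpace OnePoint
open Set

/-- Euclidean 4-space. -/
abbrev E4 := EuclideanSpace ℝ (Fin 4)

/-- Euclidean 3-space. -/
abbrev E3 := EuclideanSpace ℝ (Fin 3)

/-- The vertices of the standard 24-cell: the points of `ℤ⁴` at distance `√2` from the origin,
that is, the 24 points obtained by permuting the coordinates of `(±1, ±1, 0, 0)`. -/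
def stdVertices : Set E4 := {x | (∀ i, ∃ k : ℤ, x i = k) ∧ ‖x‖ ^ 2 = 2}

/-- The standard 24-cell. -/
def std24Cell : Set E4 := convexHull ℝ stdVertices

/-- `R` is a regular 24-cell: the image of the standard one under a similarity
`x ↦ c • U x + t` with `c > 0` and `U` a linear isometry. -/
def IsRegular24Cell (R : Set E4) : Prop :=
  ∃ (c : ℝ) (U : E4 ≃ₗᵢ[ℝ] E4) (t : E4), 0 < c ∧ R = (fun x => c • U x + t) '' std24Cell

/-- `v` and `w` are the two ends of an edge of the polytope `P`: the segment from `v` to `w` is a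
one-dimensional (exposed) face of `P`. -/
def IsEdge (P : Set E4) (v w : E4) : Prop :=
  v ≠ w ∧ IsExposed ℝ P (segment ℝ v w)

/-- `P` is edge-scribed: every edge is tangent to the unit sphere `𝕊³`, that is, it meets the
sphere in a point `x` and is perpendicular there to the radius `x`. -/
def IsEdgeScribed (P : Set E4) : Prop :=
  ∀ v w, IsEdge P v w → ∃ x ∈ segment ℝ v w, ‖x‖ = 1 ∧ ⟪x, w - v⟫ = 0

/-- The north pole `N = (0,0,0,1)`. -/
noncomputable def northPole : E4 := EuclideanSpace.single 3 1

/-- `R` is an edge-scribed regular 24-cell having an edge whose midpoint lies on the ray from the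
origin through the north pole (so that `𝖡(R)` is its 1-CBP projection). -/
def IsOneCBP (R : Set E4) : Prop :=
  IsRegular24Cell R ∧ IsEdgeScribed R ∧
    ∃ v w, IsEdge R v w ∧ ∃ t : ℝ, 0 < t ∧ midpoint ℝ v w = t • northPole

/-- Stereographic projection from the north pole, `𝕊³ → ℝ³ ∪ {∞}`:
`N ↦ ∞` and `(x₀,x₁,x₂,x₃) ↦ (x₀,x₁,x₂) / (1 - x₃)` otherwise. -/
noncomputable def stereo (x : E4) : OnePoint E3 :=
  open Classical in
  if x = northPole then ∞
  else ((!₂[x 0 / (1 - x 3), x 1 / (1 - x 3), x 2 / (1 - x 3)] : E3) : OnePoint E3)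

/-- The cap of `𝕊³` visible from `v`. -/
def cap (v : E4) : Set E4 := {x | ‖x‖ = 1 ∧ 1 ≤ ⟪x, v⟫}

/-- The ball-arrangement projection `𝖡(P)`: the stereographic images of the caps visible from the
vertices (the extreme points) of the polytope `P`. -/
noncomputable def ballArrangement (P : Set E4) : Set (Set (OnePoint E3)) :=
  {S | ∃ v ∈ P.extremePoints ℝ, S = stereo '' cap v}

/-- The dilation of `ℝ³ ∪ {∞}` by the factor `1/√3`. -/
noncomputable def dilation : OnePoint E3 → OnePoint E3 :=
  OnePoint.map (fun z => (1 / √3 : ℝ) • z)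

/-- The image of `𝖡(P)` under the dilation by the factor `1/√3`. For an edge-scribed regular
24-cell `R` as in `IsOneCBP` this is the packing `ℬ`, and for its polar it is `ℬ*`. -/
noncomputable def dilatedArrangement (P : Set E4) : Set (Set (OnePoint E3)) :=
  {S | ∃ T ∈ ballArrangement P, S = dilation '' T}

/-- The polar of `P` with respect to the unit sphere. -/
def polarSet (P : Set E4) : Set E4 := {w | ∀ v ∈ P, ⟪v, w⟫ ≤ 1}

/-- The closed ball with centre `c` and radius `r` in `ℝ³ ∪ {∞}`. -/
def ballSet (c : E3) (r : ℝ) : Set (OnePoint E3) :=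
  (fun z : E3 => (z : OnePoint E3)) '' Metric.closedBall c r

/-- The closure of the complement of the ball with centre `c` and radius `r > 0` in `ℝ³ ∪ {∞}`,
that is, the complement of the open ball. It contains `∞`. -/
def coBallSet (c : E3) (r : ℝ) : Set (OnePoint E3) :=
  ((fun z : E3 => (z : OnePoint E3)) '' Metric.ball c r)ᶜ

/-- The closed half-space `⟪n, z⟫ ≤ d` in `ℝ³ ∪ {∞}`, with `∞` included. -/
def halfSpaceSet (n : E3) (d : ℝ) : Set (OnePoint E3) :=
  insert ∞ ((fun z : E3 => (z : OnePoint E3)) '' {z | ⟪n, z⟫ ≤ d})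

/-- The inversion of `ℝ³ ∪ {∞}` in the sphere with centre `c` and radius `r`. -/
noncomputable def sphereInversion (c : E3) (r : ℝ) (P : OnePoint E3) : OnePoint E3 :=
  open Classical in
  P.elim (c : OnePoint E3)
    (fun z => if z = c then ∞ else ((EuclideanGeometry.inversion c r z : E3) : OnePoint E3))

/-- The reflection of `ℝ³ ∪ {∞}` in the plane `⟪n, z⟫ = d` (for a unit vector `n`). -/
noncomputable def planeReflection (n : E3) (d : ℝ) : OnePoint E3 → OnePoint E3 :=
  OnePoint.map (fun z => z - (2 * (⟪n, z⟫ - d)) • n)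

/-- `f` is the inversion in the generalised ball `S`: the inversion in the boundary sphere if `S` is
a ball or the closure of the complement of a ball, the reflection in the boundary plane if `S` is a
half-space. -/
def IsInversionIn (S : Set (OnePoint E3)) (f : OnePoint E3 → OnePoint E3) : Prop :=
  (∃ c r, 0 < r ∧ (S = ballSet c r ∨ S = coBallSet c r) ∧ f = sphereInversion c r) ∨
  (∃ n d, ‖n‖ = 1 ∧ S = halfSpaceSet n d ∧ f = planeReflection n d)

/-- The Apollonian group of `P`: the group of transformations of `ℝ³ ∪ {∞}` generated by the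
inversions in the members of the dilated ball arrangement of the polar of `P`. -/
noncomputable def apollonianGroup (P : Set E4) : Subgroup (Equiv.Perm (OnePoint E3)) :=
  Subgroup.closure {g | ∃ S ∈ dilatedArrangement (polarSet P), IsInversionIn S g}

/-- The Apollonian packing `Ω(ℬ)`: all images of the members of `ℬ` under the Apollonian group. -/
def apollonianPacking (P : Set E4) : Set (Set (OnePoint E3)) :=
  {T | ∃ g ∈ apollonianGroup P, ∃ S ∈ dilatedArrangement P, T = g '' S}

/-- `S` has curvature `κ`: `1/r` for a ball of radius `r`, `0` for a half-space and `-1/r` for the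
closure of the complement of a ball of radius `r`. -/
def HasCurvature (S : Set (OnePoint E3)) (κ : ℝ) : Prop :=
  (∃ c r, 0 < r ∧ S = ballSet c r ∧ κ = 1 / r) ∨
  (∃ n d, ‖n‖ = 1 ∧ S = halfSpaceSet n d ∧ κ = 0) ∨
  (∃ c r, 0 < r ∧ S = coBallSet c r ∧ κ = -(1 / r))

end Pool.Agent.H30.Apollo24
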