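import Pool.Agent.H30.Apollo24.Polar

set_option autoImplicit false

namespace Pool.Agent.H30.Apollo24

open scoped RealInnerProductSpace OnePoint
open Set

theorem orth_fin : ∀ x0 x1 x2 x3 y0 y1 y2 y3 : Fin 3,
    ((x0 : ℤ) - 1) ^ 2 + ((x1 : ℤ) - 1) ^ 2 + ((x2 : ℤ) - 1) ^ 2 + ((x3 : ℤ) - 1) ^ 2 = 2 →
    ((y0 : ℤ) - 1) ^ 2 + ((y1 : ℤ) - 1) ^ 2 + ((y2 : ℤ) - 1) ^ 2 + ((y3 : ℤ) - 1) ^ 2 = 2 →
    ((x0 : ℤ) - 1) * ((y0 : ℤ) - 1) + ((x1 : ℤ) - 1) * ((y1 : ℤ) - 1) +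
      ((x2 : ℤ) - 1) * ((y2 : ℤ) - 1) + ((x3 : ℤ) - 1) * ((y3 : ℤ) - 1) = 0 →
    ∃ z0 z1 z2 z3 : Fin 3,
      ((z0 : ℤ) - 1) ^ 2 + ((z1 : ℤ) - 1) ^ 2 + ((z2 : ℤ) - 1) ^ 2 + ((z3 : ℤ) - 1) ^ 2 = 2 ∧
      ((z0 : ℤ) - 1) * ((x0 : ℤ) - 1) + ((z1 : ℤ) - 1) * ((x1 : ℤ) - 1) +
        ((z2 : ℤ) - 1) * ((x2 : ℤ) - 1) + ((z3 : ℤ) - 1) * ((x3 : ℤ) - 1) = 1 ∧
      ((z0 : ℤ) - 1) * ((y0 : ℤ) - 1) + ((z1 : ℤ) - 1) * ((y1 : ℤ) - 1) +
        ((z2 : ℤ) - 1) * ((y2 : ℤ) - 1) + ((z3 : ℤ) - 1) * ((y3 : ℤ) - 1) = 1 := by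
  decide

theorem coord_bound {a : Fin 4 → ℤ} (ha : ∑ i, a i ^ 2 = 2) (i : Fin 4) :
    ∃ x : Fin 3, a i = (x : ℤ) - 1 := by
  rw [Fin.sum_univ_four] at ha
  have h0 : a i ^ 2 ≤ 2 := by
    fin_cases i <;> simp <;> nlinarith [sq_nonneg (a 0), sq_nonneg (a 1), sq_nonneg (a 2), sq_nonneg (a 3)]
  have h1 : a i ≤ 1 := by nlinarith
  have h2 : -1 ≤ a i := by nlinarith
  have : a i = -1 ∨ a i = 0 ∨ a i = 1 := by omega
  rcases this with h | h | h
  · exact ⟨0, by rw [h]; rfl⟩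
  · exact ⟨1, by rw [h]; rfl⟩
  · exact ⟨2, by rw [h]; rfl⟩

theorem orth_roots {a b : Fin 4 → ℤ} (ha : ∑ i, a i ^ 2 = 2) (hb : ∑ i, b i ^ 2 = 2)
    (hab : ∑ i, a i * b i = 0) :
    ∃ r : Fin 4 → ℤ, ∑ i, r i ^ 2 = 2 ∧ ∑ i, r i * a i = 1 ∧ ∑ i, r i * b i = 1 := by
  obtain ⟨x0, h0⟩ := coord_bound ha 0
  obtain ⟨x1, h1⟩ := coord_bound ha 1
  obtain ⟨x2, h2⟩ := coord_bound ha 2
  obtain ⟨x3, h3⟩ := coord_bound ha 3
  obtain ⟨y0, k0⟩ := coord_bound hb 0
  obtain ⟨y1, k1⟩ := coord_bound hb 1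
  obtain ⟨y2, k2⟩ := coord_bound hb 2
  obtain ⟨y3, k3⟩ := coord_bound hb 3
  rw [Fin.sum_univ_four] at ha hb hab
  rw [h0, h1, h2, h3] at ha hab
  rw [k0, k1, k2, k3] at hb hab
  obtain ⟨z0, z1, z2, z3, e1, e2, e3⟩ := orth_fin x0 x1 x2 x3 y0 y1 y2 y3 ha hb hab
  refine ⟨![(z0 : ℤ) - 1, (z1 : ℤ) - 1, (z2 : ℤ) - 1, (z3 : ℤ) - 1], ?_, ?_, ?_⟩
  · rw [Fin.sum_univ_four]; exact e1
  · rw [Fin.sum_univ_four, h0, h1, h2, h3]; exact e2
  · rw [Fin.sum_univ_four, k0, k1, k2, k3]; exact e3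

theorem toE_mem {a : Fin 4 → ℤ} (ha : ∑ i, a i ^ 2 = 2) : toE a ∈ std24Cell :=
  subset_convexHull ℝ _ (mem_stdVertices.2 ⟨a, ha, rfl⟩)

theorem eq_or_eq_of_mem_segment {a b σ : Fin 4 → ℤ} (ha : ∑ i, a i ^ 2 = 2) (hb : ∑ i, b i ^ 2 = 2)
    (hσ : ∑ i, σ i ^ 2 = 2) (h : toE σ ∈ segment ℝ (toE a) (toE b)) : σ = a ∨ σ = b := by
  have h1 : toE σ ∈ std24Cell.extremePoints ℝ := by
    rw [extremePoints_std]; exact mem_stdVertices.2 ⟨σ, hσ, rfl⟩
  rcases (mem_extremePoints_iff_forall_segment.1 h1).2 _ (toE_mem ha) _ (toE_mem hb) h with h2 | h2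
  · left; exact (toE_injective h2).symm
  · right; exact (toE_injective h2).symm

/-- The map `x ↦ c • U x` as a linear equivalence. -/
noncomputable def sc (c : ℝ) (hc : c ≠ 0) (U : E4 ≃ₗᵢ[ℝ] E4) : E4 ≃ₗ[ℝ] E4 :=
  U.toLinearEquiv.trans (LinearEquiv.smulOfNeZero ℝ E4 c hc)

theorem sc_apply (c : ℝ) (hc : c ≠ 0) (U : E4 ≃ₗᵢ[ℝ] E4) (x : E4) : sc c hc U x = c • U x := rfl

theorem image_sc (c : ℝ) (hc : c ≠ 0) (U : E4 ≃ₗᵢ[ℝ] E4) (A : Set E4) :
    (fun x => c • U x) '' A = sc c hc U '' A := rfl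

theorem adj_of_isEdge {a b : Fin 4 → ℤ} (ha : ∑ i, a i ^ 2 = 2) (hb : ∑ i, b i ^ 2 = 2)
    {c : ℝ} (hc : 0 < c) {U : E4 ≃ₗᵢ[ℝ] E4}
    (h : IsEdge ((fun x => c • U x) '' std24Cell) (c • U (toE a)) (c • U (toE b))) :
    ∑ i, a i * b i = 1 := by
  obtain ⟨hne, hexp⟩ := h
  obtain ⟨l, hl⟩ := hexp ⟨_, left_mem_segment ℝ _ _⟩
  have hne' : a ≠ b := by
    intro h; apply hne; rw [h]
  -- the functional in standard coordinates
  set L : E4 → ℝ := fun x => l (c • U x) with hL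
  have Ladd : ∀ x y, L (x + y) = L x + L y := by
    intro x y; simp only [hL, map_add, smul_add]
  have Lneg : ∀ x, L (-x) = - L x := by
    intro x; simp only [hL, map_neg, smul_neg]
  have hmemA : c • U (toE a) ∈ {x ∈ (fun x => c • U x) '' std24Cell | ∀ y ∈ (fun x => c • U x) '' std24Cell, l y ≤ l x} := by
    rw [← hl]; exact left_mem_segment ℝ _ _
  have hmemB : c • U (toE b) ∈ {x ∈ (fun x => c • U x) '' std24Cell | ∀ y ∈ (fun x => c • U x) '' std24Cell, l y ≤ l x} := by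
    rw [← hl]; exact right_mem_segment ℝ _ _
  have hMab : L (toE a) = L (toE b) :=
    le_antisymm (hmemB.2 _ ⟨_, toE_mem ha, rfl⟩) (hmemA.2 _ ⟨_, toE_mem hb, rfl⟩)
  have hmax : ∀ σ : Fin 4 → ℤ, ∑ i, σ i ^ 2 = 2 → L (toE σ) ≤ L (toE a) :=
    fun σ hσ => hmemA.2 _ ⟨_, toE_mem hσ, rfl⟩
  have heq : ∀ σ : Fin 4 → ℤ, ∑ i, σ i ^ 2 = 2 → L (toE σ) = L (toE a) → σ = a ∨ σ = b := by
    intro σ hσ hLσ
    have h1 : c • U (toE σ) ∈ segment ℝ (c • U (toE a)) (c • U (toE b)) := by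
      rw [hl]
      refine ⟨⟨_, toE_mem hσ, rfl⟩, ?_⟩
      intro y hy
      have := hmemA.2 y hy
      have h2 : l (c • U (toE σ)) = l (c • U (toE a)) := hLσ
      rw [h2]; exact this
    have h3 : toE σ ∈ segment ℝ (toE a) (toE b) := by
      obtain ⟨p, q, hp, hq, hpq, he⟩ := h1
      refine ⟨p, q, hp, hq, hpq, ?_⟩
      apply U.injective
      apply smul_right_injective _ hc.ne'
      show c • U (p • toE a + q • toE b) = c • U (toE σ)
      rw [← he, map_add, map_smul, map_smul]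
      module
    exact eq_or_eq_of_mem_segment ha hb hσ h3
  have haa : ∑ i, a i * a i = 2 := by rw [← ha]; congr 1; funext i; ring
  have hbb : ∑ i, b i * b i = 2 := by rw [← hb]; congr 1; funext i; ring
  -- if the maximum is ≤ 0 then all roots are in {a, b}
  have hall : L (toE a) ≤ 0 → ∀ σ : Fin 4 → ℤ, ∑ i, σ i ^ 2 = 2 → σ = a ∨ σ = b := by
    intro h0 σ hσ
    have h1 := hmax σ hσ
    have h2 := hmax (-σ) (by simpa using hσ)
    have h3 := hmax (-a) (by simpa using ha)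
    rw [toE_neg, Lneg] at h2 h3
    apply heq σ hσ
    linarith
  have hpos : 0 < L (toE a) := by
    by_contra hcon
    push Not at hcon
    have h1 := hall hcon ![1, 1, 0, 0] (by simp [Fin.sum_univ_four])
    have h2 := hall hcon ![1, 0, 1, 0] (by simp [Fin.sum_univ_four])
    have h3 := hall hcon ![1, 0, 0, 1] (by simp [Fin.sum_univ_four])
    have n12 : (![1, 1, 0, 0] : Fin 4 → ℤ) ≠ ![1, 0, 1, 0] := by
      intro h; have := congrFun h 1; simp at this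
    have n13 : (![1, 1, 0, 0] : Fin 4 → ℤ) ≠ ![1, 0, 0, 1] := by
      intro h; have := congrFun h 1; simp at this
    have n23 : (![1, 0, 1, 0] : Fin 4 → ℤ) ≠ ![1, 0, 0, 1] := by
      intro h; have := congrFun h 2; simp at this
    rcases h1 with h1 | h1 <;> rcases h2 with h2 | h2 <;> rcases h3 with h3 | h3
    · exact n12 (h1.trans h2.symm)
    · exact n12 (h1.trans h2.symm)
    · exact n13 (h1.trans h3.symm)
    · exact n23 (h2.trans h3.symm)
    · exact n23 (h2.trans h3.symm)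
    · exact n13 (h1.trans h3.symm)
    · exact n12 (h1.trans h2.symm)
    · exact n12 (h1.trans h2.symm)
  set k := ∑ i, a i * b i with hk
  have hsub : ∑ i, (a i - b i) ^ 2 = 4 - 2 * k := by
    have : ∑ i, (a i - b i) ^ 2 = ∑ i, a i ^ 2 + ∑ i, b i ^ 2 - 2 * ∑ i, a i * b i := by
      simp only [Fin.sum_univ_four]; ring
    rw [this, ha, hb]; ring
  have hadd : ∑ i, (a i + b i) ^ 2 = 4 + 2 * k := by
    have : ∑ i, (a i + b i) ^ 2 = ∑ i, a i ^ 2 + ∑ i, b i ^ 2 + 2 * ∑ i, a i * b i := by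
      simp only [Fin.sum_univ_four]; ring
    rw [this, ha, hb]; ring
  have hk1 : k ≤ 2 := by
    have : 0 ≤ ∑ i, (a i - b i) ^ 2 := Finset.sum_nonneg (fun i _ => sq_nonneg _)
    linarith
  have hk2 : -2 ≤ k := by
    have : 0 ≤ ∑ i, (a i + b i) ^ 2 := Finset.sum_nonneg (fun i _ => sq_nonneg _)
    linarith
  have hkne2 : k ≠ 2 := by
    intro h
    rw [h] at hsub
    apply hne'
    have h3 : ∀ i ∈ Finset.univ, (a i - b i) ^ 2 = 0 :=
      (Finset.sum_eq_zero_iff_of_nonneg (fun i _ => sq_nonneg _)).1 (by rw [hsub]; norm_num)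
    funext i
    have := h3 i (Finset.mem_univ _)
    have : a i - b i = 0 := by simpa using this
    linarith
  have hkne0 : k ≠ 0 := by
    intro h
    obtain ⟨r, hr, hra, hrb⟩ := orth_roots ha hb (by rw [← hk]; exact h)
    have hr' : ∑ i, (a i + b i - r i) ^ 2 = 2 := by
      have : ∑ i, (a i + b i - r i) ^ 2 = ∑ i, (a i + b i) ^ 2 + ∑ i, r i ^ 2 -
          2 * (∑ i, r i * a i + ∑ i, r i * b i) := by
        simp only [Fin.sum_univ_four]; ring
      rw [this, hadd, hr, hra, hrb, h]; norm_num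
    have h1 := hmax r hr
    have h2 := hmax (fun i => a i + b i - r i) hr'
    have e : toE a + toE b = toE r + toE (fun i => a i + b i - r i) := by
      rw [← toE_add, ← toE_add]; congr 1; funext i; simp
    have h3 : L (toE a) + L (toE b) = L (toE r) + L (toE (fun i => a i + b i - r i)) := by
      rw [← Ladd, ← Ladd, e]
    rcases heq r hr (by linarith) with h4 | h4
    · rw [h4, haa] at hra; omega
    · rw [h4, hbb] at hrb; omega
  have hkne1 : k ≠ -1 := by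
    intro h
    have h1 : ∑ i, (a i + b i) ^ 2 = 2 := by rw [hadd, h]; norm_num
    have h2 := hmax (a + b) (by simpa using h1)
    rw [toE_add, Ladd, ← hMab] at h2
    linarith
  have hknem2 : k ≠ -2 := by
    intro h
    have h1 : ∀ i, a i + b i = 0 := by
      intro i
      have h3 : ∀ i ∈ Finset.univ, (a i + b i) ^ 2 = 0 :=
        (Finset.sum_eq_zero_iff_of_nonneg (fun i _ => sq_nonneg _)).1 (by rw [hadd, h]; norm_num)
      have := h3 i (Finset.mem_univ _)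
      simpa using this
    have h2 : b = -a := by
      funext i
      have := h1 i
      simp only [Pi.neg_apply]
      linarith
    rw [h2, toE_neg, Lneg] at hMab
    linarith
  omega

/-- Endpoints of an edge are extreme points. -/
theorem IsEdge.left {P : Set E4} {v w : E4} (h : IsEdge P v w) : v ∈ P.extremePoints ℝ := by
  have h1 : IsExtreme ℝ P (segment ℝ v w) := h.2.isExtreme
  have h2 : v ∈ (segment ℝ v w).extremePoints ℝ := by
    rw [mem_extremePoints_iff_forall_segment]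
    refine ⟨left_mem_segment ℝ _ _, ?_⟩
    rintro x1 ⟨p1, q1, hp1, hq1, hpq1, rfl⟩ x2 ⟨p2, q2, hp2, hq2, hpq2, rfl⟩ ⟨s, t, hs, ht, hst, he⟩
    have h3 : (s * q1 + t * q2) • (w - v) = 0 := by
      have e1 : p1 = 1 - q1 := by linarith
      have e2 : p2 = 1 - q2 := by linarith
      have e3 : s = 1 - t := by linarith
      have : (s * q1 + t * q2) • (w - v) = (s • (p1 • v + q1 • w) + t • (p2 • v + q2 • w)) - v := by
        rw [e1, e2, e3]; module
      rw [this, he, sub_self]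
    have h4 : s * q1 + t * q2 = 0 := by
      rcases smul_eq_zero.1 h3 with h | h'
      · exact h
      · exact absurd (sub_eq_zero.1 h').symm h.1
    have h5 : 0 ≤ s * q1 := mul_nonneg hs hq1
    have h6 : 0 ≤ t * q2 := mul_nonneg ht hq2
    have h7 : s * q1 = 0 := by linarith
    have h8 : t * q2 = 0 := by linarith
    rcases mul_eq_zero.1 h7 with h9 | h9
    · right
      have : t = 1 := by linarith
      rw [this, one_mul] at h8
      have : p2 = 1 := by linarith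
      rw [h8, this]; simp
    · left
      have : p1 = 1 := by linarith
      rw [h9, this]; simp
  have h3 : IsExtreme ℝ (segment ℝ v w) {v} := isExtreme_singleton.2 h2
  exact isExtreme_singleton.1 (h1.trans h3)

theorem IsEdge.symm {P : Set E4} {v w : E4} (h : IsEdge P v w) : IsEdge P w v :=
  ⟨h.1.symm, by rw [segment_symm]; exact h.2⟩

theorem vertices_image {c : ℝ} (hc : c ≠ 0) (U : E4 ≃ₗᵢ[ℝ] E4) :
    ((fun x => c • U x) '' std24Cell).extremePoints ℝ = (fun x => c • U x) '' stdVertices := by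
  rw [image_sc c hc, ← image_extremePoints, extremePoints_std]
  rfl

end Pool.Agent.H30.Apollo24
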