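import Mathlib

/-!
Eisenstein integers and primitive representations by the Hermitian form N(x) + 2 N(y).
-/

set_option autoImplicit false

namespace Pool.Agent.H30.Apollo24

open QuadraticAlgebra

/-- The Eisenstein integers `ℤ[ω]`, `ω² = -1 - ω`. -/
abbrev Eis := QuadraticAlgebra ℤ (-1) (-1)

theorem norm_eq (z : Eis) : z.norm = z.re ^ 2 - z.re * z.im + z.im ^ 2 := by
  rw [norm_def]; ring

theorem norm_nonneg' (z : Eis) : 0 ≤ z.norm := by
  rw [norm_eq]; nlinarith [sq_nonneg (z.re - z.im), sq_nonneg z.re, sq_nonneg z.im]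

theorem norm_eq_zero' {z : Eis} (h : z.norm = 0) : z = 0 := by
  rw [norm_eq] at h
  have h1 : z.re = 0 := by nlinarith [sq_nonneg (z.re - 2 * z.im), sq_nonneg z.re, sq_nonneg z.im]
  have h2 : z.im = 0 := by nlinarith [sq_nonneg (z.re - 2 * z.im), sq_nonneg z.re, sq_nonneg z.im]
  ext <;> simp [h1, h2]

theorem round_exists (x A : ℤ) (hA : 0 < A) : ∃ k : ℤ, 2 * |x - k * A| ≤ A := by
  refine ⟨(2 * x + A) / (2 * A), ?_⟩
  have h1 := Int.emod_add_mul_ediv (2 * x + A) (2 * A)
  have h2 := Int.emod_nonneg (2 * x + A) (b := 2 * A) (by omega)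
  have h3 := Int.emod_lt_of_pos (2 * x + A) (b := 2 * A) (by omega)
  set q := (2 * x + A) / (2 * A)
  set r := (2 * x + A) % (2 * A)
  have h4 : 2 * (x - q * A) = r - A := by linarith
  have h5 : |2 * (x - q * A)| ≤ A := by
    rw [h4, abs_le]; constructor <;> linarith
  rw [abs_mul] at h5
  simpa using h5

theorem norm_even {z : Eis} (h : 2 ∣ z.norm) : 2 ∣ z.re ∧ 2 ∣ z.im := by
  rw [norm_eq] at h
  rcases Int.even_or_odd' z.re with ⟨a, ha | ha⟩ <;> rcases Int.even_or_odd' z.im with ⟨b, hb | hb⟩
  · exact ⟨⟨a, ha⟩, ⟨b, hb⟩⟩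
  · exfalso
    rw [ha, hb] at h
    have : (2 * a) ^ 2 - (2 * a) * (2 * b + 1) + (2 * b + 1) ^ 2 = 2 * (2 * a ^ 2 - a * (2 * b + 1) + 2 * b ^ 2 + 2 * b) + 1 := by ring
    rw [this] at h
    omega
  · exfalso
    rw [ha, hb] at h
    have : (2 * a + 1) ^ 2 - (2 * a + 1) * (2 * b) + (2 * b) ^ 2 = 2 * (2 * a ^ 2 + 2 * a - (2 * a + 1) * b + 2 * b ^ 2) + 1 := by ring
    rw [this] at h
    omega
  · exfalso
    rw [ha, hb] at h
    have : (2 * a + 1) ^ 2 - (2 * a + 1) * (2 * b + 1) + (2 * b + 1) ^ 2 = 2 * (2 * a ^ 2 + 2 * a - (2 * a * b + a + b) + 2 * b ^ 2 + 2 * b) + 1 := by ring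
    rw [this] at h
    omega

theorem class_number_one (A : ℕ) : ∀ (B : Eis) (C : ℤ), 0 < A → (A : ℤ) * C = B.norm + 2 →
    ∃ α γ α' γ' : Eis, (A : ℤ) = α.norm + 2 * γ.norm ∧ C = α'.norm + 2 * γ'.norm ∧
      B = α * star α' + 2 * (γ * star γ') := by
  induction A using Nat.strong_induction_on with
  | _ A ih =>
    intro B C hA hB
    rcases Nat.lt_or_ge A 3 with h3 | h3
    · interval_cases A
      · refine ⟨1, 0, star B, 1, by simp, ?_, by simp⟩
        simp at hB ⊢
        exact hB
      · have h2 : 2 ∣ B.norm := by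
          have : B.norm = 2 * (C - 1) := by push_cast at hB; linarith
          exact ⟨_, this⟩
        obtain ⟨⟨x, hx⟩, ⟨y, hy⟩⟩ := norm_even h2
        have hBeq : B = 2 * (⟨x, y⟩ : Eis) := by
          ext
          · simp [hx]
          · simp [hy]
        have hn : B.norm = 4 * (⟨x, y⟩ : Eis).norm := by
          rw [hBeq, map_mul]
          have : norm (2 : Eis) = 4 := by
            rw [norm_eq]; rfl
          rw [this]
        refine ⟨0, 1, 1, star ⟨x, y⟩, by simp, ?_, ?_⟩
        · rw [QuadraticAlgebra.norm_star, QuadraticAlgebra.norm_one]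
          push_cast at hB
          linarith
        · rw [hBeq]; simp
    · obtain ⟨k, hk⟩ := round_exists B.re A (by exact_mod_cast hA)
      obtain ⟨l, hl⟩ := round_exists B.im A (by exact_mod_cast hA)
      set δ : Eis := ⟨k, l⟩ with hδ
      set B' : Eis := B - (A : Eis) * δ with hB'
      have hre : B'.re = B.re - k * A := by simp [hB', hδ]; ring
      have him : B'.im = B.im - l * A := by simp [hB', hδ]; ring
      set C' : ℤ := C - (2 * (B * star δ).re - (B * star δ).im) + A * δ.norm with hC'
      have hAC : (A : ℤ) * C' = B'.norm + 2 := by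
        rw [hC', norm_eq, norm_eq, hre, him]
        rw [norm_eq] at hB
        simp [hδ]
        linear_combination hB
      have hb : 4 * B'.norm ≤ 3 * (A : ℤ) ^ 2 := by
        rw [norm_eq, hre, him]
        have h1 : (2 * (B.re - k * A)) ^ 2 ≤ (A : ℤ) ^ 2 := by
          rw [← sq_abs (2 * (B.re - k * A))]
          apply pow_le_pow_left₀ (abs_nonneg _)
          rw [abs_mul]; simpa using hk
        have h2 : (2 * (B.im - l * A)) ^ 2 ≤ (A : ℤ) ^ 2 := by
          rw [← sq_abs (2 * (B.im - l * A))]
          apply pow_le_pow_left₀ (abs_nonneg _)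
          rw [abs_mul]; simpa using hl
        nlinarith [sq_nonneg ((B.re - k * A) + (B.im - l * A)), h1, h2]
      have hA3 : (3 : ℤ) ≤ A := by exact_mod_cast h3
      have hC'pos : 0 < C' := by
        have : 0 < (A : ℤ) * C' := by rw [hAC]; linarith [norm_nonneg' B']
        by_contra hc
        push Not at hc
        nlinarith
      have hC'lt : C' < A := by
        by_contra hc
        push Not at hc
        nlinarith
      obtain ⟨c, hc⟩ := Int.eq_ofNat_of_zero_le (le_of_lt hC'pos)
      have hcA : c < A := by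
        have : (c : ℤ) < A := by rw [← hc]; exact hC'lt
        exact_mod_cast this
      have hc0 : 0 < c := by
        have : (0 : ℤ) < c := by rw [← hc]; exact hC'pos
        exact_mod_cast this
      obtain ⟨α, γ, α', γ', h1, h2, h3'⟩ := ih c hcA (star B') A hc0 (by
        rw [QuadraticAlgebra.norm_star, ← hAC, hc]; ring)
      have e1 := congrArg QuadraticAlgebra.re h3'
      have e2 := congrArg QuadraticAlgebra.im h3'
      simp only [re_star, im_star, re_add, im_add, re_mul, im_mul, re_ofNat, im_ofNat, hre, him] at e1 e2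
      refine ⟨α', γ', α + star δ * α', γ + star δ * γ', h2, ?_, ?_⟩
      · have h4 : C = C' + (2 * (B * star δ).re - (B * star δ).im) - A * δ.norm := by rw [hC']; ring
        rw [h4, hc, h1]
        rw [norm_eq] at h2
        simp only [norm_eq, re_star, im_star, re_add, im_add, re_mul, im_mul, hδ] at e1 e2 h2 ⊢
        linear_combination (2 * k - l) * e1 - (l + k) * e2 + (k^2 - k * l + l^2) * h2
      · rw [norm_eq] at h2
        ext
        · simp only [norm_eq, re_star, im_star, re_add, im_add, re_mul, im_mul, re_ofNat, im_ofNat, hδ] at e1 e2 h2 ⊢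
          linear_combination e1 - e2 + k * h2
        · simp only [norm_eq, re_star, im_star, re_add, im_add, re_mul, im_mul, re_ofNat, im_ofNat, hδ] at e1 e2 h2 ⊢
          linear_combination -e2 + l * h2

end Pool.Agent.H30.Apollo24
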