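import Pool.Agent.H30.Apollo24.Main

set_option autoImplicit false

namespace Pool.Agent.H30.Apollo24

open scoped RealInnerProductSpace OnePoint
open Set

theorem perm_fin : ∀ x0 x1 x2 x3 : Fin 3,
    (x0 : ℕ) ^ 2 + (x1 : ℕ) ^ 2 + (x2 : ℕ) ^ 2 + (x3 : ℕ) ^ 2 = 6 →
    ∃ σ : Equiv.Perm (Fin 4), ∀ i, (![(x0 : ℤ), x1, x2, x3] : Fin 4 → ℤ) i = (![2, 1, 1, 0] : Fin 4 → ℤ) (σ i) := by
  decide

/-- Every integer vector of squared norm 6 is a signed permutation of `(2,1,1,0)`. -/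
theorem signed_perm {n : Fin 4 → ℤ} (hn : ∑ i, n i ^ 2 = 6) :
    ∃ (σ : Equiv.Perm (Fin 4)) (s : Fin 4 → ℤ), (∀ i, s i ^ 2 = 1) ∧
      ∀ i, n i = s i * (![2, 1, 1, 0] : Fin 4 → ℤ) (σ i) := by
  have hb : ∀ i, ∃ x : Fin 3, |n i| = (x : ℤ) := by
    intro i
    have hn' := hn
    rw [Fin.sum_univ_four] at hn'
    have h0 : n i ^ 2 ≤ 6 := by
      fin_cases i <;> simp <;> nlinarith [sq_nonneg (n 0), sq_nonneg (n 1), sq_nonneg (n 2), sq_nonneg (n 3)]
    have h1 : |n i| ^ 2 ≤ 6 := by rw [sq_abs]; exact h0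
    have h2 := abs_nonneg (n i)
    have h3 : |n i| ≤ 2 := by nlinarith
    have : |n i| = 0 ∨ |n i| = 1 ∨ |n i| = 2 := by omega
    rcases this with h | h | h
    · exact ⟨0, by rw [h]; rfl⟩
    · exact ⟨1, by rw [h]; rfl⟩
    · exact ⟨2, by rw [h]; rfl⟩
  obtain ⟨x0, h0⟩ := hb 0
  obtain ⟨x1, h1⟩ := hb 1
  obtain ⟨x2, h2⟩ := hb 2
  obtain ⟨x3, h3⟩ := hb 3
  have hsum : (x0 : ℕ) ^ 2 + (x1 : ℕ) ^ 2 + (x2 : ℕ) ^ 2 + (x3 : ℕ) ^ 2 = 6 := by
    rw [Fin.sum_univ_four, ← sq_abs (n 0), ← sq_abs (n 1), ← sq_abs (n 2), ← sq_abs (n 3),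
      h0, h1, h2, h3] at hn
    exact_mod_cast hn
  obtain ⟨σ, hσ⟩ := perm_fin x0 x1 x2 x3 hsum
  refine ⟨σ, fun i => if 0 ≤ n i then 1 else -1, ?_, ?_⟩
  · intro i; dsimp only; split_ifs <;> norm_num
  · intro i
    rw [← hσ i]
    have e : (![(x0 : ℤ), x1, x2, x3] : Fin 4 → ℤ) i = |n i| := by
      fin_cases i
      · exact h0.symm
      · exact h1.symm
      · exact h2.symm
      · exact h3.symm
    rw [e]
    dsimp only
    split_ifs with h
    · rw [abs_of_nonneg h]; ring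
    · rw [abs_of_neg (not_le.1 h)]; ring

/-- Every natural number is attained, for every frame. -/
theorem orb_all_frame {n : Fin 4 → ℤ} (hn : ∑ i, n i ^ 2 = 6) (k : ℕ) :
    ∃ (a : Fin 4 → ℤ) (b : ℤ), Orb a b ∧ 3 * b - ∑ i, a i * n i = k := by
  obtain ⟨σ, s, hs, hns⟩ := signed_perm hn
  obtain ⟨a, b, hab, hk⟩ := orb_all k
  refine ⟨_, b, hab.perm σ s hs, ?_⟩
  rw [← hk]
  congr 1
  have : ∀ i, s i * a (σ i) * n i = a (σ i) * (![2, 1, 1, 0] : Fin 4 → ℤ) (σ i) := by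
    intro i
    rw [hns i]
    linear_combination (a (σ i) * (![2, 1, 1, 0] : Fin 4 → ℤ) (σ i)) * hs i
  simp_rw [this]
  rw [Equiv.sum_comp σ (fun i => a i * (![2, 1, 1, 0] : Fin 4 → ℤ) i)]
  simp [Fin.sum_univ_four]
  ring

/-- There is a 24-cell in 1-CBP position. -/
theorem exists_oneCBP : ∃ R : Set E4, IsOneCBP R := by
  have hc := c0_pos
  have hc2 := c0_sq
  set c := √(2 / 3 : ℝ) with hcdef
  set n0 : Fin 4 → ℤ := ![1, 1, 0, 0] + ![1, 0, 1, 0] with hn0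
  have hn : ∑ i, n0 i ^ 2 = 6 := by simp [hn0, Fin.sum_univ_four]
  have hnorm : ‖toE n0‖ = ‖√6 • northPole‖ := by
    rw [norm_smul, norm_northPole, mul_one, Real.norm_eq_abs, abs_of_pos sqrt6_pos,
      ← Real.sqrt_sq (norm_nonneg (toE n0)), norm_sq_toE, hn]
    norm_num
  let U : E4 ≃ₗᵢ[ℝ] E4 := (ℝ ∙ (toE n0 - √6 • northPole))ᗮ.reflection
  have hU : U (toE n0) = √6 • northPole := Submodule.reflection_sub hnorm
  have hmidnorm : ∀ a b : Fin 4 → ℤ, ∑ i, a i ^ 2 = 2 → ∑ i, b i ^ 2 = 2 → ∑ i, a i * b i = 1 →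
      ∑ i, (a + b) i ^ 2 = 6 := by
    intro a b ha hb hab
    have : ∑ i, (a + b) i ^ 2 = ∑ i, a i ^ 2 + ∑ i, b i ^ 2 + 2 * ∑ i, a i * b i := by
      simp only [Fin.sum_univ_four, Pi.add_apply]; ring
    rw [this, ha, hb, hab]; norm_num
  refine ⟨(fun x => c • U x) '' std24Cell, ⟨c, U, 0, hc, by simp⟩, ?_, ?_⟩
  · intro v w hE
    have hv := hE.left
    have hw := hE.symm.left
    rw [vertices_image hc.ne'] at hv hw
    obtain ⟨_, hv', rfl⟩ := hv
    obtain ⟨_, hw', rfl⟩ := hw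
    obtain ⟨a, ha, rfl⟩ := mem_stdVertices.1 hv'
    obtain ⟨b, hb, rfl⟩ := mem_stdVertices.1 hw'
    have hab := adj_of_isEdge ha hb hc hE
    refine ⟨(c / 2) • U (toE (a + b)), ⟨1 / 2, 1 / 2, by norm_num, by norm_num, by norm_num, ?_⟩, ?_, ?_⟩
    · rw [toE_add, map_add]; simp only; module
    · have : ‖(c / 2) • U (toE (a + b))‖ ^ 2 = 1 := by
        rw [norm_smul, mul_pow, U.norm_map, norm_sq_toE, hmidnorm a b ha hb hab, Real.norm_eq_abs,
          sq_abs, div_pow, hc2]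
        norm_num
      exact (pow_eq_one_iff_of_nonneg (norm_nonneg _) two_ne_zero).1 this
    · simp only
      rw [← smul_sub, real_inner_smul_left, real_inner_smul_right, ← map_sub, U.inner_map_map,
        toE_add, inner_add_left, inner_sub_right, inner_sub_right, inner_toE, inner_toE, inner_toE,
        inner_toE]
      have e1 : ∑ i, a i * a i = 2 := by rw [← ha]; congr 1; funext i; ring
      have e2 : ∑ i, b i * b i = 2 := by rw [← hb]; congr 1; funext i; ring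
      have e3 : ∑ i, b i * a i = 1 := by rw [← hab]; congr 1; funext i; ring
      rw [e1, e2, e3, hab]; norm_num
  · have hE := isEdge_of_adj (a := ![1, 1, 0, 0]) (b := ![1, 0, 1, 0]) (by simp [Fin.sum_univ_four])
      (by simp [Fin.sum_univ_four]) (by simp [Fin.sum_univ_four]) c hc U 0
    simp only [add_zero] at hE
    refine ⟨_, _, hE, 1, one_pos, ?_⟩
    have : midpoint ℝ (c • U (toE ![1, 1, 0, 0])) (c • U (toE ![1, 0, 1, 0])) =
        (c / 2) • U (toE n0) := by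
      rw [midpoint_eq_smul_add, hn0, toE_add, map_add, invOf_eq_inv]
      module
    rw [this, hU, smul_smul, one_smul]
    have h1 : c / 2 * √6 = 1 := by
      have h2 : √(2 / 3 : ℝ) * √6 = 2 := by
        rw [← Real.sqrt_mul (by norm_num)]
        have : (2 / 3 : ℝ) * 6 = 2 ^ 2 := by norm_num
        rw [this, Real.sqrt_sq (by norm_num)]
      rw [hcdef]; linarith
    rw [h1, one_smul]

theorem LB_curvature {U : E4 ≃ₗᵢ[ℝ] E4} {n : Fin 4 → ℤ} (hU : U (toE n) = √6 • northPole)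
    {a : Fin 4 → ℤ} {b : ℤ} (h : Orb a b) (κ : ℝ) :
    HasCurvature (LB U n (toE a) b) κ ↔ κ = ((3 * b - ∑ i, a i * n i : ℤ) : ℝ) := by
  obtain ⟨_, h2, _⟩ := h.inv
  have hx : 2 * ‖toE a‖ ^ 2 - 3 * (b : ℝ) ^ 2 = 1 := by
    rw [norm_sq_toE]; exact_mod_cast h2
  rw [LB, hasCurvature_G (LB_normalised hU hx), inner_toE]
  push_cast
  rfl

theorem main_theorem (R : Set E4) (hR : IsOneCBP R) :
    (∀ S ∈ apollonianPacking R, ∃! κ : ℝ, HasCurvature S κ) ∧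
      {κ : ℝ | ∃ S ∈ apollonianPacking R, HasCurvature S κ} = Set.range (fun n : ℕ => (n : ℝ)) := by
  obtain ⟨U, n, hn, hU, rfl⟩ := frame hR
  refine ⟨?_, ?_⟩
  · intro S hS
    obtain ⟨a, b, hab, rfl⟩ := packing_sub hU hS
    exact ⟨_, (LB_curvature hU hab _).2 rfl, fun κ hκ => (LB_curvature hU hab κ).1 hκ⟩
  · ext κ
    constructor
    · rintro ⟨S, hS, hκ⟩
      obtain ⟨a, b, hab, rfl⟩ := packing_sub hU hS
      rw [LB_curvature hU hab] at hκ
      have h0 := hab.kappa_nonneg n hn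
      obtain ⟨k, hk⟩ := Int.eq_ofNat_of_zero_le h0
      refine ⟨k, ?_⟩
      rw [hκ, hk]
      simp
    · rintro ⟨k, rfl⟩
      obtain ⟨a, b, hab, hk⟩ := orb_all_frame hn k
      refine ⟨_, packing_sup hU hab, ?_⟩
      rw [LB_curvature hU hab, hk]
      simp

end Pool.Agent.H30.Apollo24
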