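import Mathlib

set_option autoImplicit false

namespace Pool.Agent.H30.Apollo24

open Polynomial in
theorem base_sol (p : ℕ) (hp : p.Prime) (h2 : p ≠ 2) (h3 : p ≠ 3) :
    ∃ x y : ZMod p, x ^ 2 + 3 * y ^ 2 + 8 = 0 := by
  haveI : Fact p.Prime := ⟨hp⟩
  have h3' : (3 : ZMod p) ≠ 0 := by
    intro h
    have : ((3 : ℕ) : ZMod p) = 0 := by exact_mod_cast h
    rw [ZMod.natCast_eq_zero_iff] at this
    rcases (Nat.dvd_prime Nat.prime_three).1 this with h | h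
    · exact hp.one_lt.ne' h
    · exact h3 h
  have hodd : Fintype.card (ZMod p) % 2 = 1 := by
    rw [ZMod.card]
    exact Nat.odd_iff.1 (hp.odd_of_ne_two h2)
  have hf : (X ^ 2 + C (8 : ZMod p)).degree = 2 := degree_X_pow_add_C (by norm_num) _
  have hg : (C (3 : ZMod p) * X ^ 2).degree = 2 := by
    rw [degree_C_mul_X_pow _ h3']; rfl
  obtain ⟨a, b, hab⟩ := FiniteField.exists_root_sum_quadratic hf hg hodd
  refine ⟨a, b, ?_⟩
  simp at hab
  linear_combination hab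

theorem lift_sol (p : ℕ) (hp : p.Prime) (h2 : p ≠ 2) (c x : ℤ) (hx : ¬ (p : ℤ) ∣ x)
    (h : (p : ℤ) ∣ x ^ 2 + c) (k : ℕ) : ∃ x' : ℤ, ¬ (p : ℤ) ∣ x' ∧ (p : ℤ) ^ (k + 1) ∣ x' ^ 2 + c := by
  induction k with
  | zero => exact ⟨x, hx, by simpa using h⟩
  | succ k ih =>
    obtain ⟨x', hx', d, hd⟩ := ih
    have hpr : Prime (p : ℤ) := Nat.prime_iff_prime_int.1 hp
    have hcop : IsCoprime (2 * x') (p : ℤ) := by
      rw [Int.isCoprime_iff_gcd_eq_one, Int.gcd_comm, ← Int.isCoprime_iff_gcd_eq_one]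
      rw [Prime.coprime_iff_not_dvd hpr]
      intro hdvd
      rcases hpr.dvd_or_dvd hdvd with h | h
      · have : p ∣ 2 := by exact_mod_cast h
        rcases (Nat.dvd_prime Nat.prime_two).1 this with h | h
        · exact hp.one_lt.ne' h
        · exact h2 h
      · exact hx' h
    obtain ⟨u, v, huv⟩ := hcop
    refine ⟨x' + (-d * u) * (p : ℤ) ^ (k + 1), ?_, ?_⟩
    · intro hdvd
      apply hx'
      have : (p : ℤ) ∣ (-d * u) * (p : ℤ) ^ (k + 1) := Dvd.dvd.mul_left (dvd_pow_self _ (Nat.succ_ne_zero _)) _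
      exact (dvd_add_left this).1 hdvd
    · refine ⟨d * v + (d * u) ^ 2 * (p : ℤ) ^ k, ?_⟩
      have : (x' + (-d * u) * (p : ℤ) ^ (k + 1)) ^ 2 + c
        = (x' ^ 2 + c) + (p : ℤ) ^ (k + 1) * (-(d * (u * (2 * x')))) + (d * u) ^ 2 * (p : ℤ) ^ (2 * k + 2) := by ring
      rw [this, hd]
      have h1 : u * (2 * x') = 1 - v * p := by linarith
      rw [h1]
      ring

theorem sol_prime_pow (p : ℕ) (hp : p.Prime) (h2 : p ≠ 2) (k : ℕ) :
    ∃ x y : ℤ, ((p : ℤ) ^ (k + 1)) ∣ x ^ 2 + 3 * y ^ 2 + 8 := by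
  by_cases h3 : p = 3
  · subst h3
    obtain ⟨x', _, h⟩ := lift_sol 3 hp h2 8 1 (by norm_num) (by norm_num) k
    exact ⟨x', 0, by simpa using h⟩
  · haveI : Fact p.Prime := ⟨hp⟩
    obtain ⟨x, y, hxy⟩ := base_sol p hp h2 h3
    obtain ⟨X, rfl⟩ := ZMod.intCast_surjective x
    obtain ⟨Y, rfl⟩ := ZMod.intCast_surjective y
    have hd : (p : ℤ) ∣ X ^ 2 + 3 * Y ^ 2 + 8 := by
      rw [← ZMod.intCast_zmod_eq_zero_iff_dvd (X ^ 2 + 3 * Y ^ 2 + 8) p]
      push_cast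
      exact hxy
    by_cases hX : (p : ℤ) ∣ X
    · -- then p does not divide Y, and p ≠ 3: use Z = 3 Y
      have hpr : Prime (p : ℤ) := Nat.prime_iff_prime_int.1 hp
      have h3n : ¬ (p : ℤ) ∣ 3 := by
        intro h
        have : p ∣ 3 := by exact_mod_cast h
        rcases (Nat.dvd_prime Nat.prime_three).1 this with h | h
        · exact hp.one_lt.ne' h
        · exact h3 h
      have h2n : ¬ (p : ℤ) ∣ 2 := by
        intro h
        have : p ∣ 2 := by exact_mod_cast h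
        rcases (Nat.dvd_prime Nat.prime_two).1 this with h | h
        · exact hp.one_lt.ne' h
        · exact h2 h
      have hY : ¬ (p : ℤ) ∣ 3 * Y := by
        intro h
        have hY : (p : ℤ) ∣ Y := (hpr.dvd_or_dvd h).resolve_left h3n
        have h8 : (p : ℤ) ∣ 8 := by
          have h1 : (p : ℤ) ∣ X ^ 2 + 3 * Y ^ 2 := by
            apply dvd_add
            · exact dvd_pow hX (by norm_num)
            · exact Dvd.dvd.mul_left (dvd_pow hY (by norm_num)) _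
          exact (dvd_add_right h1).1 hd
        have : (p : ℤ) ∣ 2 ^ 3 := by norm_num; exact h8
        exact h2n (hpr.dvd_of_dvd_pow this)
      obtain ⟨Z, _, hZ⟩ := lift_sol p hp h2 (3 * X ^ 2 + 24) (3 * Y) hY (by
        have : (3 * Y) ^ 2 + (3 * X ^ 2 + 24) = 3 * (X ^ 2 + 3 * Y ^ 2 + 8) := by ring
        rw [this]
        exact Dvd.dvd.mul_left hd _) k
      have hcop : IsCoprime (3 : ℤ) ((p : ℤ) ^ (k + 1)) := by
        apply IsCoprime.pow_right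
        rw [isCoprime_comm, Prime.coprime_iff_not_dvd hpr]
        exact h3n
      obtain ⟨u, v, huv⟩ := hcop
      refine ⟨X, u * Z, ?_⟩
      have h3c : IsCoprime ((p : ℤ) ^ (k + 1)) 3 := ⟨v, u, by linarith⟩
      apply h3c.dvd_of_dvd_mul_left
      have : 3 * (X ^ 2 + 3 * (u * Z) ^ 2 + 8) = (Z ^ 2 + (3 * X ^ 2 + 24)) +
          (p : ℤ) ^ (k + 1) * (-v * (1 + u * 3) * Z ^ 2) := by
        have h1 : v * (p : ℤ) ^ (k + 1) = 1 - u * 3 := by linarith
        linear_combination (1 + u * 3) * Z ^ 2 * h1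
      rw [this]
      exact dvd_add hZ (dvd_mul_right _ _)
    · obtain ⟨x', _, h⟩ := lift_sol p hp h2 (3 * Y ^ 2 + 8) X hX (by
        have : X ^ 2 + (3 * Y ^ 2 + 8) = X ^ 2 + 3 * Y ^ 2 + 8 := by ring
        rw [this]; exact hd) k
      refine ⟨x', Y, ?_⟩
      have : x' ^ 2 + 3 * Y ^ 2 + 8 = x' ^ 2 + (3 * Y ^ 2 + 8) := by ring
      rw [this]; exact h

theorem sol_mod (m : ℕ) : Odd m → ∃ x y : ZMod m, x ^ 2 + 3 * y ^ 2 + 8 = 0 := by
  induction m using Nat.recOnPosPrimePosCoprime with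
  | prime_pow p n hp hn =>
    intro hodd
    have h2 : p ≠ 2 := by
      rintro rfl
      have : Even (2 ^ n) := (Nat.even_pow.2 ⟨even_two, hn.ne'⟩)
      exact (Nat.not_even_iff_odd.2 hodd) this
    obtain ⟨k, rfl⟩ := Nat.exists_eq_succ_of_ne_zero hn.ne'
    obtain ⟨x, y, h⟩ := sol_prime_pow p hp h2 k
    refine ⟨x, y, ?_⟩
    have := (ZMod.intCast_zmod_eq_zero_iff_dvd (x ^ 2 + 3 * y ^ 2 + 8) (p ^ (k + 1))).2 (by
      push_cast; exact h)
    push_cast at this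
    exact this
  | zero => intro h; exact absurd h (by decide)
  | one => intro _; exact ⟨0, 0, Subsingleton.elim _ _⟩
  | coprime a b _ _ hab iha ihb =>
    intro hodd
    obtain ⟨ha, hb⟩ := Nat.odd_mul.1 hodd
    obtain ⟨x1, y1, h1⟩ := iha ha
    obtain ⟨x2, y2, h2⟩ := ihb hb
    let e := ZMod.chineseRemainder hab
    refine ⟨e.symm (x1, x2), e.symm (y1, y2), ?_⟩
    apply e.injective
    rw [map_add, map_add, map_mul, map_pow, map_pow, RingEquiv.apply_symm_apply,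
      RingEquiv.apply_symm_apply, map_zero]
    have e3 : e 3 = (3, 3) := by
      rw [map_ofNat]; rfl
    have e8 : e 8 = (8, 8) := by
      rw [map_ofNat]; rfl
    rw [e3, e8]
    ext
    · simpa using h1
    · simpa using h2

/-- For odd `m` there is an Eisenstein integer of norm `≡ -2 (mod m)`. -/
theorem exists_norm_add_two (m : ℕ) (hodd : Odd m) :
    ∃ u v C : ℤ, (m : ℤ) * C = u ^ 2 - u * v + v ^ 2 + 2 := by
  obtain ⟨x, y, hxy⟩ := sol_mod m hodd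
  obtain ⟨X, rfl⟩ := ZMod.intCast_surjective x
  obtain ⟨Y, rfl⟩ := ZMod.intCast_surjective y
  have hd : (m : ℤ) ∣ X ^ 2 + 3 * Y ^ 2 + 8 := by
    rw [← ZMod.intCast_zmod_eq_zero_iff_dvd (X ^ 2 + 3 * Y ^ 2 + 8) m]
    push_cast
    exact hxy
  obtain ⟨h, hh⟩ := hodd
  -- 2 * (h+1) = m + 1
  obtain ⟨c, hc⟩ := hd
  have hm : (m : ℤ) = 2 * h + 1 := by rw [hh]; push_cast; ring
  have hcop : IsCoprime (m : ℤ) 4 := ⟨1 - 2 * h * 1 + 0 + 0 + (- (h:ℤ) ^ 2 * 0) + (4 * h ^ 2 * 0), (h:ℤ) ^ 2, by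
    rw [hm]; ring⟩
  have h4 : (m : ℤ) ∣ 4 * (((h + 1) * (X + Y)) ^ 2 - ((h + 1) * (X + Y)) * Y + Y ^ 2 + 2) := by
    have : 4 * (((h + 1) * (X + Y)) ^ 2 - ((h + 1) * (X + Y)) * Y + Y ^ 2 + 2)
      = (X ^ 2 + 3 * Y ^ 2 + 8) + (m : ℤ) * ((X + Y) * ((m + 2) * (X + Y) - 2 * Y)) := by
      rw [hm]; ring
    rw [this, hc]
    exact dvd_add (dvd_mul_right _ _) (dvd_mul_right _ _)
  obtain ⟨C, hC⟩ := hcop.dvd_of_dvd_mul_left h4
  exact ⟨_, _, C, hC.symm⟩

end Pool.Agent.H30.Apollo24
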