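import Pool.Agent.H30.Apollo24.Eis
import Pool.Agent.H30.Apollo24.Mod

set_option autoImplicit false

namespace Pool.Agent.H30.Apollo24

open QuadraticAlgebra

/-- reduction modulo `3 + ω` -/
def f1 (z : Eis) : ZMod 7 := (z.re : ZMod 7) + 4 * (z.im : ZMod 7)

/-- reduction modulo `2 - ω` -/
def f2 (z : Eis) : ZMod 7 := (z.re : ZMod 7) + 2 * (z.im : ZMod 7)

theorem f1_mul (z w : Eis) : f1 (z * w) = f1 z * f1 w := by
  simp only [f1, re_mul, im_mul]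
  push_cast
  have h7 : (7 : ZMod 7) = 0 := by decide
  linear_combination (-3 * (z.im : ZMod 7) * w.im) * h7

theorem f2_mul (z w : Eis) : f2 (z * w) = f2 z * f2 w := by
  simp only [f2, re_mul, im_mul]
  push_cast
  have h7 : (7 : ZMod 7) = 0 := by decide
  linear_combination (-1 * (z.im : ZMod 7) * w.im) * h7

theorem f1_add (z w : Eis) : f1 (z + w) = f1 z + f1 w := by
  simp only [f1, re_add, im_add]
  push_cast; ring

theorem f2_add (z w : Eis) : f2 (z + w) = f2 z + f2 w := by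
  simp only [f2, re_add, im_add]
  push_cast; ring

theorem f1_sub (z w : Eis) : f1 (z - w) = f1 z - f1 w := by
  simp only [f1, re_sub, im_sub]
  push_cast; ring

theorem f1_star (z : Eis) : f1 (star z) = f2 z := by
  simp only [f1, f2, re_star, im_star]
  push_cast
  have h7 : (7 : ZMod 7) = 0 := by decide
  linear_combination (-1 * (z.im : ZMod 7)) * h7

theorem f2_star (z : Eis) : f2 (star z) = f1 z := by
  simp only [f1, f2, re_star, im_star]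
  push_cast
  have h7 : (7 : ZMod 7) = 0 := by decide
  linear_combination (-1 * (z.im : ZMod 7)) * h7

theorem norm_mod7 (z : Eis) : ((z.norm : ℤ) : ZMod 7) = f1 z * f2 z := by
  rw [norm_eq]
  simp only [f1, f2]
  push_cast
  have h7 : (7 : ZMod 7) = 0 := by decide
  linear_combination (- (z.re : ZMod 7) * z.im - (z.im : ZMod 7) ^ 2) * h7

def pi1 : Eis := ⟨3, 1⟩
def pi2 : Eis := ⟨2, -1⟩
def th : Eis := ⟨1, 2⟩

theorem pi1_mul_pi2 : pi1 * pi2 = 7 := by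
  rw [pi1, pi2]; ext <;> simp

theorem norm_pi1 : pi1.norm = 7 := by rw [norm_eq, pi1]; norm_num
theorem norm_pi2 : pi2.norm = 7 := by rw [norm_eq, pi2]; norm_num

theorem pi1_dvd {z : Eis} (h : f1 z = 0) : ∃ w : Eis, z = pi1 * w := by
  have h' : ((z.re + 4 * z.im : ℤ) : ZMod 7) = 0 := by
    push_cast; exact h
  rw [ZMod.intCast_zmod_eq_zero_iff_dvd] at h'
  obtain ⟨c, hc⟩ := h'
  push_cast at hc
  refine ⟨⟨2 * c - z.im, z.im - c⟩, ?_⟩
  ext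
  · simp [pi1]; linarith
  · simp [pi1]; linarith

/-- Remove all factors `3 + ω`, replacing them by `2 - ω`. -/
theorem remove_pi1 (n : ℕ) : ∀ z : Eis, z ≠ 0 → z.norm = n →
    ∃ (z1 c : Eis) (k : ℕ), z1.norm = z.norm ∧ f1 z1 ≠ 0 ∧ 7 ^ k * z = c * z1 := by
  induction n using Nat.strong_induction_on with
  | _ n ih =>
    intro z hz hn
    by_cases h : f1 z = 0
    · obtain ⟨w, rfl⟩ := pi1_dvd h
      have hw : w ≠ 0 := by
        rintro rfl; simp at hz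
      have hwn : 0 < w.norm := by
        rcases (norm_nonneg' w).lt_or_eq with h | h
        · exact h
        · exact absurd (norm_eq_zero' h.symm) hw
      have h7 : w.norm * 7 = n := by
        rw [← hn, map_mul, norm_pi1]; ring
      obtain ⟨N, hN⟩ := Int.eq_ofNat_of_zero_le (norm_nonneg' w)
      have hlt : N < n := by
        have : (N : ℤ) < n := by rw [← hN, ← h7]; linarith
        exact_mod_cast this
      obtain ⟨z1, c, k, h1, h2, h3⟩ := ih N hlt w hw hN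
      refine ⟨pi2 * z1, pi1 ^ 2 * c, k + 1, ?_, ?_, ?_⟩
      · rw [map_mul, map_mul, norm_pi1, norm_pi2, h1]
      · have : Fact (Nat.Prime 7) := ⟨by norm_num⟩
        rw [f1_mul]
        apply mul_ne_zero _ h2
        decide
      · have : (7 : Eis) ^ (k + 1) * (pi1 * w) = 7 * pi1 * (7 ^ k * w) := by ring
        rw [this, h3, ← pi1_mul_pi2]; ring
    · exact ⟨z, 1, 0, rfl, h, by simp⟩

/-- The six units. -/
def un : Fin 6 → Eis := ![⟨1, 0⟩, ⟨0, 1⟩, ⟨-1, -1⟩, ⟨-1, 0⟩, ⟨0, -1⟩, ⟨1, 1⟩]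

/-- Their inverses. -/
def un' : Fin 6 → Eis := ![⟨1, 0⟩, ⟨-1, -1⟩, ⟨0, 1⟩, ⟨-1, 0⟩, ⟨1, 1⟩, ⟨0, -1⟩]

theorem un_mul_un' (i : Fin 6) : un i * un' i = 1 := by
  fin_cases i <;> (ext <;> simp [un, un'])

theorem norm_un (i : Fin 6) : (un i).norm = 1 := by
  fin_cases i <;> (rw [norm_eq]; simp [un])

theorem norm_un' (i : Fin 6) : (un' i).norm = 1 := by
  fin_cases i <;> (rw [norm_eq]; simp [un'])

theorem exists_unit_f1 (a g : ZMod 7) (ha : a ≠ 0) (hg : g ≠ 0) :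
    ∃ i : Fin 6, f1 (un i) * g = 2 * a := by
  have h : ∀ a g : ZMod 7, a ≠ 0 → g ≠ 0 → ∃ i : Fin 6, f1 (un i) * g = 2 * a := by decide
  exact h a g ha hg

theorem norm_zero_iff_dvd2 {z : Eis} : 2 ∣ z.norm ↔ 2 ∣ z.re ∧ 2 ∣ z.im := by
  constructor
  · exact norm_even
  · rintro ⟨⟨a, ha⟩, ⟨b, hb⟩⟩
    rw [norm_eq, ha, hb]
    exact ⟨2 * a ^ 2 - 2 * a * b + 2 * b ^ 2, by ring⟩

/-- If `7 ∤ m`, a representation with the second entry even can be changed to one with the second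
entry odd. -/
theorem flip7 (m : ℤ) (h7 : ¬ (7 : ℤ) ∣ m) (hm : ¬ (2 : ℤ) ∣ m) (α γ s t : Eis) (k : ℕ)
    (hr : α.norm + 2 * γ.norm = m) (hev : (2 : ℤ) ∣ γ.norm) (hγ : γ ≠ 0)
    (hb : s * α + t * γ = 7 ^ k) :
    ∃ (α' γ' s' t' : Eis) (k' : ℕ), α'.norm + 2 * γ'.norm = m ∧ ¬ (2 : ℤ) ∣ γ'.norm ∧
      s' * α' + t' * γ' = 7 ^ k' := by
  have hα : α ≠ 0 := by
    rintro rfl
    apply hm
    rw [← hr]; simp
  obtain ⟨nα, hnα⟩ := Int.eq_ofNat_of_zero_le (norm_nonneg' α)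
  obtain ⟨nγ, hnγ⟩ := Int.eq_ofNat_of_zero_le (norm_nonneg' γ)
  obtain ⟨α1, c1, k1, hα1, hα1', hα1''⟩ := remove_pi1 nα α hα hnα
  obtain ⟨γ1, c2, k2, hγ1, hγ1', hγ1''⟩ := remove_pi1 nγ γ hγ hnγ
  obtain ⟨i, hi⟩ := exists_unit_f1 (f1 α1) (f1 γ1) hα1' hγ1'
  set g : Eis := un i * γ1 with hg
  have hgn : g.norm = γ.norm := by rw [hg, map_mul, norm_un, hγ1, one_mul]
  have hgf : f1 g = 2 * f1 α1 := by rw [hg, f1_mul, hi]
  have hth : f1 th = 2 := by decide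
  have h1 : f1 (α1 - 2 * th * g) = 0 := by
    rw [f1_sub, f1_mul, f1_mul, hgf, hth]
    have : f1 (2 : Eis) = 2 := by decide
    rw [this]
    have h7 : (7 : ZMod 7) = 0 := by decide
    linear_combination (- f1 α1) * h7
  have h2 : f1 (g - th * α1) = 0 := by
    rw [f1_sub, hgf, f1_mul, hth]; ring
  obtain ⟨α', hα'⟩ := pi1_dvd h1
  obtain ⟨γ', hγ'⟩ := pi1_dvd h2
  have hnorm : 7 * (α'.norm + 2 * γ'.norm) = 7 * (α1.norm + 2 * g.norm) := by
    have e1 : (α1 - 2 * th * g).norm = 7 * α'.norm := by rw [hα', map_mul, norm_pi1]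
    have e2 : (g - th * α1).norm = 7 * γ'.norm := by rw [hγ', map_mul, norm_pi1]
    have : (α1 - 2 * th * g).norm + 2 * (g - th * α1).norm = 7 * (α1.norm + 2 * g.norm) := by
      simp only [norm_eq, re_sub, im_sub, re_mul, im_mul, th, re_ofNat, im_ofNat]
      ring
    linarith
  refine ⟨α', γ', ?_⟩
  have hm' : α'.norm + 2 * γ'.norm = m := by
    have : α'.norm + 2 * γ'.norm = α1.norm + 2 * g.norm := by linarith
    rw [this, hα1, hgn, hr]
  have hpar : ¬ (2 : ℤ) ∣ γ'.norm := by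
    rw [norm_zero_iff_dvd2]
    rintro ⟨⟨a, ha⟩, ⟨b, hb⟩⟩
    rw [← hgn, norm_zero_iff_dvd2] at hev
    obtain ⟨⟨x, hx⟩, ⟨y, hy⟩⟩ := hev
    have e1 := congrArg QuadraticAlgebra.re hγ'
    have e2 := congrArg QuadraticAlgebra.im hγ'
    simp [th, pi1, ha, hb, hx, hy] at e1 e2
    have : (2 : ℤ) ∣ α1.norm := by
      rw [norm_zero_iff_dvd2]
      constructor <;> omega
    apply hm
    rw [← hr, ← hα1]
    exact dvd_add this (dvd_mul_right _ _)
  -- Bezout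
  have hthsq : th * th = -3 := by rw [th]; ext <;> simp
  have hA : 7 * α1 = pi1 * (α' + 2 * th * γ') := by
    have : pi1 * (α' + 2 * th * γ') = (pi1 * α') + 2 * th * (pi1 * γ') := by ring
    rw [this, ← hα', ← hγ']
    linear_combination (2 * α1) * hthsq
  have hG : 7 * g = pi1 * (th * α' + γ') := by
    have : pi1 * (th * α' + γ') = th * (pi1 * α') + (pi1 * γ') := by ring
    rw [this, ← hα', ← hγ']
    linear_combination (2 * g) * hthsq
  have hγg : γ1 = un' i * g := by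
    rw [hg, ← mul_assoc, mul_comm (un' i), un_mul_un', one_mul]
  -- 7^(k + k1 + k2 + 1) = ...
  refine ⟨s * 7 ^ k2 * c1 * pi1 + t * 7 ^ k1 * c2 * un' i * pi1 * th,
    s * 7 ^ k2 * c1 * pi1 * 2 * th + t * 7 ^ k1 * c2 * un' i * pi1, k + k1 + k2 + 1, hm', hpar, ?_⟩
  calc (s * 7 ^ k2 * c1 * pi1 + t * 7 ^ k1 * c2 * un' i * pi1 * th) * α' +
      (s * 7 ^ k2 * c1 * pi1 * 2 * th + t * 7 ^ k1 * c2 * un' i * pi1) * γ'
      = s * 7 ^ k2 * c1 * (pi1 * (α' + 2 * th * γ')) + t * 7 ^ k1 * c2 * un' i * (pi1 * (th * α' + γ')) := by ring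
    _ = s * 7 ^ k2 * c1 * (7 * α1) + t * 7 ^ k1 * c2 * un' i * (7 * g) := by rw [hA, hG]
    _ = 7 * 7 ^ k2 * s * (c1 * α1) + 7 * 7 ^ k1 * t * (c2 * (un' i * g)) := by ring
    _ = 7 * 7 ^ k2 * s * (7 ^ k1 * α) + 7 * 7 ^ k1 * t * (7 ^ k2 * γ) := by rw [← hα1'', ← hγg, ← hγ1'']
    _ = 7 ^ (k1 + k2 + 1) * (s * α + t * γ) := by ring
    _ = 7 ^ (k + k1 + k2 + 1) := by rw [hb]; ring

theorem choose_f1 (a g : ZMod 7) (h : a ≠ 0 ∨ g ≠ 0) :
    ∃ j : Fin 6, ∀ i : Fin 6, i ≠ j → g + f1 (un i) * f1 th * a ≠ 0 := by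
  have key : ∀ a g : ZMod 7, a ≠ 0 ∨ g ≠ 0 →
    ∃ j : Fin 6, ∀ i : Fin 6, i ≠ j → g + f1 (un i) * f1 th * a ≠ 0 := by decide
  exact key a g h

theorem choose_f2 (a g : ZMod 7) (h : a ≠ 0 ∨ g ≠ 0) :
    ∃ j : Fin 6, ∀ i : Fin 6, i ≠ j → g + f2 (un i) * f2 th * a ≠ 0 := by
  have key : ∀ a g : ZMod 7, a ≠ 0 ∨ g ≠ 0 →
    ∃ j : Fin 6, ∀ i : Fin 6, i ≠ j → g + f2 (un i) * f2 th * a ≠ 0 := by decide
  exact key a g h

theorem choose_par (a1 a2 g1 g2 : ZMod 2) (h : ¬ (a1 = 0 ∧ a2 = 0)) :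
    ∃ j : Fin 6, ∀ i : Fin 6, i ≠ j → i ≠ j + 3 →
      ¬ (g1 + (((un i).re : ZMod 2) * a1 - ((un i).im : ZMod 2) * a2) = 0 ∧
        g2 + (((un i).re : ZMod 2) * a2 + ((un i).im : ZMod 2) * a1 - ((un i).im : ZMod 2) * a2) = 0) := by
  have key : ∀ a1 a2 g1 g2 : ZMod 2, ¬ (a1 = 0 ∧ a2 = 0) →
    ∃ j : Fin 6, ∀ i : Fin 6, i ≠ j → i ≠ j + 3 →
      ¬ (g1 + (((un i).re : ZMod 2) * a1 - ((un i).im : ZMod 2) * a2) = 0 ∧
        g2 + (((un i).re : ZMod 2) * a2 + ((un i).im : ZMod 2) * a1 - ((un i).im : ZMod 2) * a2) = 0) := by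
    decide
  exact key a1 a2 g1 g2 h

theorem choose_i (j1 j2 j3 : Fin 6) : ∃ i : Fin 6, i ≠ j1 ∧ i ≠ j2 ∧ i ≠ j3 ∧ i ≠ j3 + 3 := by
  revert j1 j2 j3; decide

/-- Multiplication by an element of norm `7`. -/
theorem mul7 (m : ℤ) (hm : ¬ (2 : ℤ) ∣ m) (α' γ' s t : Eis)
    (hr : α'.norm + 2 * γ'.norm = m) (hb : s * α' + t * γ' = 1) :
    ∃ (α γ s' t' : Eis), α.norm + 2 * γ.norm = 7 * m ∧ ¬ (2 : ℤ) ∣ γ.norm ∧
      s' * α + t' * γ = 7 ∧ ¬ (f1 α = 0 ∧ f1 γ = 0) ∧ ¬ (f2 α = 0 ∧ f2 γ = 0) := by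
  have hb1 : f1 α' ≠ 0 ∨ f1 γ' ≠ 0 := by
    by_contra h
    push Not at h
    have := congrArg f1 hb
    rw [f1_add, f1_mul, f1_mul, h.1, h.2] at this
    revert this; simp; decide
  have hb2 : f2 α' ≠ 0 ∨ f2 γ' ≠ 0 := by
    by_contra h
    push Not at h
    have := congrArg f2 hb
    rw [f2_add, f2_mul, f2_mul, h.1, h.2] at this
    revert this; simp; decide
  have hpar : ¬ ((α'.re : ZMod 2) = 0 ∧ (α'.im : ZMod 2) = 0) := by
    rintro ⟨h1, h2⟩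
    rw [ZMod.intCast_zmod_eq_zero_iff_dvd] at h1 h2
    apply hm
    rw [← hr]
    exact dvd_add (norm_zero_iff_dvd2.2 ⟨h1, h2⟩) (dvd_mul_right _ _)
  obtain ⟨j1, h1⟩ := choose_f1 (f1 α') (f1 γ') hb1
  obtain ⟨j2, h2⟩ := choose_f2 (f2 α') (f2 γ') hb2
  obtain ⟨j3, h3⟩ := choose_par (α'.re) (α'.im) (γ'.re) (γ'.im) hpar
  obtain ⟨i, hi1, hi2, hi3, hi4⟩ := choose_i j1 j2 j3
  have hthsq : th * th = -3 := by rw [th]; ext <;> simp
  have hss : un i * star (un i) = 1 := by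
    fin_cases i <;> (ext <;> simp [un])
  refine ⟨α' + 2 * th * star (un i) * γ', γ' + un i * th * α',
    s - t * un i * th, - s * 2 * th * star (un i) + t, ?_, ?_, ?_, ?_, ?_⟩
  · have e1 : (un i).norm = 1 := norm_un i
    rw [← hr]
    simp only [norm_eq, re_add, im_add, re_mul, im_mul, re_star, im_star, th, re_ofNat, im_ofNat] at e1 ⊢
    linear_combination (12 * (γ'.re ^ 2 - γ'.re * γ'.im + γ'.im ^ 2) + 6 * (α'.re ^ 2 - α'.re * α'.im + α'.im ^ 2)) * e1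
  · rw [norm_zero_iff_dvd2]
    rintro ⟨ha, hb⟩
    apply h3 i hi3 hi4
    have ha' := (ZMod.intCast_zmod_eq_zero_iff_dvd _ 2).2 ha
    have hb' := (ZMod.intCast_zmod_eq_zero_iff_dvd _ 2).2 hb
    have h2z : (2 : ZMod 2) = 0 := by decide
    simp only [re_add, im_add, re_mul, im_mul, th] at ha' hb'
    push_cast at ha' hb'
    constructor
    · linear_combination ha' + (((un i).im : ZMod 2) * α'.re + (un i).re * α'.im - (un i).im * α'.im) * h2z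
    · linear_combination hb' + (((un i).re : ZMod 2) * α'.im + ((un i).im - (un i).re) * α'.re) * h2z
  · linear_combination (7 : Eis) * hb + (- s * 2 * α' * (un i * star (un i)) - 2 * t * γ' * (un i * star (un i)) ) * hthsq + (6 * s * α' + 6 * t * γ') * hss
  · rintro ⟨_, hg⟩
    apply h1 i hi1
    rw [f1_add, f1_mul, f1_mul] at hg
    exact hg
  · rintro ⟨_, hg⟩
    apply h2 i hi2
    rw [f2_add, f2_mul, f2_mul] at hg
    exact hg

end Pool.Agent.H30.Apollo24
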