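import Pool.Agent.H30.Apollo24.Defs

set_option autoImplicit false

namespace Pool.Agent.H30.Apollo24

open scoped RealInnerProductSpace OnePoint
open Set

/-- Generalised ball `κ‖z‖² - 2⟪z,y⟫ + κ' ≤ 0` (with `∞` if `κ ≤ 0`). -/
def G (κ κ' : ℝ) (y : E3) : Set (OnePoint E3) :=
  {P | P.elim (κ ≤ 0) (fun z => κ * ‖z‖ ^ 2 - 2 * ⟪z, y⟫ + κ' ≤ 0)}

@[simp] theorem infty_mem_G {κ κ' : ℝ} {y : E3} : (∞ : OnePoint E3) ∈ G κ κ' y ↔ κ ≤ 0 := Iff.rfl

@[simp] theorem coe_mem_G {κ κ' : ℝ} {y z : E3} :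
    (z : OnePoint E3) ∈ G κ κ' y ↔ κ * ‖z‖ ^ 2 - 2 * ⟪z, y⟫ + κ' ≤ 0 := Iff.rfl

theorem coe_mem_ballSet {c z : E3} {r : ℝ} : (z : OnePoint E3) ∈ ballSet c r ↔ ‖z - c‖ ≤ r := by
  simp [ballSet, dist_eq_norm]

theorem infty_mem_ballSet {c : E3} {r : ℝ} : (∞ : OnePoint E3) ∉ ballSet c r := by
  simp [ballSet]

theorem coe_mem_coBallSet {c z : E3} {r : ℝ} : (z : OnePoint E3) ∈ coBallSet c r ↔ r ≤ ‖z - c‖ := by
  simp [coBallSet, dist_eq_norm]

theorem infty_mem_coBallSet {c : E3} {r : ℝ} : (∞ : OnePoint E3) ∈ coBallSet c r := by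
  simp [coBallSet]

theorem coe_mem_halfSpaceSet {n z : E3} {d : ℝ} :
    (z : OnePoint E3) ∈ halfSpaceSet n d ↔ ⟪n, z⟫ ≤ d := by
  simp [halfSpaceSet]

theorem infty_mem_halfSpaceSet {n : E3} {d : ℝ} : (∞ : OnePoint E3) ∈ halfSpaceSet n d := by
  simp [halfSpaceSet]

/-- The quadratic polynomial of a sphere, completed. -/
theorem quad_eq {κ κ' : ℝ} {y : E3} (hκ : κ ≠ 0) (h : ‖y‖ ^ 2 - κ * κ' = 1) (z : E3) :
    κ * ‖z‖ ^ 2 - 2 * ⟪z, y⟫ + κ' = κ * (‖z - κ⁻¹ • y‖ ^ 2 - (κ⁻¹) ^ 2) := by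
  rw [norm_sub_sq_real, norm_smul, real_inner_smul_right, mul_pow, Real.norm_eq_abs, sq_abs]
  have : κ' = κ⁻¹ * (‖y‖ ^ 2 - 1) := by field_simp; linarith
  rw [this]
  field_simp
  ring

theorem G_pos {κ κ' : ℝ} {y : E3} (hκ : 0 < κ) (h : ‖y‖ ^ 2 - κ * κ' = 1) :
    G κ κ' y = ballSet (κ⁻¹ • y) κ⁻¹ := by
  ext P
  induction P using OnePoint.rec with
  | infty => simp [infty_mem_ballSet, hκ]
  | coe z =>
    rw [coe_mem_G, quad_eq hκ.ne' h, coe_mem_ballSet]
    constructor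
    · intro h1
      have h2 : ‖z - κ⁻¹ • y‖ ^ 2 - (κ⁻¹) ^ 2 ≤ 0 := by
        by_contra hc; push Not at hc
        have := mul_pos hκ hc
        linarith
      exact le_of_sq_le_sq (by linarith) (inv_pos.2 hκ).le
    · intro h1
      have h2 : ‖z - κ⁻¹ • y‖ ^ 2 ≤ (κ⁻¹) ^ 2 := pow_le_pow_left₀ (norm_nonneg _) h1 2
      exact mul_nonpos_of_nonneg_of_nonpos hκ.le (by linarith)

theorem G_neg {κ κ' : ℝ} {y : E3} (hκ : κ < 0) (h : ‖y‖ ^ 2 - κ * κ' = 1) :
    G κ κ' y = coBallSet (κ⁻¹ • y) (-κ⁻¹) := by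
  ext P
  induction P using OnePoint.rec with
  | infty => simp [infty_mem_coBallSet, hκ.le]
  | coe z =>
    rw [coe_mem_G, quad_eq hκ.ne h, coe_mem_coBallSet]
    have hk : 0 < -κ⁻¹ := by
      have := inv_neg''.2 hκ
      linarith
    constructor
    · intro h1
      have h2 : 0 ≤ ‖z - κ⁻¹ • y‖ ^ 2 - (κ⁻¹) ^ 2 := by
        by_contra hc; push Not at hc
        have := mul_pos_of_neg_of_neg hκ hc
        linarith
      exact le_of_sq_le_sq (by rw [neg_sq]; linarith) (norm_nonneg _)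
    · intro h1
      have h2 : (-κ⁻¹) ^ 2 ≤ ‖z - κ⁻¹ • y‖ ^ 2 := pow_le_pow_left₀ hk.le h1 2
      rw [neg_sq] at h2
      exact mul_nonpos_of_nonpos_of_nonneg hκ.le (by linarith)

theorem G_zero (κ' : ℝ) (y : E3) : G 0 κ' y = halfSpaceSet (-y) (-(κ' / 2)) := by
  ext P
  induction P using OnePoint.rec with
  | infty => simp [infty_mem_halfSpaceSet]
  | coe z =>
    rw [coe_mem_G, coe_mem_halfSpaceSet, inner_neg_left, real_inner_comm]
    constructor <;> intro h <;> linarith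

theorem ballSet_eq_G {c : E3} {r : ℝ} (hr : 0 < r) :
    ballSet c r = G r⁻¹ (r⁻¹ * (‖c‖ ^ 2 - r ^ 2)) (r⁻¹ • c) := by
  rw [G_pos (inv_pos.2 hr), inv_inv, smul_smul, mul_inv_cancel₀ hr.ne', one_smul]
  rw [norm_smul, mul_pow, Real.norm_eq_abs, sq_abs]
  field_simp
  ring

theorem coBallSet_eq_G {c : E3} {r : ℝ} (hr : 0 < r) :
    coBallSet c r = G (-r⁻¹) (-(r⁻¹ * (‖c‖ ^ 2 - r ^ 2))) (-(r⁻¹ • c)) := by
  rw [G_neg (neg_neg_of_pos (inv_pos.2 hr)), inv_neg, inv_inv, neg_neg, smul_neg, neg_smul, neg_neg,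
    smul_smul, mul_inv_cancel₀ hr.ne', one_smul]
  rw [norm_neg, norm_smul, mul_pow, Real.norm_eq_abs, sq_abs]
  field_simp
  ring

theorem halfSpaceSet_eq_G (n : E3) (d : ℝ) : halfSpaceSet n d = G 0 (-(2 * d)) (-n) := by
  rw [G_zero, neg_neg]; congr 1; ring

theorem exists_unit_smul (v : E3) : ∃ e : E3, ‖e‖ = 1 ∧ v = ‖v‖ • e := by
  by_cases h : v = 0
  · obtain ⟨e, he⟩ := exists_norm_eq E3 (zero_le_one (α := ℝ))
    exact ⟨e, he, by simp [h]⟩
  · refine ⟨‖v‖⁻¹ • v, ?_, ?_⟩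
    · rw [norm_smul, norm_inv, norm_norm, inv_mul_cancel₀ (norm_ne_zero_iff.2 h)]
    · rw [smul_smul, mul_inv_cancel₀ (norm_ne_zero_iff.2 h), one_smul]

theorem closedBall_inj {c c' : E3} {r r' : ℝ} (hr : 0 < r) (hr' : 0 < r')
    (h : Metric.closedBall c r = Metric.closedBall c' r') : c = c' ∧ r = r' := by
  have key : ∀ {c c' : E3} {r r' : ℝ}, 0 < r → Metric.closedBall c r ⊆ Metric.closedBall c' r' →
      ‖c - c'‖ + r ≤ r' := by
    intro c c' r r' hr h
    obtain ⟨e, he, hv⟩ := exists_unit_smul (c - c')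
    have h1 : c + r • e ∈ Metric.closedBall c r := by
      simp [norm_smul, he, abs_of_pos hr]
    have h2 := h h1
    rw [mem_closedBall_iff_norm] at h2
    have h3 : c + r • e - c' = (‖c - c'‖ + r) • e := by
      rw [add_smul, ← hv]; abel
    rw [h3, norm_smul, he, mul_one, Real.norm_eq_abs, abs_of_nonneg (by positivity)] at h2
    exact h2
  have h1 := key hr h.le
  have h2 := key hr' h.ge
  have h3 : ‖c' - c‖ = ‖c - c'‖ := norm_sub_rev _ _
  have h4 : ‖c - c'‖ = 0 := by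
    have := norm_nonneg (c - c')
    linarith
  refine ⟨sub_eq_zero.1 (norm_eq_zero.1 h4), ?_⟩
  linarith

theorem ballSet_inj {c c' : E3} {r r' : ℝ} (hr : 0 < r) (hr' : 0 < r')
    (h : ballSet c r = ballSet c' r') : c = c' ∧ r = r' :=
  closedBall_inj hr hr' (image_injective.2 OnePoint.coe_injective h)

theorem coBallSet_inj {c c' : E3} {r r' : ℝ} (hr : 0 < r) (hr' : 0 < r')
    (h : coBallSet c r = coBallSet c' r') : c = c' ∧ r = r' := by
  have h1 := image_injective.2 OnePoint.coe_injective (compl_injective h)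
  apply closedBall_inj hr hr'
  rw [← closure_ball c hr.ne', ← closure_ball c' hr'.ne', h1]

theorem halfSpaceSet_inj {n n' : E3} {d d' : ℝ} (hn : ‖n‖ = 1) (hn' : ‖n'‖ = 1)
    (h : halfSpaceSet n d = halfSpaceSet n' d') : n = n' ∧ d = d' := by
  have h1 : ∀ z : E3, ⟪n, z⟫ ≤ d ↔ ⟪n', z⟫ ≤ d' := by
    intro z
    rw [← coe_mem_halfSpaceSet, ← coe_mem_halfSpaceSet, h]
  have hnn : ⟪n, n⟫ = 1 := by rw [real_inner_self_eq_norm_sq, hn]; norm_num
  have hnn' : ⟪n', n'⟫ = 1 := by rw [real_inner_self_eq_norm_sq, hn']; norm_num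
  have hle : ⟪n, n'⟫ ≤ 1 := by
    have := real_inner_le_norm n n'
    rw [hn, hn'] at this
    linarith
  have heq : n = n' := by
    by_contra hne
    have hlt : ⟪n, n'⟫ < 1 := by
      rcases hle.lt_or_eq with h | h
      · exact h
      · exfalso
        apply hne
        have : ‖n - n'‖ ^ 2 = 0 := by
          rw [norm_sub_sq_real, h, hn, hn']; norm_num
        exact sub_eq_zero.1 (norm_eq_zero.1 (by simpa using this))
    -- z = d • n + s • (n' - n)
    set c := ⟪n, n'⟫ with hc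
    have hz : ∀ s : ℝ, 0 ≤ s → ⟪n, d • n + s • (n' - n)⟫ ≤ d := by
      intro s hs
      rw [inner_add_right, inner_smul_right, inner_smul_right, inner_sub_right, hnn, ← hc]
      nlinarith
    have hz' : ∀ s : ℝ, ⟪n', d • n + s • (n' - n)⟫ = d * c + s * (1 - c) := by
      intro s
      rw [inner_add_right, inner_smul_right, inner_smul_right, inner_sub_right, hnn',
        real_inner_comm, ← hc]
    have h2 := (h1 _).1 (hz ((|d' - d * c| + 1) / (1 - c)) (by
      apply div_nonneg (by positivity) (by linarith)))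
    rw [hz', div_mul_cancel₀ _ (by linarith : (1 - c) ≠ 0)] at h2
    have := le_abs_self (d' - d * c)
    linarith
  refine ⟨heq, ?_⟩
  subst heq
  apply le_antisymm
  · have := (h1 (d • n)).1 (by rw [inner_smul_right, hnn]; linarith)
    rw [inner_smul_right, hnn] at this
    linarith
  · have := (h1 (d' • n)).2 (by rw [inner_smul_right, hnn]; linarith)
    rw [inner_smul_right, hnn] at this
    linarith

theorem halfSpaceSet_ne_coBallSet {n c : E3} {d r : ℝ} (hn : ‖n‖ = 1) (hr : 0 < r) :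
    halfSpaceSet n d ≠ coBallSet c r := by
  intro h
  have h1 : ∀ z : E3, ⟪n, z⟫ ≤ d ↔ r ≤ ‖z - c‖ := by
    intro z
    rw [← coe_mem_halfSpaceSet, ← coe_mem_coBallSet, h]
  have hnn : ⟪n, n⟫ = 1 := by rw [real_inner_self_eq_norm_sq, hn]; norm_num
  -- z = c + s • n with s large
  have h2 := (h1 (c + (|d - ⟪n, c⟫| + r + 1) • n)).2 (by
    rw [add_sub_cancel_left, norm_smul, hn, mul_one, Real.norm_eq_abs, abs_of_nonneg (by positivity)]
    have := abs_nonneg (d - ⟪n, c⟫)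
    linarith)
  rw [inner_add_right, inner_smul_right, hnn] at h2
  have := le_abs_self (d - ⟪n, c⟫)
  linarith

/-- Normalised triples are determined by the generalised ball. -/
theorem G_inj {κ κ' μ μ' : ℝ} {y w : E3} (h1 : ‖y‖ ^ 2 - κ * κ' = 1) (h2 : ‖w‖ ^ 2 - μ * μ' = 1)
    (h : G κ κ' y = G μ μ' w) : κ = μ ∧ κ' = μ' ∧ y = w := by
  have hinf : κ ≤ 0 ↔ μ ≤ 0 := by
    rw [← infty_mem_G (κ := κ) (κ' := κ') (y := y), h, infty_mem_G]
  rcases lt_trichotomy κ 0 with hκ | hκ | hκ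
  · rcases lt_trichotomy μ 0 with hμ | hμ | hμ
    · rw [G_neg hκ h1, G_neg hμ h2] at h
      have hk : 0 < -κ⁻¹ := by
        have := inv_neg''.2 hκ
        linarith
      have hm : 0 < -μ⁻¹ := by
        have := inv_neg''.2 hμ
        linarith
      obtain ⟨e1, e2⟩ := coBallSet_inj hk hm h
      have e3 : κ = μ := by
        have : κ⁻¹ = μ⁻¹ := by linarith
        exact inv_injective this
      subst e3
      have e4 : y = w := by
        have := congrArg (fun v => κ • v) e1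
        simpa [smul_smul, mul_inv_cancel₀ hκ.ne] using this
      subst e4
      refine ⟨rfl, ?_, rfl⟩
      have : κ * κ' = κ * μ' := by linarith
      exact mul_left_cancel₀ hκ.ne this
    · exfalso
      subst hμ
      rw [G_neg hκ h1, G_zero] at h
      have hk : 0 < -κ⁻¹ := by
        have := inv_neg''.2 hκ
        linarith
      have hw : ‖-w‖ = 1 := by
        rw [norm_neg]
        have : ‖w‖ ^ 2 = 1 := by linarith
        exact (pow_eq_one_iff_of_nonneg (norm_nonneg _) two_ne_zero).1 this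
      exact halfSpaceSet_ne_coBallSet hw hk h.symm
    · exfalso
      have := hinf.1 hκ.le
      linarith
  · subst hκ
    rcases lt_trichotomy μ 0 with hμ | hμ | hμ
    · exfalso
      rw [G_neg hμ h2, G_zero] at h
      have hk : 0 < -μ⁻¹ := by
        have := inv_neg''.2 hμ
        linarith
      have hw : ‖-y‖ = 1 := by
        rw [norm_neg]
        have : ‖y‖ ^ 2 = 1 := by linarith
        exact (pow_eq_one_iff_of_nonneg (norm_nonneg _) two_ne_zero).1 this
      exact halfSpaceSet_ne_coBallSet hw hk h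
    · subst hμ
      rw [G_zero, G_zero] at h
      have hw : ‖-w‖ = 1 := by
        rw [norm_neg]
        have : ‖w‖ ^ 2 = 1 := by linarith
        exact (pow_eq_one_iff_of_nonneg (norm_nonneg _) two_ne_zero).1 this
      have hy : ‖-y‖ = 1 := by
        rw [norm_neg]
        have : ‖y‖ ^ 2 = 1 := by linarith
        exact (pow_eq_one_iff_of_nonneg (norm_nonneg _) two_ne_zero).1 this
      obtain ⟨e1, e2⟩ := halfSpaceSet_inj hy hw h
      exact ⟨rfl, by linarith, neg_injective e1⟩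
    · exfalso
      have := hinf.1 le_rfl
      linarith
  · have hμ : 0 < μ := by
      by_contra hc
      push Not at hc
      have := hinf.2 hc
      linarith
    rw [G_pos hκ h1, G_pos hμ h2] at h
    obtain ⟨e1, e2⟩ := ballSet_inj (inv_pos.2 hκ) (inv_pos.2 hμ) h
    have e3 : κ = μ := inv_injective e2
    subst e3
    have e4 : y = w := by
      have := congrArg (fun v => κ • v) e1
      simpa [smul_smul, mul_inv_cancel₀ hκ.ne'] using this
    subst e4
    refine ⟨rfl, ?_, rfl⟩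
    have : κ * κ' = κ * μ' := by linarith
    exact mul_left_cancel₀ hκ.ne' this

/-- The curvature of a normalised generalised ball is `κ`. -/
theorem hasCurvature_G {κ κ' : ℝ} {y : E3} (h : ‖y‖ ^ 2 - κ * κ' = 1) (k : ℝ) :
    HasCurvature (G κ κ' y) k ↔ k = κ := by
  constructor
  · rintro (⟨c, r, hr, hS, hk⟩ | ⟨n, d, hn, hS, hk⟩ | ⟨c, r, hr, hS, hk⟩)
    · rw [ballSet_eq_G hr] at hS
      obtain ⟨e, _, _⟩ := G_inj h (by
        rw [norm_smul, mul_pow, Real.norm_eq_abs, sq_abs]; field_simp; ring) hS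
      rw [hk, e, one_div]
    · rw [halfSpaceSet_eq_G] at hS
      obtain ⟨e, _, _⟩ := G_inj h (by rw [norm_neg, hn]; ring) hS
      rw [hk, e]
    · rw [coBallSet_eq_G hr] at hS
      obtain ⟨e, _, _⟩ := G_inj h (by
        rw [norm_neg, norm_smul, mul_pow, Real.norm_eq_abs, sq_abs]; field_simp; ring) hS
      rw [hk, e, one_div]
  · rintro rfl
    rcases lt_trichotomy k 0 with hκ | hκ | hκ
    · right; right
      refine ⟨_, -k⁻¹, ?_, G_neg hκ h, by simp⟩
      have := inv_neg''.2 hκ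
      linarith
    · right; left
      subst hκ
      refine ⟨_, _, ?_, G_zero _ _, rfl⟩
      rw [norm_neg]
      have : ‖y‖ ^ 2 = 1 := by linarith
      exact (pow_eq_one_iff_of_nonneg (norm_nonneg _) two_ne_zero).1 this
    · left
      exact ⟨_, k⁻¹, inv_pos.2 hκ, G_pos hκ h, by simp⟩

end Pool.Agent.H30.Apollo24
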