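import Pool.Agent.H30.Apollo24.GenBall

set_option autoImplicit false

namespace Pool.Agent.H30.Apollo24

open scoped RealInnerProductSpace OnePoint
open Set

/-- The inversion in the generalised ball `G η η' y`. -/
noncomputable def invOf (η η' : ℝ) (y : E3) : OnePoint E3 → OnePoint E3 :=
  open Classical in
  if η = 0 then planeReflection (-y) (-(η' / 2)) else sphereInversion (η⁻¹ • y) |η⁻¹|

theorem isInversionIn_G {η η' : ℝ} {y : E3} (h : ‖y‖ ^ 2 - η * η' = 1)
    (f : OnePoint E3 → OnePoint E3) : IsInversionIn (G η η' y) f ↔ f = invOf η η' y := by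
  constructor
  · rintro (⟨c, r, hr, hS | hS, hf⟩ | ⟨n, d, hn, hS, hf⟩)
    · rw [ballSet_eq_G hr] at hS
      obtain ⟨e1, e2, e3⟩ := G_inj h (by
        rw [norm_smul, mul_pow, Real.norm_eq_abs, sq_abs]; field_simp; ring) hS
      have hη : η ≠ 0 := by rw [e1]; exact inv_ne_zero hr.ne'
      rw [invOf, if_neg hη, hf, e3, e1, inv_inv, smul_smul, mul_inv_cancel₀ hr.ne', one_smul,
        abs_of_pos hr]
    · rw [coBallSet_eq_G hr] at hS
      obtain ⟨e1, e2, e3⟩ := G_inj h (by
        rw [norm_neg, norm_smul, mul_pow, Real.norm_eq_abs, sq_abs]; field_simp; ring) hS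
      have hη : η ≠ 0 := by rw [e1]; exact neg_ne_zero.2 (inv_ne_zero hr.ne')
      rw [invOf, if_neg hη, hf, e3, e1, inv_neg, inv_inv, smul_neg, neg_smul, neg_neg, smul_smul,
        mul_inv_cancel₀ hr.ne', one_smul, abs_neg, abs_of_pos hr]
    · rw [halfSpaceSet_eq_G] at hS
      obtain ⟨e1, e2, e3⟩ := G_inj h (by rw [norm_neg, hn]; ring) hS
      rw [invOf, if_pos e1, hf, e3, e2]
      congr 1
      · rw [neg_neg]
      · ring
  · rintro rfl
    rcases lt_trichotomy η 0 with hη | hη | hη
    · left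
      have hk : 0 < -η⁻¹ := by
        have := inv_neg''.2 hη
        linarith
      refine ⟨η⁻¹ • y, -η⁻¹, hk, Or.inr (G_neg hη h), ?_⟩
      rw [invOf, if_neg hη.ne, abs_of_neg (by linarith)]
    · right
      subst hη
      refine ⟨-y, -(η' / 2), ?_, G_zero _ _, ?_⟩
      · rw [norm_neg]
        have : ‖y‖ ^ 2 = 1 := by linarith
        exact (pow_eq_one_iff_of_nonneg (norm_nonneg _) two_ne_zero).1 this
      · rw [invOf, if_pos rfl]
    · left
      refine ⟨η⁻¹ • y, η⁻¹, inv_pos.2 hη, Or.inl (G_pos hη h), ?_⟩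
      rw [invOf, if_neg hη.ne', abs_of_pos (inv_pos.2 hη)]

theorem sphereInversion_infty (c : E3) (r : ℝ) : sphereInversion c r ∞ = c := rfl

theorem sphereInversion_center (c : E3) (r : ℝ) : sphereInversion c r c = ∞ := by
  simp [sphereInversion, OnePoint.elim_some]

theorem sphereInversion_coe {c z : E3} (r : ℝ) (h : z ≠ c) :
    sphereInversion c r z = ((EuclideanGeometry.inversion c r z : E3) : OnePoint E3) := by
  simp [sphereInversion, OnePoint.elim_some, h]

theorem sphereInversion_involutive (c : E3) {r : ℝ} (hr : r ≠ 0) :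
    Function.Involutive (sphereInversion c r) := by
  intro P
  induction P using OnePoint.rec with
  | infty => rw [sphereInversion_infty, sphereInversion_center]
  | coe z =>
    by_cases h : z = c
    · subst h
      rw [sphereInversion_center, sphereInversion_infty]
    · rw [sphereInversion_coe r h, sphereInversion_coe, EuclideanGeometry.inversion_inversion c hr]
      rw [Ne, EuclideanGeometry.inversion_eq_center hr]
      exact h

theorem planeReflection_infty (n : E3) (d : ℝ) : planeReflection n d ∞ = ∞ := rfl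

theorem planeReflection_coe (n z : E3) (d : ℝ) :
    planeReflection n d z = ((z - (2 * (⟪n, z⟫ - d)) • n : E3) : OnePoint E3) := rfl

theorem planeReflection_involutive {n : E3} (hn : ‖n‖ = 1) (d : ℝ) :
    Function.Involutive (planeReflection n d) := by
  intro P
  induction P using OnePoint.rec with
  | infty => rfl
  | coe z =>
    have hnn : ⟪n, n⟫ = 1 := by rw [real_inner_self_eq_norm_sq, hn]; norm_num
    rw [planeReflection_coe, planeReflection_coe]
    congr 1
    rw [inner_sub_right, inner_smul_right, hnn, sub_sub, ← add_smul]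
    have : 2 * (⟪n, z⟫ - d) + 2 * (⟪n, z⟫ - 2 * (⟪n, z⟫ - d) * 1 - d) = 0 := by ring
    rw [this, zero_smul, sub_zero]

theorem invOf_involutive {η η' : ℝ} {y : E3} (h : ‖y‖ ^ 2 - η * η' = 1) :
    Function.Involutive (invOf η η' y) := by
  by_cases hη : η = 0
  · rw [invOf, if_pos hη]
    apply planeReflection_involutive
    rw [norm_neg]
    have : ‖y‖ ^ 2 = 1 := by rw [hη] at h; linarith
    exact (pow_eq_one_iff_of_nonneg (norm_nonneg _) two_ne_zero).1 this
  · rw [invOf, if_neg hη]
    apply sphereInversion_involutive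
    exact abs_ne_zero.2 (inv_ne_zero hη)

/-- The inversion in `G η η' y` acts on generalised balls by the Lorentz reflection. -/
theorem invOf_mem_iff {η η' : ℝ} {y : E3} (h : ‖y‖ ^ 2 - η * η' = 1) (κ κ' : ℝ) (x : E3) (s : ℝ)
    (hs : s = ⟪x, y⟫ - (κ * η' + κ' * η) / 2) (P : OnePoint E3) :
    invOf η η' y P ∈ G (κ - 2 * s * η) (κ' - 2 * s * η') (x - (2 * s) • y) ↔ P ∈ G κ κ' x := by
  have hyy : ⟪y, y⟫ = 1 + η * η' := by rw [real_inner_self_eq_norm_sq]; linarith
  by_cases hη : η = 0
  · subst hη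
    rw [invOf, if_pos rfl]
    induction P using OnePoint.rec with
    | infty => rw [planeReflection_infty, infty_mem_G, infty_mem_G]; simp
    | coe z =>
      rw [planeReflection_coe, coe_mem_G, coe_mem_G]
      have e : z - (2 * (⟪-y, z⟫ - -(η' / 2))) • -y = z - (2 * ⟪y, z⟫ - η') • y := by
        rw [inner_neg_left, smul_neg, ← neg_smul]; congr 2; ring
      rw [e]
      have key : (κ - 2 * s * 0) * ‖z - (2 * ⟪y, z⟫ - η') • y‖ ^ 2 -
          2 * ⟪z - (2 * ⟪y, z⟫ - η') • y, x - (2 * s) • y⟫ + (κ' - 2 * s * η') =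
          κ * ‖z‖ ^ 2 - 2 * ⟪z, x⟫ + κ' := by
        rw [norm_sub_sq_real, norm_smul, mul_pow, Real.norm_eq_abs, sq_abs]
        simp only [inner_sub_left, inner_sub_right, real_inner_smul_left, real_inner_smul_right]
        rw [real_inner_comm y z, hyy, real_inner_comm x y]
        have hy2 : ‖y‖ ^ 2 = 1 := by linarith
        rw [hy2, hs]
        ring
      rw [key]
  · rw [invOf, if_neg hη]
    have hr2 : |η⁻¹| ^ 2 = (η⁻¹) ^ 2 := sq_abs _
    set c : E3 := η⁻¹ • y with hc
    have hcc : ‖c‖ ^ 2 = η⁻¹ ^ 2 * (1 + η * η') := by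
      rw [hc, norm_smul, mul_pow, Real.norm_eq_abs, sq_abs]; congr 1; linarith
    have hcx : ⟪c, x⟫ = η⁻¹ * ⟪x, y⟫ := by rw [hc, real_inner_smul_left, real_inner_comm]
    have hcy : ⟪c, y⟫ = η⁻¹ * (1 + η * η') := by rw [hc, real_inner_smul_left, hyy]
    have hyc : y = η • c := by rw [hc, smul_smul, mul_inv_cancel₀ hη, one_smul]
    have hxy : ⟪x, y⟫ = s + (κ * η' + κ' * η) / 2 := by rw [hs]; ring
    have hFc : κ * ‖c‖ ^ 2 - 2 * ⟪c, x⟫ + κ' = η⁻¹ ^ 2 * (κ - 2 * s * η) := by
      rw [hcc, hcx, hxy]; field_simp; ring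
    have hF'c : (κ - 2 * s * η) * ‖c‖ ^ 2 - 2 * ⟪c, x - (2 * s) • y⟫ + (κ' - 2 * s * η') = η⁻¹ ^ 2 * κ := by
      rw [inner_sub_right, real_inner_smul_right, hcc, hcx, hcy, hxy]; field_simp; ring
    have hpos : 0 < η⁻¹ ^ 2 := by positivity
    clear_value c
    induction P using OnePoint.rec with
    | infty =>
      rw [sphereInversion_infty, infty_mem_G, coe_mem_G, hF'c]
      constructor
      · intro h1
        by_contra hcon; push Not at hcon
        have := mul_pos hpos hcon
        linarith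
      · intro h1
        exact mul_nonpos_of_nonneg_of_nonpos hpos.le h1
    | coe z =>
      by_cases hz : z = c
      · rw [hz, sphereInversion_center, infty_mem_G, coe_mem_G, hFc]
        constructor
        · intro h1
          exact mul_nonpos_of_nonneg_of_nonpos hpos.le h1
        · intro h1
          by_contra hcon; push Not at hcon
          have := mul_pos hpos hcon
          linarith
      · rw [sphereInversion_coe _ hz, coe_mem_G, coe_mem_G]
        have hD : 0 < ‖z - c‖ ^ 2 := by
          have : 0 < ‖z - c‖ := norm_pos_iff.2 (sub_ne_zero.2 hz)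
          positivity
        set D := ‖z - c‖ ^ 2 with hDdef
        set ρ := η⁻¹ ^ 2 / D with hρ
        have hw : EuclideanGeometry.inversion c |η⁻¹| z = c + ρ • (z - c) := by
          rw [EuclideanGeometry.inversion, dist_eq_norm, div_pow, hr2, ← hDdef, ← hρ, vsub_eq_sub,
            vadd_eq_add, add_comm]
        have hρpos : 0 < ρ := div_pos hpos hD
        have hρD : ρ * D = η⁻¹ ^ 2 := by rw [hρ]; field_simp
        have key : (κ - 2 * s * η) * ‖c + ρ • (z - c)‖ ^ 2 - 2 * ⟪c + ρ • (z - c), x - (2 * s) • y⟫ +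
            (κ' - 2 * s * η') = ρ * (κ * ‖z‖ ^ 2 - 2 * ⟪z, x⟫ + κ') := by
          have e1 : ‖c + ρ • (z - c)‖ ^ 2 = ‖c‖ ^ 2 + 2 * ρ * ⟪c, z - c⟫ + ρ ^ 2 * D := by
            have n1 : ‖ρ • (z - c)‖ ^ 2 = ρ ^ 2 * D := by
              rw [norm_smul, mul_pow, Real.norm_eq_abs, sq_abs]
            rw [norm_add_sq_real, real_inner_smul_right, n1]
            ring
          have e2 : ⟪c + ρ • (z - c), x - (2 * s) • y⟫ = ⟪c, x - (2 * s) • y⟫ +
              ρ * (⟪z - c, x⟫ - 2 * s * (η * ⟪c, z - c⟫)) := by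
            have hcz : ⟪z - c, y⟫ = η * ⟪c, z - c⟫ := by
              conv_lhs => rw [hyc]
              rw [real_inner_smul_right, real_inner_comm]
            rw [inner_add_left, real_inner_smul_left, inner_sub_right (z - c) x,
              real_inner_smul_right (z - c) y, hcz]
          have e3 : κ * ‖z‖ ^ 2 - 2 * ⟪z, x⟫ + κ' = (κ * ‖c‖ ^ 2 - 2 * ⟪c, x⟫ + κ') + κ * D +
              2 * κ * ⟪c, z - c⟫ - 2 * ⟪z - c, x⟫ := by
            have : z = c + (z - c) := by abel
            have e4 : ‖z‖ ^ 2 = ‖c‖ ^ 2 + 2 * ⟪c, z - c⟫ + D := by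
              conv_lhs => rw [this]
              rw [norm_add_sq_real]
            have e5 : ⟪z, x⟫ = ⟪c, x⟫ + ⟪z - c, x⟫ := by
              conv_lhs => rw [this]
              rw [inner_add_left]
            rw [e4, e5]; ring
          rw [e1, e2, e3, hFc]
          linear_combination hF'c + ((κ - 2 * s * η) * ρ - κ) * hρD
        rw [hw, key]
        constructor
        · intro h1
          by_contra hcon; push Not at hcon
          have := mul_pos hρpos hcon
          linarith
        · intro h1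
          exact mul_nonpos_of_nonneg_of_nonpos hρpos.le h1

theorem invOf_image {η η' : ℝ} {y : E3} (h : ‖y‖ ^ 2 - η * η' = 1) (κ κ' : ℝ) (x : E3) (s : ℝ)
    (hs : s = ⟪x, y⟫ - (κ * η' + κ' * η) / 2) :
    invOf η η' y '' G κ κ' x = G (κ - 2 * s * η) (κ' - 2 * s * η') (x - (2 * s) • y) := by
  ext Q
  constructor
  · rintro ⟨P, hP, rfl⟩
    exact (invOf_mem_iff h κ κ' x s hs P).2 hP
  · intro hQ
    refine ⟨invOf η η' y Q, ?_, invOf_involutive h Q⟩
    apply (invOf_mem_iff h κ κ' x s hs _).1
    rw [invOf_involutive h Q]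
    exact hQ

end Pool.Agent.H30.Apollo24
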