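import Pool.Agent.H30.Apollo24.Rep

set_option autoImplicit false

namespace Pool.Agent.H30.Apollo24

/-- The orbit, in lattice coordinates, of the 24 roots under the 24 reflections. -/
inductive Orb : (Fin 4 → ℤ) → ℤ → Prop
  | base (a : Fin 4 → ℤ) (h : ∑ i, a i ^ 2 = 2) : Orb a 1
  | step (a : Fin 4 → ℤ) (b : ℤ) (U : Fin 4 → ℤ) (t : ℤ) (hU : ∑ i, U i ^ 2 = 4)
      (ht : 2 * t = 2 * b - ∑ i, a i * U i) (h : Orb a b) :
      Orb (fun i => a i + 3 * t * U i) (b + 4 * t)

/-- Invariants of the orbit. -/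
theorem Orb.inv {a : Fin 4 → ℤ} {b : ℤ} (h : Orb a b) :
    (2 : ℤ) ∣ ∑ i, a i ∧ 2 * ∑ i, a i ^ 2 - 3 * b ^ 2 = 1 ∧ 1 ≤ b := by
  induction h with
  | base a h =>
    refine ⟨?_, by rw [h]; norm_num, le_refl _⟩
    have h1 : (2 : ℤ) ∣ ∑ i, (a i ^ 2 + a i) := by
      apply Finset.dvd_sum
      intro i _
      have : a i ^ 2 + a i = a i * (a i + 1) := by ring
      rw [this]
      exact (Int.even_mul_succ_self (a i)).two_dvd
    rw [Finset.sum_add_distrib, h] at h1
    omega
  | step a b U t hU ht h ih =>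
    obtain ⟨h1, h2, h3⟩ := ih
    have hcs : (∑ i, a i * U i) ^ 2 ≤ (∑ i, a i ^ 2) * ∑ i, U i ^ 2 :=
      Finset.sum_mul_sq_le_sq_mul_sq _ _ _
    have hUe : (2 : ℤ) ∣ ∑ i, U i := by
      have h4 : (2 : ℤ) ∣ ∑ i, (U i ^ 2 + U i) := by
        apply Finset.dvd_sum
        intro i _
        have : U i ^ 2 + U i = U i * (U i + 1) := by ring
        rw [this]
        exact (Int.even_mul_succ_self (U i)).two_dvd
      rw [Finset.sum_add_distrib, hU] at h4
      omega
    refine ⟨?_, ?_, ?_⟩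
    · rw [Finset.sum_add_distrib, ← Finset.mul_sum]
      exact dvd_add h1 (Dvd.dvd.mul_left hUe _)
    · simp only [Fin.sum_univ_four] at *
      linear_combination h2 + 18 * t ^ 2 * hU + 12 * t * ht
    · rw [hU] at hcs
      set s := ∑ i, a i * U i with hs
      set n := ∑ i, a i ^ 2 with hn
      have h5 : b + 4 * t = 5 * b - 2 * s := by linarith
      rw [h5]
      -- s even
      have hse : (2 : ℤ) ∣ s := ⟨b - t, by linarith⟩
      obtain ⟨r, hr⟩ := hse
      rw [hr] at hcs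
      rw [hr]
      have hn2 : 2 * n = 1 + 3 * b ^ 2 := by linarith
      -- 4 r^2 ≤ 4 n, r^2 ≤ n; 2 r^2 ≤ 1 + 3 b^2
      have h6 : 2 * r ^ 2 ≤ 1 + 3 * b ^ 2 := by nlinarith
      have hbodd : b % 2 = 1 := by
        rcases Int.emod_two_eq_zero_or_one b with hb | hb
        · exfalso
          obtain ⟨c, hc⟩ : (2 : ℤ) ∣ b := Int.dvd_of_emod_eq_zero hb
          rw [hc] at hn2
          have : 2 * n = 1 + 2 * (6 * c ^ 2) := by rw [hn2]; ring
          omega
        · exact hb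
      by_contra hcon
      push Not at hcon
      have h7 : 5 * b ≤ 4 * r := by linarith
      by_cases hb1 : b = 1
      · subst hb1
        have : r ≤ 1 := by nlinarith
        omega
      · have hb3 : 3 ≤ b := by omega
        nlinarith

theorem Orb.kappa_nonneg {a : Fin 4 → ℤ} {b : ℤ} (h : Orb a b) (n : Fin 4 → ℤ)
    (hn : ∑ i, n i ^ 2 = 6) : 0 ≤ 3 * b - ∑ i, a i * n i := by
  obtain ⟨_, h2, h3⟩ := h.inv
  have hcs : (∑ i, a i * n i) ^ 2 ≤ (∑ i, a i ^ 2) * ∑ i, n i ^ 2 :=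
    Finset.sum_mul_sq_le_sq_mul_sq _ _ _
  rw [hn] at hcs
  by_contra hc
  push Not at hc
  have h4 : 3 * b + 1 ≤ ∑ i, a i * n i := by linarith
  nlinarith

/-- Signed permutations preserve the orbit. -/
theorem Orb.perm {a : Fin 4 → ℤ} {b : ℤ} (h : Orb a b) (σ : Equiv.Perm (Fin 4)) (s : Fin 4 → ℤ)
    (hs : ∀ i, s i ^ 2 = 1) : Orb (fun i => s i * a (σ i)) b := by
  induction h with
  | base a h =>
    apply Orb.base
    rw [← h]
    have : ∀ i, (s i * a (σ i)) ^ 2 = a (σ i) ^ 2 := by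
      intro i; rw [mul_pow, hs, one_mul]
    simp_rw [this]
    exact Equiv.sum_comp σ (fun i => a i ^ 2)
  | step a b U t hU ht h ih =>
    have h1 : Orb (fun i => s i * a (σ i) + 3 * t * (s i * U (σ i))) (b + 4 * t) := by
      apply Orb.step _ b (fun i => s i * U (σ i)) t _ _ ih
      · rw [← hU]
        have : ∀ i, (s i * U (σ i)) ^ 2 = U (σ i) ^ 2 := by
          intro i; rw [mul_pow, hs, one_mul]
        simp_rw [this]
        exact Equiv.sum_comp σ (fun i => U i ^ 2)
      · rw [ht]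
        have : ∀ i, (s i * a (σ i)) * (s i * U (σ i)) = a (σ i) * U (σ i) := by
          intro i
          have := hs i
          linear_combination (a (σ i) * U (σ i)) * this
        simp_rw [this]
        rw [Equiv.sum_comp σ (fun i => a i * U i)]
    convert h1 using 1
    funext i
    ring

theorem Orb.step' {x1 x2 x3 x4 b : ℤ} (u1 u2 u3 u4 t : ℤ)
    (hU : u1 ^ 2 + u2 ^ 2 + u3 ^ 2 + u4 ^ 2 = 4)
    (ht : 2 * t = 2 * b - (x1 * u1 + x2 * u2 + x3 * u3 + x4 * u4))
    (h : Orb ![x1, x2, x3, x4] b) :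
    Orb ![x1 + 3 * t * u1, x2 + 3 * t * u2, x3 + 3 * t * u3, x4 + 3 * t * u4] (b + 4 * t) := by
  have := Orb.step ![x1, x2, x3, x4] b ![u1, u2, u3, u4] t (by simpa [Fin.sum_univ_four] using hU)
    (by simpa [Fin.sum_univ_four] using ht) h
  convert this using 1
  funext i
  fin_cases i <;> simp

/-- Descent: the tangency points on the ball `(1,0,0,1;1)`. -/
theorem null_descent (n : ℕ) : ∀ x1 x2 x3 x4 b : ℤ, b = n → 0 < b → b % 2 = 1 → x1 + x4 = 3 * b →
    x1 ^ 2 + x2 ^ 2 + x3 ^ 2 + x4 ^ 2 = 6 * b ^ 2 →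
    (∀ l : ℤ, l ∣ x1 → l ∣ x2 → l ∣ x3 → l ∣ x4 → l ∣ b → l ∣ 1) →
    Orb ![x1 - 1, x2, x3, x4 - 1] (2 * b - 1) := by
  induction n using Nat.strong_induction_on with
  | _ n ih =>
    intro x1 x2 x3 x4 b hbn hb hodd h14 hsq hprim
    have hsum : (x2 + x3) ^ 2 + (x2 - x3) ^ 2 + (x1 - x4) ^ 2 = 3 * b ^ 2 := by
      have : x1 = 3 * b - x4 := by linarith
      subst this
      linarith
    -- generic descent step
    have go : ∀ u1 u2 u3 u4 t : ℤ, u1 ^ 2 + u2 ^ 2 + u3 ^ 2 + u4 ^ 2 = 4 → u1 + u4 = 2 →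
        2 * t = 4 * b - (x1 * u1 + x2 * u2 + x3 * u3 + x4 * u4) → t < 0 → 0 < b + 2 * t →
        Orb ![x1 - 1, x2, x3, x4 - 1] (2 * b - 1) := by
      intro u1 u2 u3 u4 t hU hU2 ht htneg hbt
      have hn' : ((b + 2 * t).toNat : ℤ) = b + 2 * t := Int.toNat_of_nonneg hbt.le
      have hlt : (b + 2 * t).toNat < n := by omega
      have h1 := ih _ hlt (x1 + 3 * t * u1) (x2 + 3 * t * u2) (x3 + 3 * t * u3) (x4 + 3 * t * u4)
        (b + 2 * t) hn'.symm hbt (by omega) (by linear_combination h14 + 3 * t * hU2)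
        (by linear_combination hsq + 9 * t ^ 2 * hU + 6 * t * ht) (by
          intro l l1 l2 l3 l4 lb
          have lt : l ∣ 2 * t := by
            have e : 2 * t = ((x1 + 3 * t * u1) * u1 + (x2 + 3 * t * u2) * u2 + (x3 + 3 * t * u3) * u3 + (x4 + 3 * t * u4) * u4) - 4 * (b + 2 * t) := by
              linear_combination -ht - 3 * t * hU
            rw [e]
            exact dvd_sub (dvd_add (dvd_add (dvd_add (Dvd.dvd.mul_right l1 _) (Dvd.dvd.mul_right l2 _)) (Dvd.dvd.mul_right l3 _)) (Dvd.dvd.mul_right l4 _)) (Dvd.dvd.mul_left lb _)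
          have hcop : IsCoprime l 2 := by
            obtain ⟨c, hc⟩ := lb
            refine ⟨c, -(b / 2 + t), ?_⟩
            have : b = 2 * (b / 2) + 1 := by omega
            linear_combination this - hc
          have lt' : l ∣ t := hcop.dvd_of_dvd_mul_left lt
          have g : ∀ x u : ℤ, l ∣ x + 3 * t * u → l ∣ x := by
            intro x u h
            have h2 : l ∣ 3 * t * u := Dvd.dvd.mul_right (Dvd.dvd.mul_left lt' _) _
            exact (dvd_add_left h2).1 h
          exact hprim l (g _ _ l1) (g _ _ l2) (g _ _ l3) (g _ _ l4)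
            ((dvd_add_left (Dvd.dvd.mul_left lt' 2)).1 lb))
      have h2 := Orb.step' u1 u2 u3 u4 (-t) hU (by linear_combination ht + 3 * t * hU - hU2) h1
      have e1 : x1 + 3 * t * u1 - 1 + 3 * -t * u1 = x1 - 1 := by ring
      have e2 : x2 + 3 * t * u2 + 3 * -t * u2 = x2 := by ring
      have e3 : x3 + 3 * t * u3 + 3 * -t * u3 = x3 := by ring
      have e4 : x4 + 3 * t * u4 - 1 + 3 * -t * u4 = x4 - 1 := by ring
      have e5 : 2 * (b + 2 * t) - 1 + 4 * -t = 2 * b - 1 := by ring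
      rw [e1, e2, e3, e4, e5] at h2
      exact h2
    -- parity
    have hp : (x2 + x3) % 2 = 1 := by
      by_contra hcon
      obtain ⟨u, hu⟩ : (2 : ℤ) ∣ x2 + x3 := by omega
      obtain ⟨v, hv⟩ : (2 : ℤ) ∣ x2 - x3 := by omega
      have hb2 : b = 2 * (b / 2) + 1 := by omega
      set b2 := b / 2
      have hd2 : x1 - x4 = 2 * (x1 - 3 * b2 - 2) + 1 := by omega
      rw [hu, hv, hd2, hb2] at hsum
      have : 4 * (u ^ 2 + v ^ 2 + (x1 - 3 * b2 - 2) ^ 2 + (x1 - 3 * b2 - 2) - 3 * b2 ^ 2 - 3 * b2) = 2 := by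
        linear_combination hsum
      omega
    have hpb : (x2 + x3) ^ 2 ≤ 3 * b ^ 2 := by nlinarith [sq_nonneg (x2 - x3), sq_nonneg (x1 - x4)]
    have hqb : (x2 - x3) ^ 2 ≤ 3 * b ^ 2 := by nlinarith [sq_nonneg (x2 + x3), sq_nonneg (x1 - x4)]
    have hdb : (x1 - x4) ^ 2 ≤ 3 * b ^ 2 := by nlinarith [sq_nonneg (x2 + x3), sq_nonneg (x2 - x3)]
    have bound : ∀ z : ℤ, z ^ 2 ≤ 3 * b ^ 2 → z < 2 * b ∧ -(2 * b) < z := by
      intro z hz
      constructor
      · by_contra h; push Not at h; nlinarith [mul_self_nonneg (z - 2 * b)]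
      · by_contra h; push Not at h; nlinarith [mul_self_nonneg (z + 2 * b)]
    obtain ⟨bp1, bp2⟩ := bound _ hpb
    obtain ⟨bq1, bq2⟩ := bound _ hqb
    obtain ⟨bd1, bd2⟩ := bound _ hdb
    by_cases c1 : b < x2 + x3
    · obtain ⟨t, ht⟩ : (2 : ℤ) ∣ b - (x2 + x3) := by omega
      exact go 1 1 1 1 t (by norm_num) (by norm_num) (by linarith) (by omega) (by omega)
    by_cases c2 : b < -(x2 + x3)
    · obtain ⟨t, ht⟩ : (2 : ℤ) ∣ b + (x2 + x3) := by omega
      exact go 1 (-1) (-1) 1 t (by norm_num) (by norm_num) (by linarith) (by omega) (by omega)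
    by_cases c3 : b < x2 - x3
    · obtain ⟨t, ht⟩ : (2 : ℤ) ∣ b - (x2 - x3) := by omega
      exact go 1 1 (-1) 1 t (by norm_num) (by norm_num) (by linarith) (by omega) (by omega)
    by_cases c4 : b < -(x2 - x3)
    · obtain ⟨t, ht⟩ : (2 : ℤ) ∣ b + (x2 - x3) := by omega
      exact go 1 (-1) 1 1 t (by norm_num) (by norm_num) (by linarith) (by omega) (by omega)
    by_cases c5 : b < x1 - x4
    · exact go 2 0 0 0 (2 * b - x1) (by norm_num) (by norm_num) (by ring) (by omega) (by omega)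
    by_cases c6 : b < -(x1 - x4)
    · exact go 0 0 0 2 (2 * b - x4) (by norm_num) (by norm_num) (by ring) (by omega) (by omega)
    push Not at c1 c2 c3 c4 c5 c6
    have s1 : (x2 + x3) ^ 2 ≤ b ^ 2 := sq_le_sq' (by linarith) c1
    have s2 : (x2 - x3) ^ 2 ≤ b ^ 2 := sq_le_sq' (by linarith) c3
    have s3 : (x1 - x4) ^ 2 ≤ b ^ 2 := sq_le_sq' (by linarith) c5
    have t1 : (x2 + x3) ^ 2 = b ^ 2 := by linarith
    have t2 : (x2 - x3) ^ 2 = b ^ 2 := by linarith
    have t3 : (x1 - x4) ^ 2 = b ^ 2 := by linarith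
    have hb1 : b ∣ 1 := by
      apply hprim b
      · rcases sq_eq_sq_iff_eq_or_eq_neg.1 t3 with h | h
        · exact ⟨2, by linarith⟩
        · exact ⟨1, by linarith⟩
      · rcases sq_eq_sq_iff_eq_or_eq_neg.1 t1 with h | h <;>
          rcases sq_eq_sq_iff_eq_or_eq_neg.1 t2 with h' | h'
        · exact ⟨1, by linarith⟩
        · exact ⟨0, by linarith⟩
        · exact ⟨0, by linarith⟩
        · exact ⟨-1, by linarith⟩
      · rcases sq_eq_sq_iff_eq_or_eq_neg.1 t1 with h | h <;>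
          rcases sq_eq_sq_iff_eq_or_eq_neg.1 t2 with h' | h'
        · exact ⟨0, by linarith⟩
        · exact ⟨1, by linarith⟩
        · exact ⟨-1, by linarith⟩
        · exact ⟨0, by linarith⟩
      · rcases sq_eq_sq_iff_eq_or_eq_neg.1 t3 with h | h
        · exact ⟨1, by linarith⟩
        · exact ⟨2, by linarith⟩
      · exact dvd_rfl
    have hb1' : b = 1 := Int.eq_one_of_dvd_one hb.le hb1
    subst hb1'
    have : (2 : ℤ) * 1 - 1 = 1 := by norm_num
    rw [this]
    apply Orb.base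
    simp [Fin.sum_univ_four]
    linear_combination hsq - 2 * h14

theorem dvd_of_odd {l x b : ℤ} (hb : b % 2 = 1) (hl : l ∣ b) (h : l ∣ 2 * x) : l ∣ x := by
  have hcop : IsCoprime l 2 := by
    obtain ⟨c, hc⟩ := hl
    refine ⟨c, -(b / 2), ?_⟩
    have : b = 2 * (b / 2) + 1 := by omega
    linear_combination this - hc
  exact hcop.dvd_of_dvd_mul_left h

/-- Every even curvature occurs. -/
theorem orb_even (n : ℕ) (hn : Even n) :
    ∃ a1 a2 a3 a4 b : ℤ, Orb ![a1, a2, a3, a4] b ∧ 3 * b - (2 * a1 + a2 + a3) = n := by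
  obtain ⟨A, G, R, S, h1, ⟨h2, hA, hG, hprim⟩⟩ := rep_even (n + 1) (Even.add_one hn)
  push_cast at h1
  have hAodd : A % 2 = 1 := by
    obtain ⟨k, hk⟩ := hn
    omega
  set b := A + 2 * G + 2 * R with hb
  have hbpos : 0 < b := by
    by_contra hcon
    push Not at hcon
    have h3 : A + 2 * G ≤ -2 * R := by linarith
    have h4 : (A + 2 * G) ^ 2 ≤ 4 * R ^ 2 := by nlinarith
    have h5 : 3 * R ^ 2 ≤ 4 * (A * G) := by nlinarith [sq_nonneg (2 * S - R)]
    have h6 : 8 * (A * G) ≤ (A + 2 * G) ^ 2 := by nlinarith [sq_nonneg (A - 2 * G)]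
    have h7 : 0 ≤ A * G := mul_nonneg hA hG
    have h8 : A * G = 0 := by linarith
    have h9 : R ^ 2 = 0 := by nlinarith [sq_nonneg R]
    have h10 : R = 0 := by simpa using h9
    subst h10
    have : A + 2 * G = n + 1 := by linarith
    linarith
  have hbodd : b % 2 = 1 := by omega
  have key := null_descent b.toNat (2 * A + 4 * G + 5 * R - S) (A + R + S) (2 * G + R + S) (A + 2 * G + R + S)
    b (Int.toNat_of_nonneg hbpos.le).symm hbpos hbodd (by rw [hb]; ring)
    (by rw [hb]; linear_combination (4 : ℤ) * h2) (by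
      intro l l1 l2 l3 l4 lb
      have hlA : l ∣ A := by
        have : A = (A + 2 * G + R + S) - (2 * G + R + S) := by ring
        rw [this]; exact dvd_sub l4 l3
      have hl2G : l ∣ 2 * G := by
        have : 2 * G = (A + 2 * G + R + S) - (A + R + S) := by ring
        rw [this]; exact dvd_sub l4 l2
      have hlG := dvd_of_odd hbodd lb hl2G
      have hl2R : l ∣ 2 * R := by
        have : 2 * R = b - A - 2 * G := by rw [hb]; ring
        rw [this]; exact dvd_sub (dvd_sub lb hlA) hl2G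
      have hlR := dvd_of_odd hbodd lb hl2R
      have hlS : l ∣ S := by
        have : S = (A + R + S) - A - R := by ring
        rw [this]; exact dvd_sub (dvd_sub l2 hlA) hlR
      exact hprim l hlA hlG hlR hlS)
  refine ⟨_, _, _, _, _, key, ?_⟩
  rw [hb]
  linarith

/-- Every odd curvature occurs. -/
theorem orb_odd (n : ℕ) (hn : Odd n) :
    ∃ a1 a2 a3 a4 b : ℤ, Orb ![a1, a2, a3, a4] b ∧ 3 * b - (a1 + 2 * a2 + a3) = n := by
  obtain ⟨A, G, R, S, h1, ⟨h2, hA, hG, hprim⟩, hGo, hRo, hSe⟩ := rep_odd (n + 2) (by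
    obtain ⟨k, hk⟩ := hn; exact ⟨k + 1, by omega⟩) (by
    obtain ⟨k, hk⟩ := hn; omega)
  push_cast at h1
  have hAodd : A % 2 = 1 := by
    obtain ⟨k, hk⟩ := hn
    omega
  obtain ⟨X, hX⟩ : (2 : ℤ) ∣ G + R := by omega
  obtain ⟨Y, hY⟩ : (2 : ℤ) ∣ A - R - S := by omega
  obtain ⟨r, hr⟩ : (2 : ℤ) ∣ R - 1 := by omega
  obtain ⟨s, hs⟩ := hSe
  have hA' : A = 2 * Y + R + S := by linarith
  have hG' : G = 2 * X - R := by linarith
  have hR' : R = 2 * r + 1 := by linarith
  set b := X + Y with hb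
  have hbodd : b % 2 = 1 := by
    have : X - Y - 1 = -2 * (X * Y + r * (X - Y) + X * s - 2 * r ^ 2 - 2 * r - s ^ 2) := by
      have h3 := h2
      rw [hA', hG', hR', hs] at h3
      have : (4 : ℤ) * (X * Y + r * (X - Y) + X * s - 2 * r ^ 2 - 2 * r - s ^ 2) + 2 * (X - Y) - 2 = 0 := by
        linear_combination -h3
      linarith
    omega
  have hbpos : 0 < b := by
    have h2b : 2 * b = A + G - S := by rw [hb]; linarith
    by_contra hcon
    push Not at hcon
    have h3 : A + G ≤ S := by linarith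
    have h4 : (A + G) ^ 2 ≤ S ^ 2 := by nlinarith
    have h5 : 3 * S ^ 2 ≤ 4 * (A * G) := by nlinarith [sq_nonneg (2 * R - S)]
    have h6 : 4 * (A * G) ≤ (A + G) ^ 2 := by nlinarith [sq_nonneg (A - G)]
    have h7 : S ^ 2 ≤ 0 := by linarith
    have h9 : S ^ 2 = 0 := le_antisymm h7 (sq_nonneg S)
    have h10 : S = 0 := by simpa using h9
    have : A = 0 := by linarith
    omega
  have key := null_descent b.toNat (A - S + X) Y (X - S) (G + Y)
    b (Int.toNat_of_nonneg hbpos.le).symm hbpos hbodd (by rw [hb]; linarith)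
    (by
      rw [hb, hA', hG']
      rw [hA', hG'] at h2
      linear_combination (1 : ℤ) * h2) (by
      intro l l1 l2 l3 l4 lb
      have hlX : l ∣ X := by
        have : X = b - Y := by rw [hb]; ring
        rw [this]; exact dvd_sub lb l2
      have hlS : l ∣ S := by
        have : S = X - (X - S) := by ring
        rw [this]; exact dvd_sub hlX l3
      have hlG : l ∣ G := by
        have : G = (G + Y) - Y := by ring
        rw [this]; exact dvd_sub l4 l2
      have hlR : l ∣ R := by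
        have : R = 2 * X - G := by linarith
        rw [this]; exact dvd_sub (Dvd.dvd.mul_left hlX _) hlG
      have hlA : l ∣ A := by
        rw [hA']; exact dvd_add (dvd_add (Dvd.dvd.mul_left l2 _) hlR) hlS
      exact hprim l hlA hlG hlR hlS)
  refine ⟨_, _, _, _, _, key, ?_⟩
  rw [hb]
  linarith

/-- Every natural number is the curvature of a member of the orbit, in the frame given by any pair
of adjacent roots. -/
theorem orb_all (n : ℕ) : ∃ (a : Fin 4 → ℤ) (b : ℤ), Orb a b ∧ 3 * b - (2 * a 0 + a 1 + a 2) = n := by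
  rcases Nat.even_or_odd n with h | h
  · obtain ⟨a1, a2, a3, a4, b, h1, h2⟩ := orb_even n h
    exact ⟨_, b, h1, by simpa using h2⟩
  · obtain ⟨a1, a2, a3, a4, b, h1, h2⟩ := orb_odd n h
    refine ⟨_, b, h1.perm (Equiv.swap 0 1) (fun _ => 1) (by simp), ?_⟩
    simp [Equiv.swap_apply_def]
    linarith

end Pool.Agent.H30.Apollo24
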