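import Pool.Agent.H30.Apollo24.Edges
import Pool.Agent.H30.Apollo24.Lattice

set_option autoImplicit false

namespace Pool.Agent.H30.Apollo24

open scoped RealInnerProductSpace OnePoint
open Set

theorem c0_sq : √(2 / 3 : ℝ) ^ 2 = 2 / 3 := Real.sq_sqrt (by norm_num)
theorem c0_pos : 0 < √(2 / 3 : ℝ) := by positivity
theorem sqrt6_sq : √(6 : ℝ) ^ 2 = 6 := Real.sq_sqrt (by norm_num)
theorem sqrt6_pos : 0 < √(6 : ℝ) := by positivity
theorem sqrt2_sq : √(2 : ℝ) ^ 2 = 2 := Real.sq_sqrt (by norm_num)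
theorem sqrt2_pos : 0 < √(2 : ℝ) := by positivity

/-- The frame of a 1-CBP 24-cell. -/
theorem frame {R : Set E4} (h : IsOneCBP R) : ∃ (U : E4 ≃ₗᵢ[ℝ] E4) (n : Fin 4 → ℤ),
    ∑ i, n i ^ 2 = 6 ∧ U (toE n) = √6 • northPole ∧ R = (fun x => √(2 / 3) • U x) '' std24Cell := by
  obtain ⟨⟨c, U, t, hc, rfl⟩, hES, v, w, hE, τ, hτ, hmid⟩ := h
  obtain ⟨ht, hc2⟩ := scribed_params hc hES
  subst ht
  simp only [add_zero] at hES hE ⊢
  have hcc : c = √(2 / 3) := by
    rw [← hc2, Real.sqrt_sq hc.le]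
  have hv := hE.left
  have hw := hE.symm.left
  rw [vertices_image hc.ne'] at hv hw
  obtain ⟨_, hv', rfl⟩ := hv
  obtain ⟨_, hw', rfl⟩ := hw
  obtain ⟨a, ha, rfl⟩ := mem_stdVertices.1 hv'
  obtain ⟨b, hb, rfl⟩ := mem_stdVertices.1 hw'
  have hab := adj_of_isEdge ha hb hc hE
  have hn : ∑ i, (a + b) i ^ 2 = 6 := by
    have : ∑ i, (a + b) i ^ 2 = ∑ i, a i ^ 2 + ∑ i, b i ^ 2 + 2 * ∑ i, a i * b i := by
      simp only [Fin.sum_univ_four, Pi.add_apply]; ring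
    rw [this, ha, hb, hab]; norm_num
  have hmid' : (c / 2) • U (toE (a + b)) = τ • northPole := by
    rw [← hmid, midpoint_eq_smul_add, toE_add, map_add]
    simp only
    rw [invOf_eq_inv]
    module
  have hnorm : ‖U (toE (a + b))‖ ^ 2 = 6 := by
    rw [U.norm_map, norm_sq_toE, hn]; norm_num
  have hτ1 : τ = 1 := by
    have h1 : ‖(c / 2) • U (toE (a + b))‖ ^ 2 = τ ^ 2 := by
      rw [hmid', norm_smul, norm_northPole, mul_one, Real.norm_eq_abs, sq_abs]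
    rw [norm_smul, mul_pow, hnorm, Real.norm_eq_abs, sq_abs, div_pow, hc2] at h1
    have h2 : τ ^ 2 = 1 := by rw [← h1]; norm_num
    exact (pow_eq_one_iff_of_nonneg hτ.le two_ne_zero).1 h2
  refine ⟨U, a + b, hn, ?_, by rw [hcc]⟩
  rw [hτ1, one_smul] at hmid'
  rw [← hmid', smul_smul]
  have : √6 * (c / 2) = 1 := by
    rw [hcc]
    have h1 : √(6 : ℝ) * √(2 / 3) = 2 := by
      rw [← Real.sqrt_mul (by norm_num)]
      have : (6 : ℝ) * (2 / 3) = 2 ^ 2 := by norm_num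
      rw [this, Real.sqrt_sq (by norm_num)]
    linarith
  rw [this, one_smul]

section
variable (U : E4 ≃ₗᵢ[ℝ] E4) (n : Fin 4 → ℤ)

/-- The generalised ball with lattice coordinates `(x, b)`. -/
noncomputable def LB (x : E4) (b : ℝ) : Set (OnePoint E3) :=
  G (3 * b - ⟪x, toE n⟫) (b + ⟪x, toE n⟫ / 3) (√2 • tr (U x))

variable {U n}

theorem coord3 (hU : U (toE n) = √6 • northPole) (x : E4) : (U x) 3 = ⟪x, toE n⟫ / √6 := by
  have h1 : ⟪U x, U (toE n)⟫ = ⟪x, toE n⟫ := U.inner_map_map _ _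
  rw [hU, real_inner_smul_right, inner_northPole] at h1
  rw [← h1]
  have := sqrt6_pos
  field_simp

theorem inner_tr (p q : E4) : ⟪tr p, tr q⟫ = ⟪p, q⟫ - p 3 * q 3 := by
  rw [inner3, inner4, tr_0, tr_1, tr_2, tr_0, tr_1, tr_2]; ring

theorem tr_smul (c : ℝ) (p : E4) : tr (c • p) = c • tr p := by
  apply ext3 <;> simp [tr]

theorem tr_add (p q : E4) : tr (p + q) = tr p + tr q := by
  apply ext3 <;> simp [tr]

theorem sqrt_rel1 : √(2 : ℝ) * √3 = √6 := by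
  rw [← Real.sqrt_mul (by norm_num)]; norm_num

/-- Members of `ℬ`. -/
theorem member_eq (hU : U (toE n) = √6 • northPole) (x : E4) :
    dilation '' (stereo '' cap (√(2 / 3) • U x)) = LB U n x 1 := by
  rw [dil_stereo_cap _ (√3) sqrt3_pos, smul_smul]
  have e1 : √(3 : ℝ) * √(2 / 3) = √2 := by
    rw [← Real.sqrt_mul (by norm_num)]; norm_num
  rw [e1, LB, tr_smul]
  have h3 := coord3 hU x
  have e2 : (√(2 : ℝ) • U x : E4) 3 = √2 * (⟪x, toE n⟫ / √6) := by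
    rw [← h3]; rfl
  rw [e2]
  have h6 := sqrt6_pos
  have s2 := sqrt2_pos
  have s3 := sqrt3_pos
  have s3q := sqrt3_sq
  have s2q := sqrt2_sq
  congr 1
  · rw [← sqrt_rel1]; field_simp; rw [s3q]
  · rw [← sqrt_rel1]; field_simp; rw [s3q]; ring

/-- Members of `ℬ*`. -/
theorem mirror_eq (hU : U (toE n) = √6 • northPole) (u : E4) :
    dilation '' (stereo '' cap ((√(2 / 3))⁻¹ • U u)) =
      G ((6 - 3 * ⟪u, toE n⟫) / √6) ((2 + ⟪u, toE n⟫) / √6) (√3 • tr (U u)) := by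
  rw [dil_stereo_cap _ (√2) sqrt2_pos, smul_smul]
  have e1 : √(2 : ℝ) * (√(2 / 3))⁻¹ = √3 := by
    rw [← Real.sqrt_inv, ← Real.sqrt_mul (by norm_num)]; norm_num
  rw [e1, tr_smul]
  have h3 := coord3 hU u
  have e2 : (√(3 : ℝ) • U u : E4) 3 = √3 * (⟪u, toE n⟫ / √6) := by
    rw [← h3]; rfl
  rw [e2]
  have h6 := sqrt6_pos
  have s2 := sqrt2_pos
  have s3 := sqrt3_pos
  have s3q := sqrt3_sq
  have s2q := sqrt2_sq
  congr 1
  · rw [← sqrt_rel1]; field_simp; rw [s3q, s2q]; ring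
  · rw [← sqrt_rel1]; field_simp; rw [s2q]

theorem mirror_normalised (hU : U (toE n) = √6 • northPole) {u : E4} (hu : ‖u‖ ^ 2 = 1) :
    ‖√3 • tr (U u)‖ ^ 2 - (6 - 3 * ⟪u, toE n⟫) / √6 * ((2 + ⟪u, toE n⟫) / √6) = 1 := by
  have h1 : ‖tr (U u)‖ ^ 2 = 1 - (⟪u, toE n⟫ / √6) ^ 2 := by
    rw [← real_inner_self_eq_norm_sq, inner_tr, real_inner_self_eq_norm_sq, U.norm_map, hu, coord3 hU]
    ring
  rw [norm_smul, mul_pow, h1, Real.norm_eq_abs, sq_abs, sqrt3_sq]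
  have h6 := sqrt6_pos
  have h6q := sqrt6_sq
  field_simp
  rw [h6q]; ring

theorem LB_normalised (hU : U (toE n) = √6 • northPole) {x : E4} {b : ℝ}
    (hx : 2 * ‖x‖ ^ 2 - 3 * b ^ 2 = 1) :
    ‖√2 • tr (U x)‖ ^ 2 - (3 * b - ⟪x, toE n⟫) * (b + ⟪x, toE n⟫ / 3) = 1 := by
  have h1 : ‖tr (U x)‖ ^ 2 = ‖x‖ ^ 2 - (⟪x, toE n⟫ / √6) ^ 2 := by
    rw [← real_inner_self_eq_norm_sq, inner_tr, real_inner_self_eq_norm_sq, U.norm_map, coord3 hU]
    ring
  rw [norm_smul, mul_pow, h1, Real.norm_eq_abs, sq_abs, sqrt2_sq]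
  have h6 := sqrt6_pos
  have h6q := sqrt6_sq
  field_simp
  rw [h6q]
  linear_combination (18 : ℝ) * hx

/-- The action of the mirrors on the lattice balls. -/
theorem mirror_image (hU : U (toE n) = √6 • northPole) {u : E4} (hu : ‖u‖ ^ 2 = 1) (x : E4) (b t : ℝ)
    (ht : t = b - ⟪x, u⟫) :
    invOf ((6 - 3 * ⟪u, toE n⟫) / √6) ((2 + ⟪u, toE n⟫) / √6) (√3 • tr (U u)) '' LB U n x b =
      LB U n (x + (6 * t) • u) (b + 4 * t) := by
  have h6 := sqrt6_pos
  have h6q := sqrt6_sq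
  have hs : -(√6 * t) = ⟪√2 • tr (U x), √3 • tr (U u)⟫ -
      ((3 * b - ⟪x, toE n⟫) * ((2 + ⟪u, toE n⟫) / √6) +
        (b + ⟪x, toE n⟫ / 3) * ((6 - 3 * ⟪u, toE n⟫) / √6)) / 2 := by
    rw [real_inner_smul_left, real_inner_smul_right, inner_tr, U.inner_map_map, coord3 hU, coord3 hU,
      ← mul_assoc, sqrt_rel1, ht]
    field_simp
    rw [h6q]; ring
  rw [LB, invOf_image (mirror_normalised hU hu) _ _ _ _ hs, LB]
  congr 1
  · rw [inner_add_left, real_inner_smul_left]; field_simp; ring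
  · rw [inner_add_left, real_inner_smul_left]; field_simp; ring
  · rw [map_add, map_smul, tr_add, tr_smul, smul_add, smul_smul, smul_smul, sub_eq_add_neg, ← neg_smul]
    congr 2
    have : √(2 : ℝ) * √2 = 2 := Real.mul_self_sqrt (by norm_num)
    rw [← sqrt_rel1]
    have h3 : √(3 : ℝ) * √3 = 3 := Real.mul_self_sqrt (by norm_num)
    linear_combination (2 * t * √2) * h3

/-- Description of the polar. -/
theorem polar_vertices : (polarSet ((fun x => √(2 / 3) • U x) '' std24Cell)).extremePoints ℝ =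
    (fun x => (√(2 / 3))⁻¹ • U x) '' dualV := by
  have hc := c0_pos
  have h1 : polarSet ((fun x => √(2 / 3) • U x) '' std24Cell) = (fun x => (√(2 / 3))⁻¹ • U x) '' WW := by
    ext w
    constructor
    · intro hw
      refine ⟨√(2 / 3) • U.symm w, ?_, ?_⟩
      · intro v hv
        have := hw _ ⟨v, subset_convexHull ℝ _ hv, rfl⟩
        simp only [real_inner_smul_left] at this
        rw [real_inner_smul_right]
        have e : ⟪v, U.symm w⟫ = ⟪U v, w⟫ := by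
          rw [← U.inner_map_map v, U.apply_symm_apply]
        rw [e]; exact this
      · simp only [map_smul, U.apply_symm_apply, smul_smul]
        rw [inv_mul_cancel₀ hc.ne', one_smul]
    · rintro ⟨w, hw, rfl⟩ _ ⟨x, hx, rfl⟩
      simp only [real_inner_smul_left, real_inner_smul_right, U.inner_map_map]
      rw [← mul_assoc, inv_mul_cancel₀ hc.ne', one_mul]
      have hconv : Convex ℝ {v : E4 | ⟪v, w⟫ ≤ 1} := by
        intro u hu v hv s t hs ht hst
        simp only [mem_ofPred_eq] at *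
        rw [inner_add_left, real_inner_smul_left, real_inner_smul_left]
        nlinarith
      exact convexHull_min (fun v hv => hw v hv) hconv hx
  rw [h1, image_sc _ (inv_ne_zero hc.ne'), ← image_extremePoints, extremePoints_WW]
  rfl

theorem mem_dilated_iff (hU : U (toE n) = √6 • northPole) {S : Set (OnePoint E3)} :
    S ∈ dilatedArrangement ((fun x => √(2 / 3) • U x) '' std24Cell) ↔
      ∃ a : Fin 4 → ℤ, ∑ i, a i ^ 2 = 2 ∧ S = LB U n (toE a) 1 := by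
  constructor
  · rintro ⟨T, ⟨v, hv, rfl⟩, rfl⟩
    rw [vertices_image c0_pos.ne'] at hv
    obtain ⟨x, hx, rfl⟩ := hv
    obtain ⟨a, ha, rfl⟩ := mem_stdVertices.1 hx
    exact ⟨a, ha, member_eq hU _⟩
  · rintro ⟨a, ha, rfl⟩
    refine ⟨_, ⟨√(2 / 3) • U (toE a), ?_, rfl⟩, (member_eq hU _).symm⟩
    rw [vertices_image c0_pos.ne']
    exact ⟨_, mem_stdVertices.2 ⟨a, ha, rfl⟩, rfl⟩

theorem mem_dilated_polar_iff (hU : U (toE n) = √6 • northPole) {S : Set (OnePoint E3)} :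
    S ∈ dilatedArrangement (polarSet ((fun x => √(2 / 3) • U x) '' std24Cell)) ↔
      ∃ u ∈ dualV, S = G ((6 - 3 * ⟪u, toE n⟫) / √6) ((2 + ⟪u, toE n⟫) / √6) (√3 • tr (U u)) := by
  constructor
  · rintro ⟨T, ⟨v, hv, rfl⟩, rfl⟩
    rw [polar_vertices] at hv
    obtain ⟨u, hu, rfl⟩ := hv
    exact ⟨u, hu, mirror_eq hU _⟩
  · rintro ⟨u, hu, rfl⟩
    refine ⟨_, ⟨(√(2 / 3))⁻¹ • U u, ?_, rfl⟩, (mirror_eq hU _).symm⟩
    rw [polar_vertices]
    exact ⟨_, hu, rfl⟩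

theorem even_inner {a w : Fin 4 → ℤ} (hw : ∑ i, w i ^ 2 = 4) (ha : (2 : ℤ) ∣ ∑ i, a i) :
    (2 : ℤ) ∣ ∑ i, a i * w i := by
  have hcase : (∀ i, (2 : ℤ) ∣ w i) ∨ (∀ i, (2 : ℤ) ∣ w i - 1) := by
    rw [Fin.sum_univ_four] at hw
    have hp : ∀ i, ∃ v : ℤ, (w i = 2 * v ∧ w i ^ 2 = 4 * (v * v)) ∨ (w i = 2 * v + 1 ∧ w i ^ 2 = 4 * (v * v + v) + 1) := by
      intro i
      rcases Int.even_or_odd' (w i) with ⟨v, hv | hv⟩
      · exact ⟨v, Or.inl ⟨hv, by rw [hv]; ring⟩⟩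
      · exact ⟨v, Or.inr ⟨hv, by rw [hv]; ring⟩⟩
    obtain ⟨v0, h0⟩ := hp 0
    obtain ⟨v1, h1⟩ := hp 1
    obtain ⟨v2, h2⟩ := hp 2
    obtain ⟨v3, h3⟩ := hp 3
    rcases h0 with ⟨e0, s0⟩ | ⟨e0, s0⟩ <;> rcases h1 with ⟨e1, s1⟩ | ⟨e1, s1⟩ <;>
      rcases h2 with ⟨e2, s2⟩ | ⟨e2, s2⟩ <;> rcases h3 with ⟨e3, s3⟩ | ⟨e3, s3⟩ <;>
      rw [s0, s1, s2, s3] at hw <;>
      first
        | (exfalso; omega)
        | (left; intro i; fin_cases i <;> simp <;> omega)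
        | (right; intro i; fin_cases i <;> simp <;> omega)
  rcases hcase with h | h
  · exact Finset.dvd_sum (fun i _ => Dvd.dvd.mul_left (h i) _)
  · have e : ∑ i, a i * w i = ∑ i, a i + ∑ i, a i * (w i - 1) := by
      rw [← Finset.sum_add_distrib]; congr 1; funext i; ring
    rw [e]
    exact dvd_add ha (Finset.dvd_sum (fun i _ => Dvd.dvd.mul_left (h i) _))

/-- The generators act on lattice balls. -/
theorem gen_action (hU : U (toE n) = √6 • northPole) {S : Set (OnePoint E3)} {f : OnePoint E3 → OnePoint E3}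
    (hS : S ∈ dilatedArrangement (polarSet ((fun x => √(2 / 3) • U x) '' std24Cell)))
    (hf : IsInversionIn S f) : Function.Involutive f ∧ ∀ (a : Fin 4 → ℤ) (b : ℤ), Orb a b →
      ∃ (a' : Fin 4 → ℤ) (b' : ℤ), Orb a' b' ∧ f '' LB U n (toE a) b = LB U n (toE a') b' := by
  obtain ⟨u, ⟨w, hw, rfl⟩, rfl⟩ := (mem_dilated_polar_iff hU).1 hS
  have hu : ‖(1 / 2 : ℝ) • toE w‖ ^ 2 = 1 := by
    rw [norm_of_mem_dualV ⟨w, hw, rfl⟩]; norm_num
  rw [isInversionIn_G (mirror_normalised hU hu)] at hf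
  refine ⟨by rw [hf]; exact invOf_involutive (mirror_normalised hU hu), ?_⟩
  intro a b hab
  -- parity of the inner product
  obtain ⟨h1, _, _⟩ := hab.inv
  have hev : (2 : ℤ) ∣ ∑ i, a i * w i := even_inner hw h1
  obtain ⟨r, hr⟩ := hev
  refine ⟨_, _, Orb.step a b w (b - r) hw (by rw [hr]; ring) hab, ?_⟩
  rw [hf, mirror_image hU hu (toE a) b ((b - r : ℤ) : ℝ) (by
    rw [real_inner_smul_right, inner_toE, hr]; push_cast; ring)]
  congr 1
  · apply ext4 <;> simp <;> ring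
  · push_cast; ring

/-- Every member of the packing is a lattice ball of the orbit. -/
theorem packing_sub (hU : U (toE n) = √6 • northPole) {T : Set (OnePoint E3)}
    (hT : T ∈ apollonianPacking ((fun x => √(2 / 3) • U x) '' std24Cell)) :
    ∃ (a : Fin 4 → ℤ) (b : ℤ), Orb a b ∧ T = LB U n (toE a) b := by
  obtain ⟨g, hg, S, hS, rfl⟩ := hT
  have key : (∀ (a : Fin 4 → ℤ) (b : ℤ), Orb a b → ∃ (a' : Fin 4 → ℤ) (b' : ℤ), Orb a' b' ∧
      g '' LB U n (toE a) b = LB U n (toE a') b') ∧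
      (∀ (a : Fin 4 → ℤ) (b : ℤ), Orb a b → ∃ (a' : Fin 4 → ℤ) (b' : ℤ), Orb a' b' ∧
      (g⁻¹ : Equiv.Perm (OnePoint E3)) '' LB U n (toE a) b = LB U n (toE a') b') := by
    induction hg using Subgroup.closure_induction with
    | mem g hg =>
      obtain ⟨S, hS, hf⟩ := hg
      obtain ⟨hinv, hact⟩ := gen_action hU hS hf
      refine ⟨hact, ?_⟩
      have : ((g⁻¹ : Equiv.Perm (OnePoint E3)) : OnePoint E3 → OnePoint E3) = ⇑g := by
        funext P
        rw [Equiv.Perm.inv_eq_iff_eq]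
        exact (hinv P).symm
      rw [this]
      exact hact
    | one =>
      constructor
      · intro a b h; exact ⟨a, b, h, by simp⟩
      · intro a b h; exact ⟨a, b, h, by simp⟩
    | mul x y _ _ hx hy =>
      constructor
      · intro a b h
        obtain ⟨a1, b1, h1, e1⟩ := hy.1 a b h
        obtain ⟨a2, b2, h2, e2⟩ := hx.1 a1 b1 h1
        refine ⟨a2, b2, h2, ?_⟩
        rw [← e2, ← e1, Equiv.Perm.coe_mul, image_comp]
      · intro a b h
        obtain ⟨a1, b1, h1, e1⟩ := hx.2 a b h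
        obtain ⟨a2, b2, h2, e2⟩ := hy.2 a1 b1 h1
        refine ⟨a2, b2, h2, ?_⟩
        rw [← e2, ← e1, mul_inv_rev, Equiv.Perm.coe_mul, image_comp]
    | inv x _ hx => exact ⟨hx.2, by rw [inv_inv]; exact hx.1⟩
  obtain ⟨a, ha, rfl⟩ := (mem_dilated_iff hU).1 hS
  obtain ⟨a', b', h1, h2⟩ := key.1 a 1 (Orb.base a ha)
  exact ⟨a', b', h1, by rw [← h2]; simp⟩

/-- Every lattice ball of the orbit is a member of the packing. -/
theorem packing_sup (hU : U (toE n) = √6 • northPole) {a : Fin 4 → ℤ} {b : ℤ} (h : Orb a b) :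
    LB U n (toE a) b ∈ apollonianPacking ((fun x => √(2 / 3) • U x) '' std24Cell) := by
  induction h with
  | base a ha =>
    exact ⟨1, one_mem _, _, (mem_dilated_iff hU).2 ⟨a, ha, rfl⟩, by simp⟩
  | step a b w t hw ht h ih =>
    obtain ⟨g, hg, S, hS, hT⟩ := ih
    have hu : ‖(1 / 2 : ℝ) • toE w‖ ^ 2 = 1 := by
      rw [norm_of_mem_dualV ⟨w, hw, rfl⟩]; norm_num
    have hnorm := mirror_normalised hU hu
    have hinv := invOf_involutive hnorm
    have hmem : hinv.toPerm ∈ apollonianGroup ((fun x => √(2 / 3) • U x) '' std24Cell) := by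
      apply Subgroup.subset_closure
      exact ⟨_, (mem_dilated_polar_iff hU).2 ⟨_, ⟨w, hw, rfl⟩, rfl⟩, (isInversionIn_G hnorm _).2 rfl⟩
    refine ⟨hinv.toPerm * g, mul_mem hmem hg, S, hS, ?_⟩
    rw [Equiv.Perm.coe_mul, image_comp, ← hT]
    have := mirror_image hU hu (toE a) b t (by
      rw [real_inner_smul_right, inner_toE]
      have : ((2 * t : ℤ) : ℝ) = ((2 * b - ∑ i, a i * w i : ℤ) : ℝ) := by rw [ht]
      push_cast at this ⊢
      linarith)
    rw [Function.Involutive.coe_toPerm, this]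
    congr 1
    · apply ext4 <;> simp <;> ring
    · push_cast; ring

end

end Pool.Agent.H30.Apollo24
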