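import Pool.Agent.H30.Apollo24.Poly

set_option autoImplicit false

namespace Pool.Agent.H30.Apollo24

open scoped RealInnerProductSpace OnePoint
open Set

/-- The polar of the standard vertex set. -/
def WW : Set E4 := {w | ∀ v ∈ stdVertices, ⟪v, w⟫ ≤ 1}

theorem mem_WW {w : E4} : w ∈ WW ↔ ∀ i j : Fin 4, i ≠ j → |w i| + |w j| ≤ 1 := by
  constructor
  · intro h i j hij
    have key : ∀ s r : ℤ, s ^ 2 = 1 → r ^ 2 = 1 → (s : ℝ) * w i + (r : ℝ) * w j ≤ 1 := by
      intro s r hs hr
      set a : Fin 4 → ℤ := fun k => if k = i then s else if k = j then r else 0 with ha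
      have ha2 : ∑ k, a k ^ 2 = 2 := by
        rw [ha]
        revert i j hij
        simp only [Fin.sum_univ_four]
        intro i j hij
        fin_cases i <;> fin_cases j <;> simp [hs, hr] at hij ⊢
      have h1 := h (toE a) (mem_stdVertices.2 ⟨a, ha2, rfl⟩)
      rw [inner4] at h1
      simp only [toE_apply, ha] at h1
      clear ha2 ha
      clear a
      revert h1
      fin_cases i <;> fin_cases j <;> simp at hij ⊢ <;> (intro h1; linarith)
    rcases abs_cases (w i) with ⟨h1, _⟩ | ⟨h1, _⟩ <;> rcases abs_cases (w j) with ⟨h2, _⟩ | ⟨h2, _⟩ <;>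
      rw [h1, h2]
    · simpa using key 1 1 (by norm_num) (by norm_num)
    · simpa using key 1 (-1) (by norm_num) (by norm_num)
    · simpa using key (-1) 1 (by norm_num) (by norm_num)
    · simpa using key (-1) (-1) (by norm_num) (by norm_num)
  · intro h v hv
    obtain ⟨a, ha, rfl⟩ := mem_stdVertices.1 hv
    rw [inner4]
    simp only [toE_apply]
    rw [Fin.sum_univ_four] at ha
    have hm : ∀ i, a i ^ 2 = 0 ∨ a i ^ 2 = 1 := by
      intro i
      have h0 : a i ^ 2 ≤ 2 := by
        fin_cases i <;> simp <;> nlinarith [sq_nonneg (a 0), sq_nonneg (a 1), sq_nonneg (a 2), sq_nonneg (a 3)]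
      have h1 : a i ≤ 1 := by nlinarith
      have h2 : -1 ≤ a i := by nlinarith
      interval_cases (a i) <;> simp
    have hb : ∀ i, (a i : ℝ) * w i ≤ ((a i ^ 2 : ℤ) : ℝ) * |w i| := by
      intro i
      have h3 : (a i : ℝ) * w i ≤ |(a i : ℝ)| * |w i| := by
        rw [← abs_mul]; exact le_abs_self _
      have h4 : |(a i : ℝ)| = ((a i ^ 2 : ℤ) : ℝ) := by
        rcases hm i with h | h
        · have : a i = 0 := by simpa using h
          rw [this]; simp
        · rcases sq_eq_sq_iff_eq_or_eq_neg.1 (show a i ^ 2 = 1 ^ 2 by rw [h]; norm_num) with h | h <;>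
            rw [h] <;> simp
      rw [h4] at h3
      exact h3
    have q01 := h 0 1 (by decide)
    have q02 := h 0 2 (by decide)
    have q03 := h 0 3 (by decide)
    have q12 := h 1 2 (by decide)
    have q13 := h 1 3 (by decide)
    have q23 := h 2 3 (by decide)
    have b0 := hb 0
    have b1 := hb 1
    have b2 := hb 2
    have b3 := hb 3
    rcases hm 0 with m0 | m0 <;> rcases hm 1 with m1 | m1 <;> rcases hm 2 with m2 | m2 <;>
      rcases hm 3 with m3 | m3 <;> rw [m0, m1, m2, m3] at ha <;> rw [m0] at b0 <;> rw [m1] at b1 <;>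
      rw [m2] at b2 <;> rw [m3] at b3 <;> first | (exfalso; omega) | (push_cast at b0 b1 b2 b3; linarith)

/-- The doubled dual vertices. -/
def dualV : Set E4 := {x | ∃ u : Fin 4 → ℤ, ∑ i, u i ^ 2 = 4 ∧ x = (1 / 2 : ℝ) • toE u}

theorem dualV_subset : dualV ⊆ WW := by
  rintro _ ⟨u, hu, rfl⟩ v hv
  obtain ⟨a, ha, rfl⟩ := mem_stdVertices.1 hv
  rw [real_inner_smul_right, inner_toE]
  have hcs : (∑ i, a i * u i) ^ 2 ≤ (∑ i, a i ^ 2) * ∑ i, u i ^ 2 :=
    Finset.sum_mul_sq_le_sq_mul_sq _ _ _
  rw [ha, hu] at hcs
  have h2 : ∑ i, a i * u i ≤ 2 := by nlinarith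
  have h3 : ((∑ i, a i * u i : ℤ) : ℝ) ≤ 2 := by exact_mod_cast h2
  linarith

theorem WW_subset_ball : WW ⊆ Metric.closedBall (0 : E4) 1 := by
  intro w hw
  rw [mem_closedBall_zero_iff]
  rw [mem_WW] at hw
  have h : ‖w‖ ^ 2 ≤ 1 := by
    rw [norm_sq4]
    have q01 := hw 0 1 (by decide)
    have q02 := hw 0 2 (by decide)
    have q03 := hw 0 3 (by decide)
    have q12 := hw 1 2 (by decide)
    have q13 := hw 1 3 (by decide)
    have q23 := hw 2 3 (by decide)
    rw [← sq_abs (w 0), ← sq_abs (w 1), ← sq_abs (w 2), ← sq_abs (w 3)]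
    have p0 := abs_nonneg (w 0)
    have p1 := abs_nonneg (w 1)
    have p2 := abs_nonneg (w 2)
    have p3 := abs_nonneg (w 3)
    generalize |w 0| = y0 at *
    generalize |w 1| = y1 at *
    generalize |w 2| = y2 at *
    generalize |w 3| = y3 at *
    have main : ∀ a b c d : ℝ, 0 ≤ a → 0 ≤ b → 0 ≤ c → 0 ≤ d → 1 / 2 < a → a + b ≤ 1 →
        a + c ≤ 1 → a + d ≤ 1 → a ^ 2 + b ^ 2 + c ^ 2 + d ^ 2 ≤ 1 := by
      intro a b c d ha hb hc hd h12 hab hac had
      have ha1 : a ≤ 1 := by linarith
      have e1 : b ^ 2 ≤ (1 - a) ^ 2 := pow_le_pow_left₀ hb (by linarith) 2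
      have e2 : c ^ 2 ≤ (1 - a) ^ 2 := pow_le_pow_left₀ hc (by linarith) 2
      have e3 : d ^ 2 ≤ (1 - a) ^ 2 := pow_le_pow_left₀ hd (by linarith) 2
      nlinarith
    by_cases c0 : 1 / 2 < y0
    · exact main y0 y1 y2 y3 p0 p1 p2 p3 c0 q01 q02 q03
    by_cases c1 : 1 / 2 < y1
    · have := main y1 y0 y2 y3 p1 p0 p2 p3 c1 (by linarith) q12 q13
      linarith
    by_cases c2 : 1 / 2 < y2
    · have := main y2 y0 y1 y3 p2 p0 p1 p3 c2 (by linarith) (by linarith) q23
      linarith
    by_cases c3 : 1 / 2 < y3
    · have := main y3 y0 y1 y2 p3 p0 p1 p2 c3 (by linarith) (by linarith) (by linarith)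
      linarith
    push Not at c0 c1 c2 c3
    have e0 : y0 ^ 2 ≤ (1 / 2) ^ 2 := pow_le_pow_left₀ p0 c0 2
    have e1 : y1 ^ 2 ≤ (1 / 2) ^ 2 := pow_le_pow_left₀ p1 c1 2
    have e2 : y2 ^ 2 ≤ (1 / 2) ^ 2 := pow_le_pow_left₀ p2 c2 2
    have e3 : y3 ^ 2 ≤ (1 / 2) ^ 2 := pow_le_pow_left₀ p3 c3 2
    linarith
  exact le_of_sq_le_sq (by rw [one_pow]; exact h) (by norm_num)

theorem norm_of_mem_dualV {x : E4} (h : x ∈ dualV) : ‖x‖ = 1 := by
  obtain ⟨u, hu, rfl⟩ := h
  have : ‖(1 / 2 : ℝ) • toE u‖ ^ 2 = 1 := by
    rw [norm_smul, mul_pow, norm_sq_toE, hu]; norm_num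
  exact (pow_eq_one_iff_of_nonneg (norm_nonneg _) two_ne_zero).1 this

theorem not_extreme {w d : E4} {δ : ℝ} (hδ : 0 < δ) (hd : d ≠ 0) (h1 : w + δ • d ∈ WW)
    (h2 : w - δ • d ∈ WW) : w ∉ WW.extremePoints ℝ := by
  intro h
  have h3 : w ∈ openSegment ℝ (w + δ • d) (w - δ • d) :=
    ⟨1 / 2, 1 / 2, by norm_num, by norm_num, by norm_num, by module⟩
  have h4 := h.2 h1 h2 h3
  have h5 : δ • d = 0 := by
    have : w + δ • d = w + 0 := by rw [h4, add_zero]
    exact add_left_cancel this
  rcases smul_eq_zero.1 h5 with h | h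
  · exact hδ.ne' h
  · exact hd h

theorem extremePoints_WW : WW.extremePoints ℝ = dualV := by
  apply Subset.antisymm
  · intro w hw
    have hwW := hw.1
    rw [mem_WW] at hwW
    by_cases hA : ∀ i, |w i| ≤ 1 / 2
    · -- all coordinates at most 1/2
      have hall : ∀ i, |w i| = 1 / 2 := by
        intro i
        by_contra hne
        have hlt : |w i| < 1 / 2 := lt_of_le_of_ne (hA i) hne
        have hmem : ∀ s : ℝ, |s| = 1 → w + (1 / 2 - |w i|) • (s • EuclideanSpace.single i (1 : ℝ)) ∈ WW := by
          intro s hs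
          rw [mem_WW]
          have hc : ∀ j, |(w + (1 / 2 - |w i|) • (s • EuclideanSpace.single i (1 : ℝ)) : E4) j| ≤ 1 / 2 := by
            intro j
            by_cases hj : j = i
            · subst hj
              simp only [PiLp.add_apply, PiLp.smul_apply, smul_eq_mul, PiLp.single_apply,
                if_true, mul_one]
              calc |w j + (1 / 2 - |w j|) * s| ≤ |w j| + |(1 / 2 - |w j|) * s| := abs_add_le _ _
                _ = |w j| + (1 / 2 - |w j|) := by rw [abs_mul, hs, mul_one, abs_of_pos (sub_pos.2 hlt)]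
                _ = 1 / 2 := by ring
            · simp only [PiLp.add_apply, PiLp.smul_apply, smul_eq_mul, PiLp.single_apply,
                if_neg hj, mul_zero, add_zero]
              exact hA j
          intro j k _
          linarith [hc j, hc k]
        have h1 := hmem 1 (by norm_num)
        have h2 := hmem (-1) (by norm_num)
        rw [one_smul] at h1
        have e : w + (1 / 2 - |w i|) • ((-1 : ℝ) • EuclideanSpace.single i (1 : ℝ)) =
            w - (1 / 2 - |w i|) • EuclideanSpace.single i (1 : ℝ) := by module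
        rw [e] at h2
        refine not_extreme (by linarith : 0 < 1 / 2 - |w i|) ?_ h1 h2 hw
        intro h0
        have := congrArg (fun v : E4 => v i) h0
        simp at this
      refine ⟨fun i => if 0 ≤ w i then 1 else -1, ?_, ?_⟩
      · have : ∀ i : Fin 4, (if 0 ≤ w i then (1 : ℤ) else -1) ^ 2 = 1 := by
          intro i; split_ifs <;> norm_num
        simp [this]
      · have : ∀ i : Fin 4, w i = (1 / 2 : ℝ) * (((if 0 ≤ w i then (1 : ℤ) else -1) : ℤ) : ℝ) := by
          intro i
          have := hall i
          split_ifs with h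
          · rw [abs_of_nonneg h] at this; rw [this]; norm_num
          · rw [abs_of_neg (not_le.1 h)] at this; push_cast; linarith
        apply ext4 <;> simp only [PiLp.smul_apply, smul_eq_mul, toE_apply] <;> exact this _
    · -- some coordinate larger than 1/2
      push Not at hA
      obtain ⟨i, hi⟩ := hA
      have hj : ∀ j, j ≠ i → |w j| ≤ 1 - |w i| := by
        intro j hj
        have := hwW j i hj
        linarith
      have hi1 : |w i| ≤ 1 := by
        obtain ⟨j, hj'⟩ := exists_ne i
        have := hj j hj'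
        have := abs_nonneg (w j)
        linarith
      rcases hi1.lt_or_eq with hlt | heq
      · exfalso
        set M := |w i| with hM
        have hMpos : 0 < M := by linarith
        have h1M : 0 < 1 - M := by linarith
        set d : E4 := WithLp.toLp 2 (fun j => if j = i then w i / M else -(w j) / (1 - M)) with hd
        have hdi : d i = w i / M := by simp [hd]
        have hdj : ∀ j, j ≠ i → d j = -(w j) / (1 - M) := by
          intro j hj; simp [hd, hj]
        set δ := min (1 - M) (M - 1 / 2) with hδ
        have hδpos : 0 < δ := lt_min h1M (by linarith)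
        have hδ1 : δ ≤ 1 - M := min_le_left _ _
        have hδ2 : δ ≤ M - 1 / 2 := min_le_right _ _
        have hmem : ∀ s : ℝ, |s| ≤ δ → w + s • d ∈ WW := by
          intro s hs
          obtain ⟨hs1, hs2⟩ := abs_le.1 hs
          rw [mem_WW]
          have ci : |(w + s • d : E4) i| ≤ M + s := by
            simp only [PiLp.add_apply, PiLp.smul_apply, smul_eq_mul, hdi]
            have : w i + s * (w i / M) = w i * ((M + s) / M) := by field_simp
            rw [this, abs_mul, abs_div, abs_of_pos hMpos, abs_of_nonneg (by linarith : 0 ≤ M + s), ← hM]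
            rw [mul_div_cancel₀ _ hMpos.ne']
          have cj : ∀ j, j ≠ i → |(w + s • d : E4) j| ≤ 1 - M - s := by
            intro j hj'
            simp only [PiLp.add_apply, PiLp.smul_apply, smul_eq_mul, hdj j hj']
            have : w j + s * (-(w j) / (1 - M)) = w j * ((1 - M - s) / (1 - M)) := by field_simp; ring
            rw [this, abs_mul, abs_div, abs_of_pos h1M, abs_of_nonneg (by linarith : 0 ≤ 1 - M - s)]
            have h5 := hj j hj'
            have h6 : 0 ≤ (1 - M - s) / (1 - M) := div_nonneg (by linarith) h1M.le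
            calc |w j| * ((1 - M - s) / (1 - M)) ≤ (1 - M) * ((1 - M - s) / (1 - M)) :=
                  mul_le_mul_of_nonneg_right h5 h6
              _ = 1 - M - s := by field_simp
          intro j k hjk
          by_cases hji : j = i
          · subst hji
            have := cj k (Ne.symm hjk)
            linarith
          · by_cases hki : k = i
            · subst hki
              have := cj j hji
              linarith
            · have h7 := cj j hji
              have h8 := cj k hki
              linarith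
        have h1 := hmem δ (by rw [abs_of_pos hδpos])
        have h2 := hmem (-δ) (by rw [abs_neg, abs_of_pos hδpos])
        rw [neg_smul, ← sub_eq_add_neg] at h2
        refine not_extreme hδpos ?_ h1 h2 hw
        intro h0
        have h9 : d i = 0 := by rw [h0]; rfl
        rw [hdi, div_eq_zero_iff] at h9
        rcases h9 with h9 | h9
        · rw [h9, abs_zero] at hM; linarith
        · linarith
      · -- |w i| = 1
        have hj0 : ∀ j, j ≠ i → w j = 0 := by
          intro j hj'
          have := hj j hj'
          rw [heq, sub_self] at this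
          exact abs_eq_zero.1 (le_antisymm this (abs_nonneg _))
        refine ⟨fun j => if j = i then (if 0 ≤ w i then 2 else -2) else 0, ?_, ?_⟩
        · have : ∀ j : Fin 4, (if j = i then (if 0 ≤ w i then (2 : ℤ) else -2) else 0) ^ 2 =
              if j = i then 4 else 0 := by
            intro j; split_ifs <;> norm_num
          simp [this]
        · have : ∀ j : Fin 4, w j = (1 / 2 : ℝ) *
              (((if j = i then (if 0 ≤ w i then (2 : ℤ) else -2) else 0) : ℤ) : ℝ) := by
            intro j
            by_cases hji : j = i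
            · subst hji
              rw [if_pos rfl]
              split_ifs with h
              · rw [abs_of_nonneg h] at heq; rw [heq]; norm_num
              · rw [abs_of_neg (not_le.1 h)] at heq; push_cast; linarith
            · rw [if_neg hji, hj0 j hji]; simp
          apply ext4 <;> simp only [PiLp.smul_apply, smul_eq_mul, toE_apply] <;> exact this _
  · intro x hx
    apply inter_extremePoints_subset_extremePoints_of_subset WW_subset_ball
    refine ⟨dualV_subset hx, ?_⟩
    rw [StrictConvexSpace.extremePoints_closedBall_eq_sphere]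
    rw [mem_sphere_zero_iff_norm]
    exact norm_of_mem_dualV hx

end Pool.Agent.H30.Apollo24
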