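import Pool.Agent.H30.Apollo24.Stereo

set_option autoImplicit false

namespace Pool.Agent.H30.Apollo24

open scoped RealInnerProductSpace OnePoint
open Set

/-- Integer vectors in `E4`. -/
noncomputable def toE (a : Fin 4 → ℤ) : E4 := WithLp.toLp 2 (fun i => (a i : ℝ))

@[simp] theorem toE_apply (a : Fin 4 → ℤ) (i : Fin 4) : toE a i = (a i : ℝ) := rfl

theorem inner_toE (a b : Fin 4 → ℤ) : ⟪toE a, toE b⟫ = ((∑ i, a i * b i : ℤ) : ℝ) := by
  rw [inner4, Fin.sum_univ_four]; push_cast; simp only [toE_apply]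

theorem norm_sq_toE (a : Fin 4 → ℤ) : ‖toE a‖ ^ 2 = ((∑ i, a i ^ 2 : ℤ) : ℝ) := by
  rw [norm_sq4, Fin.sum_univ_four]; push_cast; simp only [toE_apply]

theorem toE_add (a b : Fin 4 → ℤ) : toE (a + b) = toE a + toE b := by
  apply ext4 <;> simp

theorem toE_neg (a : Fin 4 → ℤ) : toE (-a) = -toE a := by
  apply ext4 <;> simp

theorem toE_injective : Function.Injective toE := by
  intro a b h
  funext i
  have := congrArg (fun v : E4 => v i) h
  simpa using this

theorem mem_stdVertices {x : E4} : x ∈ stdVertices ↔ ∃ a : Fin 4 → ℤ, ∑ i, a i ^ 2 = 2 ∧ x = toE a := by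
  constructor
  · rintro ⟨h1, h2⟩
    choose a ha using h1
    have hx : x = toE a := by
      apply ext4 <;> simp [ha]
    refine ⟨a, ?_, hx⟩
    rw [hx, norm_sq_toE] at h2
    exact_mod_cast h2
  · rintro ⟨a, ha, rfl⟩
    refine ⟨fun i => ⟨a i, rfl⟩, ?_⟩
    rw [norm_sq_toE, ha]; norm_num

theorem norm_of_mem_stdVertices {x : E4} (h : x ∈ stdVertices) : ‖x‖ = √2 := by
  rw [← h.2, Real.sqrt_sq (norm_nonneg _)]

theorem std24Cell_subset_ball : std24Cell ⊆ Metric.closedBall (0 : E4) √2 := by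
  apply convexHull_min _ (convex_closedBall _ _)
  intro x hx
  rw [mem_closedBall_zero_iff, norm_of_mem_stdVertices hx]

theorem extremePoints_std : std24Cell.extremePoints ℝ = stdVertices := by
  apply Subset.antisymm extremePoints_convexHull_subset
  intro x hx
  apply inter_extremePoints_subset_extremePoints_of_subset std24Cell_subset_ball
  refine ⟨subset_convexHull ℝ _ hx, ?_⟩
  rw [StrictConvexSpace.extremePoints_closedBall_eq_sphere]
  · rw [mem_sphere_zero_iff_norm]
    exact norm_of_mem_stdVertices hx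

theorem inner_le_two_of_ne {a b σ : Fin 4 → ℤ} (ha : ∑ i, a i ^ 2 = 2) (hb : ∑ i, b i ^ 2 = 2)
    (hσ : ∑ i, σ i ^ 2 = 2) (h1 : σ ≠ a) (h2 : σ ≠ b) :
    ∑ i, σ i * (a i + b i) ≤ 2 := by
  have key : ∀ c : Fin 4 → ℤ, ∑ i, c i ^ 2 = 2 → σ ≠ c → ∑ i, σ i * c i ≤ 1 := by
    intro c hc hne
    by_contra hcon
    push Not at hcon
    apply hne
    have h0 : ∑ i, (σ i - c i) ^ 2 ≤ 0 := by
      have : ∑ i, (σ i - c i) ^ 2 = ∑ i, σ i ^ 2 + ∑ i, c i ^ 2 - 2 * ∑ i, σ i * c i := by
        simp only [Fin.sum_univ_four]; ring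
      rw [this, hσ, hc]
      linarith
    have h3 : ∀ i ∈ Finset.univ, (σ i - c i) ^ 2 = 0 :=
      (Finset.sum_eq_zero_iff_of_nonneg (fun i _ => sq_nonneg _)).1
        (le_antisymm h0 (Finset.sum_nonneg (fun i _ => sq_nonneg _)))
    funext i
    have := h3 i (Finset.mem_univ _)
    have : σ i - c i = 0 := by simpa using this
    linarith
  have e : ∑ i, σ i * (a i + b i) = ∑ i, σ i * a i + ∑ i, σ i * b i := by
    rw [← Finset.sum_add_distrib]; congr 1; funext i; ring
  rw [e]
  have := key a ha h1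
  have := key b hb h2
  linarith

/-- Points of the standard 24-cell maximising the functional given by an edge. -/
theorem std_max {a b : Fin 4 → ℤ} (ha : ∑ i, a i ^ 2 = 2) (hb : ∑ i, b i ^ 2 = 2)
    (hab : ∑ i, a i * b i = 1) {x : E4} (hx : x ∈ std24Cell) :
    ⟪x, toE a + toE b⟫ ≤ 3 ∧ (⟪x, toE a + toE b⟫ = 3 → x ∈ segment ℝ (toE a) (toE b)) := by
  set n : E4 := toE a + toE b with hn
  have hna : ⟪toE a, n⟫ = 3 := by
    rw [hn, inner_add_right, inner_toE, inner_toE]
    have : ∑ i, a i * a i = 2 := by rw [← ha]; congr 1; funext i; ring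
    rw [this, hab]; norm_num
  have hnb : ⟪toE b, n⟫ = 3 := by
    rw [hn, inner_add_right, inner_toE, inner_toE]
    have : ∑ i, b i * b i = 2 := by rw [← hb]; congr 1; funext i; ring
    have h2 : ∑ i, b i * a i = 1 := by rw [← hab]; congr 1; funext i; ring
    rw [this, h2]; norm_num
  set C2 : Set E4 := {z | ⟪z, n⟫ ≤ 2} with hC2
  have hconv : Convex ℝ C2 := by
    intro u hu v hv s t hs ht hst
    simp only [hC2, mem_ofPred_eq] at *
    rw [inner_add_left, real_inner_smul_left, real_inner_smul_left]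
    nlinarith
  have hsub : std24Cell ⊆ convexJoin ℝ (segment ℝ (toE a) (toE b)) C2 := by
    have h1 : stdVertices ⊆ {toE a, toE b} ∪ C2 := by
      intro y hy
      obtain ⟨σ, hσ, rfl⟩ := mem_stdVertices.1 hy
      by_cases h1 : σ = a
      · left; left; rw [h1]
      · by_cases h2 : σ = b
        · left; right; rw [h2]; rfl
        · right
          simp only [hC2, mem_ofPred_eq]
          rw [hn, ← toE_add, inner_toE]
          have := inner_le_two_of_ne ha hb hσ h1 h2
          exact_mod_cast this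
    have h2 : convexHull ℝ ({toE a, toE b} ∪ C2) = convexJoin ℝ (segment ℝ (toE a) (toE b)) C2 := by
      rw [convexHull_union ⟨_, mem_insert _ _⟩ ⟨0, by simp [hC2]⟩, convexHull_pair, hconv.convexHull_eq]
    rw [← h2]
    exact convexHull_mono h1
  obtain ⟨y, hy, z, hz, hxyz⟩ := mem_convexJoin.1 (hsub hx)
  obtain ⟨s, t, hs, ht, hst, rfl⟩ := hxyz
  have hyn : ⟪y, n⟫ = 3 := by
    obtain ⟨p, q, _, _, hpq, rfl⟩ := hy
    rw [inner_add_left, real_inner_smul_left, real_inner_smul_left, hna, hnb]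
    linear_combination (3 : ℝ) * hpq
  simp only [hC2, mem_ofPred_eq] at hz
  have e : ⟪s • y + t • z, n⟫ = 3 * s + t * ⟪z, n⟫ := by
    rw [inner_add_left, real_inner_smul_left, real_inner_smul_left, hyn]; ring
  rw [e]
  constructor
  · nlinarith
  · intro h
    have ht0 : t = 0 := by nlinarith
    have hs1 : s = 1 := by linarith
    rw [ht0, hs1, one_smul, zero_smul, add_zero]
    exact hy

theorem isEdge_of_adj {a b : Fin 4 → ℤ} (ha : ∑ i, a i ^ 2 = 2) (hb : ∑ i, b i ^ 2 = 2)
    (hab : ∑ i, a i * b i = 1) (c : ℝ) (hc : 0 < c) (U : E4 ≃ₗᵢ[ℝ] E4) (t : E4) :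
    IsEdge ((fun x => c • U x + t) '' std24Cell) (c • U (toE a) + t) (c • U (toE b) + t) := by
  constructor
  · intro h
    have h1 : c • U (toE a) = c • U (toE b) := add_right_cancel h
    have h2 : toE a = toE b := U.injective (smul_right_injective _ hc.ne' h1)
    have h3 := toE_injective h2
    subst h3
    have : ∑ i, a i * a i = 2 := by rw [← ha]; congr 1; funext i; ring
    omega
  · intro _
    refine ⟨innerSL ℝ (U (toE a + toE b)), ?_⟩
    have hl : ∀ x : E4, innerSL ℝ (U (toE a + toE b)) (c • U x + t) =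
        c * ⟪x, toE a + toE b⟫ + ⟪U (toE a + toE b), t⟫ := by
      intro x
      rw [innerSL_apply_apply, inner_add_right, real_inner_smul_right, U.inner_map_map, real_inner_comm x]
    have hA : toE a ∈ std24Cell := subset_convexHull ℝ _ (mem_stdVertices.2 ⟨a, ha, rfl⟩)
    have hB : toE b ∈ std24Cell := subset_convexHull ℝ _ (mem_stdVertices.2 ⟨b, hb, rfl⟩)
    have hna : ⟪toE a, toE a + toE b⟫ = 3 := by
      rw [inner_add_right, inner_toE, inner_toE]
      have : ∑ i, a i * a i = 2 := by rw [← ha]; congr 1; funext i; ring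
      rw [this, hab]; norm_num
    have hnb : ⟪toE b, toE a + toE b⟫ = 3 := by
      rw [inner_add_right, inner_toE, inner_toE]
      have : ∑ i, b i * b i = 2 := by rw [← hb]; congr 1; funext i; ring
      have h2 : ∑ i, b i * a i = 1 := by rw [← hab]; congr 1; funext i; ring
      rw [this, h2]; norm_num
    apply Subset.antisymm
    · rintro x ⟨p, q, hp, hq, hpq, rfl⟩
      have e : p • (c • U (toE a) + t) + q • (c • U (toE b) + t) = c • U (p • toE a + q • toE b) + t := by
        rw [map_add, map_smul, map_smul]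
        have : t = (p + q) • t := by rw [hpq, one_smul]
        conv_rhs => rw [this]
        module
      rw [e]
      refine ⟨⟨_, (convex_convexHull ℝ _) hA hB hp hq hpq, rfl⟩, ?_⟩
      rintro _ ⟨y, hy, rfl⟩
      simp only [hl]
      rw [inner_add_left, real_inner_smul_left, real_inner_smul_left, hna, hnb]
      have h3 := (std_max ha hb hab hy).1
      have : p * 3 + q * 3 = 3 := by linear_combination (3 : ℝ) * hpq
      rw [this]
      have := mul_le_mul_of_nonneg_left h3 hc.le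
      linarith
    · rintro _ ⟨⟨x, hx, rfl⟩, hmax⟩
      have h1 := hmax _ ⟨toE a, hA, rfl⟩
      simp only [hl] at h1
      rw [hna] at h1
      have h2 : ⟪x, toE a + toE b⟫ = 3 := by
        apply le_antisymm (std_max ha hb hab hx).1
        have : c * 3 ≤ c * ⟪x, toE a + toE b⟫ := by linarith
        exact le_of_mul_le_mul_left this hc
      obtain ⟨p, q, hp, hq, hpq, rfl⟩ := (std_max ha hb hab hx).2 h2
      refine ⟨p, q, hp, hq, hpq, ?_⟩
      show p • (c • U (toE a) + t) + q • (c • U (toE b) + t) = c • U (p • toE a + q • toE b) + t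
      rw [map_add, map_smul, map_smul]
      have : t = (p + q) • t := by rw [hpq, one_smul]
      conv_rhs => rw [this]
      module

/-- Tangency of an edge of `c • U (std) + t`. -/
theorem tangency {a b : Fin 4 → ℤ} (ha : ∑ i, a i ^ 2 = 2) (hb : ∑ i, b i ^ 2 = 2)
    (hab : ∑ i, a i * b i = 1) {c : ℝ} (hc : 0 < c) {U : E4 ≃ₗᵢ[ℝ] E4} {t : E4}
    (h : IsEdgeScribed ((fun x => c • U x + t) '' std24Cell)) :
    3 / 2 * c ^ 2 - ⟪toE b - toE a, U.symm t⟫ ^ 2 / 2 + c * ⟪toE a + toE b, U.symm t⟫ + ‖U.symm t‖ ^ 2 = 1 := by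
  obtain ⟨x, ⟨p, q, hp, hq, hpq, rfl⟩, hx1, hx2⟩ := h _ _ (isEdge_of_adj ha hb hab c hc U t)
  have hp' : p = 1 - q := by linarith
  have e : p • (c • U (toE a) + t) + q • (c • U (toE b) + t) =
      U (c • (toE a + q • (toE b - toE a)) + U.symm t) := by
    rw [map_add, U.apply_symm_apply, map_smul, map_add, map_smul, map_sub, hp']
    module
  have e2 : c • U (toE b) + t - (c • U (toE a) + t) = U (c • (toE b - toE a)) := by
    rw [map_smul, map_sub]; module
  rw [e, U.norm_map] at hx1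
  rw [e, e2, U.inner_map_map] at hx2
  set T := U.symm t with hT
  set A := toE a with hA
  set B := toE b with hB
  have hAA : ⟪A, A⟫ = 2 := by
    rw [hA, inner_toE]
    have : ∑ i, a i * a i = 2 := by rw [← ha]; congr 1; funext i; ring
    rw [this]; norm_num
  have hBB : ⟪B, B⟫ = 2 := by
    rw [hB, inner_toE]
    have : ∑ i, b i * b i = 2 := by rw [← hb]; congr 1; funext i; ring
    rw [this]; norm_num
  have hAB : ⟪A, B⟫ = 1 := by rw [hA, hB, inner_toE, hab]; norm_num
  have hBA : ⟪B, A⟫ = 1 := by rw [real_inner_comm]; exact hAB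
  have hTA : ⟪T, A⟫ = ⟪A, T⟫ := real_inner_comm _ _
  have hTB : ⟪T, B⟫ = ⟪B, T⟫ := real_inner_comm _ _
  have hTT : ⟪T, T⟫ = ‖T‖ ^ 2 := real_inner_self_eq_norm_sq _
  have hx1' : ⟪c • (A + q • (B - A)) + T, c • (A + q • (B - A)) + T⟫ = 1 := by
    rw [real_inner_self_eq_norm_sq, hx1]; norm_num
  simp only [inner_add_left, inner_add_right, inner_sub_left, inner_sub_right, real_inner_smul_left,
    real_inner_smul_right, hAA, hBB, hAB, hBA, hTA, hTB, hTT] at hx1' hx2
  simp only [inner_add_left, inner_sub_left]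
  have hx2' : c * (2 * q - 1) + (⟪B, T⟫ - ⟪A, T⟫) = 0 := by
    have : c * (c * (2 * q - 1) + (⟪B, T⟫ - ⟪A, T⟫)) = 0 := by linear_combination hx2
    exact (mul_eq_zero.1 this).resolve_left hc.ne'
  linear_combination hx1' + (-(c * (2 * q - 1) + (⟪B, T⟫ - ⟪A, T⟫)) / 2) * hx2'

theorem inner_sum_eq_zero {a b : Fin 4 → ℤ} (ha : ∑ i, a i ^ 2 = 2) (hb : ∑ i, b i ^ 2 = 2)
    (hab : ∑ i, a i * b i = 1) {c : ℝ} (hc : 0 < c) {U : E4 ≃ₗᵢ[ℝ] E4} {t : E4}
    (h : IsEdgeScribed ((fun x => c • U x + t) '' std24Cell)) :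
    ⟪toE a + toE b, U.symm t⟫ = 0 := by
  have h1 := tangency ha hb hab hc h
  have h2 := tangency (a := -a) (b := -b) (by simpa using ha) (by simpa using hb) (by simpa using hab) hc h
  rw [toE_neg, toE_neg] at h2
  have e1 : -toE b - -toE a = -(toE b - toE a) := by abel
  have e2 : -toE a + -toE b = -(toE a + toE b) := by abel
  rw [e1, e2, inner_neg_left, inner_neg_left] at h2
  have : c * ⟪toE a + toE b, U.symm t⟫ = 0 := by linear_combination (h1 - h2) / 2
  exact (mul_eq_zero.1 this).resolve_left hc.ne'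

theorem scribed_params {c : ℝ} (hc : 0 < c) {U : E4 ≃ₗᵢ[ℝ] E4} {t : E4}
    (h : IsEdgeScribed ((fun x => c • U x + t) '' std24Cell)) : t = 0 ∧ c ^ 2 = 2 / 3 := by
  have key : ∀ a b : Fin 4 → ℤ, ∑ i, a i ^ 2 = 2 → ∑ i, b i ^ 2 = 2 → ∑ i, a i * b i = 1 →
      ⟪toE a + toE b, U.symm t⟫ = 0 := fun a b ha hb hab => inner_sum_eq_zero ha hb hab hc h
  have k1 := key ![1, 1, 0, 0] ![1, 0, 1, 0] (by simp [Fin.sum_univ_four]) (by simp [Fin.sum_univ_four]) (by simp [Fin.sum_univ_four])
  have k2 := key ![1, -1, 0, 0] ![1, 0, -1, 0] (by simp [Fin.sum_univ_four]) (by simp [Fin.sum_univ_four]) (by simp [Fin.sum_univ_four])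
  have k3 := key ![1, 1, 0, 0] ![0, 1, 1, 0] (by simp [Fin.sum_univ_four]) (by simp [Fin.sum_univ_four]) (by simp [Fin.sum_univ_four])
  have k4 := key ![-1, 1, 0, 0] ![0, 1, -1, 0] (by simp [Fin.sum_univ_four]) (by simp [Fin.sum_univ_four]) (by simp [Fin.sum_univ_four])
  have k5 := key ![1, 0, 1, 0] ![0, 1, 1, 0] (by simp [Fin.sum_univ_four]) (by simp [Fin.sum_univ_four]) (by simp [Fin.sum_univ_four])
  have k6 := key ![-1, 0, 1, 0] ![0, -1, 1, 0] (by simp [Fin.sum_univ_four]) (by simp [Fin.sum_univ_four]) (by simp [Fin.sum_univ_four])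
  have k7 := key ![1, 0, 0, 1] ![0, 1, 0, 1] (by simp [Fin.sum_univ_four]) (by simp [Fin.sum_univ_four]) (by simp [Fin.sum_univ_four])
  have k8 := key ![-1, 0, 0, 1] ![0, -1, 0, 1] (by simp [Fin.sum_univ_four]) (by simp [Fin.sum_univ_four]) (by simp [Fin.sum_univ_four])
  set T := U.symm t with hT
  simp only [inner_add_left, inner4, toE_apply] at k1 k2 k3 k4 k5 k6 k7 k8
  simp at k1 k2 k3 k4 k5 k6 k7 k8
  have hT0 : T = 0 := by
    apply ext4 <;> simp <;> linarith
  have ht : t = 0 := by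
    have := congrArg U hT0
    rwa [hT, U.apply_symm_apply, map_zero] at this
  refine ⟨ht, ?_⟩
  have h1 := tangency (a := ![1, 1, 0, 0]) (b := ![1, 0, 1, 0]) (by simp [Fin.sum_univ_four]) (by simp [Fin.sum_univ_four]) (by simp [Fin.sum_univ_four]) hc h
  rw [← hT, hT0] at h1
  simp at h1
  linarith

end Pool.Agent.H30.Apollo24
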