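import Pool.Agent.H30.Apollo24.Flip

set_option autoImplicit false

namespace Pool.Agent.H30.Apollo24

open QuadraticAlgebra

theorem norm_two_mul_sum (B α γ α' γ' : Eis) (hB : B = α * star α' + 2 * (γ * star γ')) :
    (α.norm + 2 * γ.norm) * (α'.norm + 2 * γ'.norm) = B.norm + 2 * (α * γ' - γ * α').norm := by
  subst hB
  simp only [norm_eq, re_add, im_add, re_sub, im_sub, re_mul, im_mul, re_star, im_star, re_ofNat, im_ofNat]
  ring

theorem coprime_rep (m : ℕ) (hm : Odd m) :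
    ∃ α γ s t : Eis, α.norm + 2 * γ.norm = m ∧ s * α + t * γ = 1 := by
  obtain ⟨u, v, C, hC⟩ := exists_norm_add_two m hm
  obtain ⟨α, γ, α', γ', h1, h2, h3⟩ := class_number_one m ⟨u, v⟩ C hm.pos (by
    rw [norm_eq]; exact hC)
  have h4 := norm_two_mul_sum _ α γ α' γ' h3
  rw [← h1, ← h2, norm_eq] at h4
  simp only at h4
  rw [hC] at h4
  have h5 : (α * γ' - γ * α').norm = 1 := by linarith
  set D := α * γ' - γ * α' with hD
  have h6 : D * star D = 1 := by
    rw [← algebraMap_norm_eq_mul_star, h5]; simp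
  refine ⟨α, γ, γ' * star D, - α' * star D, h1.symm, ?_⟩
  rw [← h6, hD]; ring

/-- The content of the rank one Hermitian matrix divides `N(n)` if `n` is in the ideal. -/
theorem content_dvd (α γ s t : Eis) (n l : ℤ) (h : s * α + t * γ = (n : Eis))
    (h1 : l ∣ α.norm) (h2 : l ∣ γ.norm) (h3 : l ∣ (α * star γ).re) (h4 : l ∣ (α * star γ).im) :
    l ∣ n ^ 2 := by
  have key : n ^ 2 = s.norm * α.norm + t.norm * γ.norm +
      (2 * (s * star t).re - (s * star t).im) * (α * star γ).re -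
      ((s * star t).re + (s * star t).im) * (α * star γ).im := by
    have : n ^ 2 = (n : Eis).norm := by rw [norm_intCast]; simp
    rw [this, ← h]
    simp only [norm_eq, re_add, im_add, re_mul, im_mul, re_star, im_star]
    ring
  rw [key]
  exact dvd_sub (dvd_add (dvd_add (Dvd.dvd.mul_left h1 _) (Dvd.dvd.mul_left h2 _)) (Dvd.dvd.mul_left h3 _))
    (Dvd.dvd.mul_left h4 _)

/-- Data of a primitive rank one Hermitian matrix over the Eisenstein integers. -/
def PrimHerm (A G R S : ℤ) : Prop :=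
  R ^ 2 - R * S + S ^ 2 = A * G ∧ 0 ≤ A ∧ 0 ≤ G ∧ ∀ l : ℤ, l ∣ A → l ∣ G → l ∣ R → l ∣ S → l ∣ 1

theorem norm_mul_star (α γ : Eis) :
    (α * star γ).re ^ 2 - (α * star γ).re * (α * star γ).im + (α * star γ).im ^ 2 = α.norm * γ.norm := by
  rw [← norm_eq, map_mul, QuadraticAlgebra.norm_star]

theorem rep_even (m : ℕ) (hm : Odd m) :
    ∃ A G R S : ℤ, A + 2 * G = m ∧ PrimHerm A G R S := by
  obtain ⟨α, γ, s, t, h1, h2⟩ := coprime_rep m hm
  refine ⟨α.norm, γ.norm, (α * star γ).re, (α * star γ).im, h1, norm_mul_star α γ, norm_nonneg' _,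
    norm_nonneg' _, ?_⟩
  intro l hA hG hR hS
  have := content_dvd α γ s t 1 l (by rw [h2]; simp) hA hG hR hS
  simpa using this

theorem dvd_seven_pow_sq {l : ℤ} {k : ℕ} (h : l ∣ (7 ^ k) ^ 2) (m : ℤ) (h7 : ¬ (7 : ℤ) ∣ m) (hm : l ∣ m) :
    l ∣ 1 := by
  have hp : Prime (7 : ℤ) := by norm_num
  have hc : IsCoprime (7 : ℤ) m := (Prime.coprime_iff_not_dvd hp).2 h7
  have hc' : IsCoprime ((7 ^ k : ℤ) ^ 2) m := (hc.pow_left).pow_left
  exact (hc'.isUnit_of_dvd' h hm).dvd

/-- Rotate the second entry by a unit so that `α * star γ ≡ 1 (mod 2)`. -/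
theorem rotate (α γ : Eis) (ha : ¬ (2 : ℤ) ∣ α.norm) (hg : ¬ (2 : ℤ) ∣ γ.norm) :
    ∃ u u' : Eis, u * u' = 1 ∧ u.norm = 1 ∧ ¬ (2 : ℤ) ∣ (α * star (u * γ)).re ∧
      (2 : ℤ) ∣ (α * star (u * γ)).im := by
  have hn : ¬ (2 : ℤ) ∣ (α * star γ).norm := by
    rw [map_mul, QuadraticAlgebra.norm_star]
    intro h
    rcases (Int.prime_two).dvd_or_dvd h with h | h
    · exact ha h
    · exact hg h
  rw [norm_zero_iff_dvd2] at hn
  have e : ∀ u : Eis, α * star (u * γ) = star u * (α * star γ) := by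
    intro u; rw [star_mul]; ring
  set β := α * star γ with hβ
  have h : ∀ u : Eis, (star u * β).re = (u.re - u.im) * β.re + u.im * β.im ∧
      (star u * β).im = (u.re - u.im) * β.im - u.im * β.re + u.im * β.im := by
    intro u
    constructor
    · simp only [re_mul, re_star, im_star]; ring
    · simp only [im_mul, re_star, im_star]; ring
  by_cases h2 : (2 : ℤ) ∣ β.im
  · refine ⟨1, 1, by simp, by simp, ?_, ?_⟩
    · rw [e, (h 1).1]
      simp only [re_one, im_one]
      omega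
    · rw [e, (h 1).2]
      simp only [re_one, im_one]
      omega
  · by_cases h1 : (2 : ℤ) ∣ β.re
    · -- β ≡ ω, need star u ≡ ω², u ≡ ω
      refine ⟨⟨0, 1⟩, ⟨-1, -1⟩, by ext <;> simp, by rw [norm_eq]; norm_num, ?_, ?_⟩
      · rw [e, (h _).1]; simp only; omega
      · rw [e, (h _).2]; simp only; omega
    · refine ⟨⟨-1, -1⟩, ⟨0, 1⟩, by ext <;> simp, by rw [norm_eq]; norm_num, ?_, ?_⟩
      · rw [e, (h _).1]; simp only; omega
      · rw [e, (h _).2]; simp only; omega

theorem rep_odd (m : ℕ) (hm : Odd m) (h3 : 3 ≤ m) :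
    ∃ A G R S : ℤ, A + 2 * G = m ∧ PrimHerm A G R S ∧ ¬ (2 : ℤ) ∣ G ∧ ¬ (2 : ℤ) ∣ R ∧ (2 : ℤ) ∣ S := by
  have hm2 : ¬ (2 : ℤ) ∣ (m : ℤ) := by
    obtain ⟨k, hk⟩ := hm
    omega
  -- it suffices to find α, γ
  suffices H : ∃ α γ : Eis, α.norm + 2 * γ.norm = m ∧ ¬ (2 : ℤ) ∣ γ.norm ∧
      ∀ l : ℤ, l ∣ α.norm → l ∣ γ.norm → l ∣ (α * star γ).re → l ∣ (α * star γ).im → l ∣ 1 by
    obtain ⟨α, γ, h1, h2, h4⟩ := H
    have hα : ¬ (2 : ℤ) ∣ α.norm := by
      intro h
      apply hm2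
      rw [← h1]
      exact dvd_add h (dvd_mul_right _ _)
    obtain ⟨u, u', hu, hun, h5, h6⟩ := rotate α γ hα h2
    refine ⟨α.norm, (u * γ).norm, (α * star (u * γ)).re, (α * star (u * γ)).im, ?_, ⟨norm_mul_star _ _,
      norm_nonneg' _, norm_nonneg' _, ?_⟩, ?_, h5, h6⟩
    · rw [map_mul, hun, one_mul]; exact h1
    · intro l hA hG hR hS
      apply h4 l hA
      · rw [map_mul, hun, one_mul] at hG; exact hG
      · have e : α * star γ = u * (α * star (u * γ)) := by
          have : u * star u = 1 := by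
            rw [← algebraMap_norm_eq_mul_star, hun]; simp
          rw [star_mul]
          linear_combination (- α * star γ) * this
        rw [e, re_mul]
        exact dvd_add (Dvd.dvd.mul_left hR _) (Dvd.dvd.mul_left hS _)
      · have e : α * star γ = u * (α * star (u * γ)) := by
          have : u * star u = 1 := by
            rw [← algebraMap_norm_eq_mul_star, hun]; simp
          rw [star_mul]
          linear_combination (- α * star γ) * this
        rw [e, im_mul]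
        exact dvd_add (dvd_add (Dvd.dvd.mul_left hS _) (Dvd.dvd.mul_left hR _)) (Dvd.dvd.mul_left hS _)
    · rw [map_mul, hun, one_mul]; exact h2
  by_cases h7 : (7 : ℤ) ∣ (m : ℤ)
  · -- m = 7 m'
    obtain ⟨m', rfl⟩ : 7 ∣ m := by exact_mod_cast h7
    have hm' : Odd m' := (Nat.odd_mul.1 hm).2
    have hm'2 : ¬ (2 : ℤ) ∣ (m' : ℤ) := by
      obtain ⟨k, hk⟩ := hm'
      omega
    obtain ⟨α0, γ0, s, t, h1, h2⟩ := coprime_rep m' hm'
    obtain ⟨α, γ, s', t', h4, h5, h6, h8, h9⟩ := mul7 m' hm'2 α0 γ0 s t h1 h2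
    refine ⟨α, γ, by push_cast; exact h4, h5, ?_⟩
    intro l hA hG hR hS
    have hl := content_dvd α γ s' t' 7 l (by rw [h6]; simp) hA hG hR hS
    have h7n : ¬ (7 : ℤ) ∣ l := by
      intro h7l
      have a1 := (ZMod.intCast_zmod_eq_zero_iff_dvd _ 7).2 (h7l.trans hA)
      have a2 := (ZMod.intCast_zmod_eq_zero_iff_dvd _ 7).2 (h7l.trans hG)
      have a3 := (ZMod.intCast_zmod_eq_zero_iff_dvd _ 7).2 (h7l.trans hR)
      have a4 := (ZMod.intCast_zmod_eq_zero_iff_dvd _ 7).2 (h7l.trans hS)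
      have b1 : f1 α * f2 γ = 0 := by
        rw [← f1_star γ, ← f1_mul, f1, a3, a4]; simp
      have b2 : f2 α * f1 γ = 0 := by
        rw [← f2_star γ, ← f2_mul, f2, a3, a4]; simp
      rw [norm_mod7] at a1 a2
      have : Fact (Nat.Prime 7) := ⟨by norm_num⟩
      rcases mul_eq_zero.1 a1 with c | c
      · -- f1 α = 0 so f1 γ ≠ 0
        have c1 : f1 γ ≠ 0 := fun h => h8 ⟨c, h⟩
        have c2 : f2 γ = 0 := (mul_eq_zero.1 a2).resolve_left c1
        have c3 : f2 α = 0 := (mul_eq_zero.1 b2).resolve_right c1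
        exact h9 ⟨c3, c2⟩
      · have c1 : f2 γ ≠ 0 := fun h => h9 ⟨c, h⟩
        have c2 : f1 γ = 0 := (mul_eq_zero.1 a2).resolve_right c1
        have c3 : f1 α = 0 := (mul_eq_zero.1 b1).resolve_right c1
        exact h8 ⟨c3, c2⟩
    have hp : Prime (7 : ℤ) := by norm_num
    have hc : IsCoprime (7 : ℤ) l := (Prime.coprime_iff_not_dvd hp).2 h7n
    have hc' : IsCoprime ((7 : ℤ) ^ 2) l := hc.pow_left
    exact (hc'.isUnit_of_dvd' hl dvd_rfl).dvd
  · obtain ⟨α, γ, s, t, h1, h2⟩ := coprime_rep m hm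
    by_cases hev : (2 : ℤ) ∣ γ.norm
    · have hγ : γ ≠ 0 := by
        rintro rfl
        have h4 : (s * α).norm = 1 := by
          have : s * α = 1 := by rw [← h2]; ring
          rw [this, QuadraticAlgebra.norm_one]
        rw [map_mul] at h4
        have h5 : α.norm = 1 := by
          have h6 : α.norm ∣ 1 := ⟨s.norm, by rw [mul_comm]; exact h4.symm⟩
          exact Int.eq_one_of_dvd_one (norm_nonneg' _) h6
        rw [h5] at h1
        simp at h1
        have : m = 1 := by exact_mod_cast h1.symm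
        omega
      obtain ⟨α', γ', s', t', k', h4, h5, h6⟩ := flip7 m h7 hm2 α γ s t 0 h1 hev hγ (by rw [h2]; simp)
      refine ⟨α', γ', h4, h5, ?_⟩
      intro l hA hG hR hS
      have hl := content_dvd α' γ' s' t' (7 ^ k') l (by rw [h6]; simp) hA hG hR hS
      apply dvd_seven_pow_sq hl m h7
      rw [← h4]
      exact dvd_add hA (Dvd.dvd.mul_left hG _)
    · refine ⟨α, γ, h1, hev, ?_⟩
      intro l hA hG hR hS
      have := content_dvd α γ s t 1 l (by rw [h2]; simp) hA hG hR hS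
      simpa using this

end Pool.Agent.H30.Apollo24
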