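import Pool.Agent.H30.Apollo24.Inversion

set_option autoImplicit false

namespace Pool.Agent.H30.Apollo24

open scoped RealInnerProductSpace OnePoint
open Set

theorem norm_sq4 (x : E4) : ‖x‖ ^ 2 = x 0 ^ 2 + x 1 ^ 2 + x 2 ^ 2 + x 3 ^ 2 := by
  rw [EuclideanSpace.norm_sq_eq, Fin.sum_univ_four]; simp

theorem norm_sq3 (x : E3) : ‖x‖ ^ 2 = x 0 ^ 2 + x 1 ^ 2 + x 2 ^ 2 := by
  rw [EuclideanSpace.norm_sq_eq, Fin.sum_univ_three]; simp

theorem inner4 (x y : E4) : ⟪x, y⟫ = x 0 * y 0 + x 1 * y 1 + x 2 * y 2 + x 3 * y 3 := by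
  rw [PiLp.inner_apply, Fin.sum_univ_four]; simp; ring

theorem inner3 (x y : E3) : ⟪x, y⟫ = x 0 * y 0 + x 1 * y 1 + x 2 * y 2 := by
  rw [PiLp.inner_apply, Fin.sum_univ_three]; simp; ring

/-- The first three coordinates. -/
noncomputable def tr (x : E4) : E3 := !₂[x 0, x 1, x 2]

theorem tr_0 (x : E4) : tr x 0 = x 0 := rfl
theorem tr_1 (x : E4) : tr x 1 = x 1 := rfl
theorem tr_2 (x : E4) : tr x 2 = x 2 := rfl

theorem np_0 : northPole 0 = 0 := by simp [northPole]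
theorem np_1 : northPole 1 = 0 := by simp [northPole]
theorem np_2 : northPole 2 = 0 := by simp [northPole]
theorem np_3 : northPole 3 = 1 := by simp [northPole]

theorem inner_northPole (x : E4) : ⟪x, northPole⟫ = x 3 := by
  rw [inner4, np_0, np_1, np_2, np_3]; ring

theorem norm_northPole : ‖northPole‖ = 1 := by simp [northPole]

theorem ext4 {x y : E4} (h0 : x 0 = y 0) (h1 : x 1 = y 1) (h2 : x 2 = y 2) (h3 : x 3 = y 3) :
    x = y := by
  ext i; fin_cases i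
  · exact h0
  · exact h1
  · exact h2
  · exact h3

theorem ext3 {x y : E3} (h0 : x 0 = y 0) (h1 : x 1 = y 1) (h2 : x 2 = y 2) : x = y := by
  ext i; fin_cases i
  · exact h0
  · exact h1
  · exact h2

theorem lt_one_of_ne {p : E4} (hp : ‖p‖ = 1) (hn : p ≠ northPole) : p 3 < 1 := by
  have h := norm_sq4 p
  rw [hp] at h
  by_contra hc
  push Not at hc
  apply hn
  have h3 : p 3 = 1 := by nlinarith [sq_nonneg (p 0), sq_nonneg (p 1), sq_nonneg (p 2), sq_nonneg (p 3)]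
  rw [h3] at h
  have h0 : p 0 = 0 := by
    have : p 0 ^ 2 = 0 := by nlinarith [sq_nonneg (p 0), sq_nonneg (p 1), sq_nonneg (p 2)]
    simpa using this
  have h1 : p 1 = 0 := by
    have : p 1 ^ 2 = 0 := by nlinarith [sq_nonneg (p 0), sq_nonneg (p 1), sq_nonneg (p 2)]
    simpa using this
  have h2 : p 2 = 0 := by
    have : p 2 ^ 2 = 0 := by nlinarith [sq_nonneg (p 0), sq_nonneg (p 1), sq_nonneg (p 2)]
    simpa using this
  exact ext4 (by rw [h0, np_0]) (by rw [h1, np_1]) (by rw [h2, np_2]) (by rw [h3, np_3])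

theorem sqrt3_pos : 0 < √(3 : ℝ) := by positivity
theorem sqrt3_sq : √(3 : ℝ) ^ 2 = 3 := Real.sq_sqrt (by norm_num)

theorem dil_stereo {p : E4} (hn : p ≠ northPole) :
    dilation (stereo p) = (((1 / √3 : ℝ) • !₂[p 0 / (1 - p 3), p 1 / (1 - p 3), p 2 / (1 - p 3)] : E3) : OnePoint E3) := by
  rw [stereo, if_neg hn, dilation, OnePoint.map_some]

theorem quad_dil {p : E4} (hp : ‖p‖ = 1) (hn : p ≠ northPole) (x : E4) (τ : ℝ) :
    dilation (stereo p) ∈ G (√3 * (τ - x 3)) ((τ + x 3) / √3) (tr x) ↔ τ ≤ ⟪p, x⟫ := by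
  have h1 : 0 < 1 - p 3 := by linarith [lt_one_of_ne hp hn]
  have h := norm_sq4 p
  rw [hp] at h
  have hs := sqrt3_pos
  have hs2 := sqrt3_sq
  rw [dil_stereo hn, coe_mem_G, norm_sq3, inner3, inner4, tr_0, tr_1, tr_2]
  have key : √3 * (τ - x 3) *
        (((1 / √3 : ℝ) • (!₂[p 0 / (1 - p 3), p 1 / (1 - p 3), p 2 / (1 - p 3)] : E3)) 0 ^ 2 +
          ((1 / √3 : ℝ) • (!₂[p 0 / (1 - p 3), p 1 / (1 - p 3), p 2 / (1 - p 3)] : E3)) 1 ^ 2 +
          ((1 / √3 : ℝ) • (!₂[p 0 / (1 - p 3), p 1 / (1 - p 3), p 2 / (1 - p 3)] : E3)) 2 ^ 2) -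
      2 * (((1 / √3 : ℝ) • (!₂[p 0 / (1 - p 3), p 1 / (1 - p 3), p 2 / (1 - p 3)] : E3)) 0 * x 0 +
        ((1 / √3 : ℝ) • (!₂[p 0 / (1 - p 3), p 1 / (1 - p 3), p 2 / (1 - p 3)] : E3)) 1 * x 1 +
        ((1 / √3 : ℝ) • (!₂[p 0 / (1 - p 3), p 1 / (1 - p 3), p 2 / (1 - p 3)] : E3)) 2 * x 2) +
      (τ + x 3) / √3 =
      (2 / (√3 * (1 - p 3))) * (τ - (p 0 * x 0 + p 1 * x 1 + p 2 * x 2 + p 3 * x 3)) := by
    simp only [PiLp.smul_apply, smul_eq_mul]
    simp
    field_simp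
    linear_combination (-(τ - x 3)) * h
  rw [key]
  have hpos : 0 < 2 / (√3 * (1 - p 3)) := by positivity
  constructor
  · intro h2
    by_contra hc
    push Not at hc
    have := mul_pos hpos (sub_pos.2 hc)
    linarith
  · intro h2
    exact mul_nonpos_of_nonneg_of_nonpos hpos.le (by linarith)

theorem exists_preimage (z : E3) :
    ∃ p : E4, ‖p‖ = 1 ∧ p ≠ northPole ∧ dilation (stereo p) = (z : OnePoint E3) := by
  have hs := sqrt3_pos
  have hs2 := sqrt3_sq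
  set A : ℝ := 3 * (z 0 ^ 2 + z 1 ^ 2 + z 2 ^ 2) with hA
  have hA0 : 0 ≤ A := by positivity
  have hA1 : 0 < A + 1 := by linarith
  set p : E4 := !₂[2 * √3 * z 0 / (A + 1), 2 * √3 * z 1 / (A + 1), 2 * √3 * z 2 / (A + 1), (A - 1) / (A + 1)] with hp
  have p0 : p 0 = 2 * √3 * z 0 / (A + 1) := rfl
  have p1 : p 1 = 2 * √3 * z 1 / (A + 1) := rfl
  have p2 : p 2 = 2 * √3 * z 2 / (A + 1) := rfl
  have p3 : p 3 = (A - 1) / (A + 1) := rfl
  have hn : p ≠ northPole := by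
    intro h
    have : p 3 = 1 := by rw [h, np_3]
    rw [p3, div_eq_one_iff_eq hA1.ne'] at this
    linarith
  refine ⟨p, ?_, hn, ?_⟩
  · have : ‖p‖ ^ 2 = 1 := by
      rw [norm_sq4, p0, p1, p2, p3]
      field_simp
      rw [hs2]
      have : z 0 ^ 2 + z 1 ^ 2 + z 2 ^ 2 = A / 3 := by rw [hA]; ring
      linear_combination (12 : ℝ) * this
    exact (pow_eq_one_iff_of_nonneg (norm_nonneg _) two_ne_zero).1 this
  · rw [dil_stereo hn]
    congr 1
    have h1 : 1 - p 3 = 2 / (A + 1) := by rw [p3]; field_simp; ring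
    apply ext3
    · simp only [PiLp.smul_apply, smul_eq_mul]
      simp
      rw [h1, p0]; field_simp
    · simp only [PiLp.smul_apply, smul_eq_mul]
      simp
      rw [h1, p1]; field_simp
    · simp only [PiLp.smul_apply, smul_eq_mul]
      simp
      rw [h1, p2]; field_simp

theorem dil_stereo_image (x : E4) (τ : ℝ) :
    dilation '' (stereo '' {p : E4 | ‖p‖ = 1 ∧ τ ≤ ⟪p, x⟫}) =
      G (√3 * (τ - x 3)) ((τ + x 3) / √3) (tr x) := by
  have hs := sqrt3_pos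
  have hN : τ ≤ ⟪northPole, x⟫ ↔ √3 * (τ - x 3) ≤ 0 := by
    rw [real_inner_comm, inner_northPole]
    constructor
    · intro h; exact mul_nonpos_of_nonneg_of_nonpos hs.le (by linarith)
    · intro h
      by_contra hc
      push Not at hc
      have := mul_pos hs (sub_pos.2 hc)
      linarith
  have hSN : dilation (stereo northPole) = ∞ := by
    rw [stereo, if_pos rfl, dilation, OnePoint.map_infty]
  ext P
  constructor
  · rintro ⟨_, ⟨p, ⟨hp, hpx⟩, rfl⟩, rfl⟩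
    by_cases hn : p = northPole
    · subst hn
      rw [hSN, infty_mem_G]
      exact hN.1 hpx
    · exact (quad_dil hp hn x τ).2 hpx
  · intro hP
    induction P using OnePoint.rec with
    | infty =>
      exact ⟨_, ⟨northPole, ⟨norm_northPole, hN.2 hP⟩, rfl⟩, hSN⟩
    | coe z =>
      obtain ⟨p, hp, hn, hz⟩ := exists_preimage z
      rw [← hz] at hP
      exact ⟨_, ⟨p, ⟨hp, (quad_dil hp hn x τ).1 hP⟩, rfl⟩, hz⟩

theorem dil_stereo_cap (v : E4) (τ : ℝ) (hτ : 0 < τ) :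
    dilation '' (stereo '' cap v) =
      G (√3 * (τ - (τ • v) 3)) ((τ + (τ • v) 3) / √3) (tr (τ • v)) := by
  rw [← dil_stereo_image]
  congr 2
  ext p
  simp only [cap, mem_ofPred_eq, real_inner_smul_right]
  constructor
  · rintro ⟨h1, h2⟩
    refine ⟨h1, ?_⟩
    nlinarith
  · rintro ⟨h1, h2⟩
    refine ⟨h1, ?_⟩
    by_contra hc
    push Not at hc
    nlinarith

end Pool.Agent.H30.Apollo24
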